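import Pool.Agent.J4.H89.BK.Cnt

set_option autoImplicit false
open MeasureTheory ProbabilityTheory Filter Set
open scoped ENNReal Topology

/-!
# The variance of averaged rounded passage times (helper89)
-/

namespace Pool.Agent.J4.H89.BK

open Function
open Pool.Agent.J4.H91.FPP
open Pool.Agent.N390.FL.TI (sg sg_inj)

/-- shift of the digits -/
def shW (z : V) (w : Sym2 V × ℕ → Bool) : Sym2 V × ℕ → Bool := fun i => w (sg z i.1, i.2)

theorem sg_neg (z : V) (e : Sym2 V) : sg z (sg (-z) e) = e := by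
  induction e using Sym2.ind with
  | _ a b => rw [sg_mk, sg_mk, add_neg_cancel_left, add_neg_cancel_left]

theorem sg_neg' (z : V) (e : Sym2 V) : sg (-z) (sg z e) = e := by
  induction e using Sym2.ind with
  | _ a b => rw [sg_mk, sg_mk, neg_add_cancel_left, neg_add_cancel_left]

theorem shW_upd (z : V) (w : Sym2 V × ℕ → Bool) (e : Sym2 V) (k : ℕ) (c : Bool) :
    shW z (update w (e, k) c) = update (shW z w) (sg (-z) e, k) c := by
  funext i
  unfold shW
  by_cases h : i = (sg (-z) e, k)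
  · subst h
    simp only [sg_neg, update_self]
  · rw [update_of_ne h, update_of_ne]
    intro h2
    apply h
    have h3 : sg z i.1 = e := congrArg Prod.fst h2
    have h4 : i.2 = k := congrArg Prod.snd h2
    exact Prod.ext (by rw [← h3, sg_neg']) h4

open Classical in
/-- the edges used by the shifted boxes -/
noncomputable def FB' (B : Finset V) (N : ℕ) : Finset (Sym2 V) :=
  (B ×ˢ FN N).image fun q => sg q.1 q.2

theorem yb_shW {B : Finset V} {N L : ℕ} {s : ℝ} {z : V} (hz : z ∈ B) (x : En)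
    (w : Sym2 V × ℕ → Bool) :
    yb (FN N) L (shW z (ov s L (FB' B N).toList x w)) = yq s (FN N) L (shE z x) := by
  classical
  funext e
  unfold yb yq
  by_cases he : e ∈ FN N
  · rw [if_pos he, if_pos he, ← bits_sum]
    refine Finset.sum_congr rfl fun k hk => ?_
    have h1 : shW z (ov s L (FB' B N).toList x w) (e, k) = Nat.testBit ⌊s * shE z x e⌋₊ k := by
      unfold shW ov
      have h2 : sg z e ∈ (FB' B N).toList := by
        rw [Finset.mem_toList]
        unfold FB'
        exact Finset.mem_image.2 ⟨(z, e), Finset.mem_product.2 ⟨hz, he⟩, rfl⟩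
      rw [if_pos ⟨h2, Finset.mem_range.1 hk⟩]
      rfl
    rw [h1]
  · rw [if_neg he, if_neg he]

/-- rounded passage time -/
noncomputable def RR (N M : ℕ) (v : V) (x : En) : ℝ :=
  (TN (box N) 0 v (yq (2 ^ M) (FN N) (2 * M) x) : ℝ) / 2 ^ M

/-- averaged rounded passage time -/
noncomputable def AR (B : Finset V) (N M : ℕ) (v : V) (x : En) : ℝ :=
  (∑ z ∈ B, RR N M v (shE z x)) / B.card

theorem RR_meas (N M : ℕ) (v : V) : Measurable (RR N M v) :=
  yq_meas (2 ^ M) (FN N) (2 * M) fun y => (TN (box N) 0 v y : ℝ) / 2 ^ M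

theorem listsum_finset (F : Finset (Sym2 V)) (g : Sym2 V → ℝ) :
    (F.toList.map g).sum = ∑ e ∈ F, g e := Finset.sum_map_toList F g

theorem AR_var {B : Finset V} (hB : B.Nonempty) {N M : ℕ} {v : V} (h0 : box N 0) (hv : box N v)
    (τ ρ ω : ℝ)
    (hρ : ∀ e ∈ FB' B N, (∫ x, (CE N v B e (yq (2 ^ M) (FN N) (2 * M) x) : ℝ) ∂PP) / B.card ≤ ρ)
    (hρ0 : 0 ≤ ρ)
    (hω : ∫ x, ((GE (box N) 0 v (yq (2 ^ M) (FN N) (2 * M) x)).card : ℝ) ∂PP ≤ ω) :
    τ * (∫ x, AR B N M v x ^ 2 ∂PP - (∫ x, AR B N M v x ∂PP) ^ 2) ≤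
      (504 * (Real.exp (τ - 1) * ρ) + 504) * ω := by
  classical
  have hne : ∃ n p, Re (box N) 0 v n p := box_ne h0 hv
  have hc0 : (0 : ℝ) < B.card := by exact_mod_cast Finset.card_pos.2 hB
  obtain ⟨s, hs⟩ : ∃ s : ℝ, s = 2 ^ M := ⟨_, rfl⟩
  obtain ⟨L, hL⟩ : ∃ L : ℕ, L = 2 * M := ⟨_, rfl⟩
  have hs0 : 0 < s := by rw [hs]; positivity
  set l := (FB' B N).toList with hl
  have hnd : l.Nodup := Finset.nodup_toList _
  set w0 : Sym2 V × ℕ → Bool := fun _ => false with hw0
  set f : (Sym2 V × ℕ → Bool) → ℝ := fun w =>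
    (∑ z ∈ B, TB (FN N) L (box N) 0 v (shW z w)) / B.card with hf
  set H : Sym2 V → (Sym2 V × ℕ → Bool) → ℝ := fun e w =>
    (∑ z ∈ B, if sg (-z) e ∈ GE (box N) 0 v (yb (FN N) L (shW z w)) then (1 : ℝ) else 0) /
      B.card with hH
  have H0 : ∀ e w, 0 ≤ H e w := fun e w =>
    div_nonneg (Finset.sum_nonneg fun z _ => by split_ifs <;> norm_num) hc0.le
  have H1 : ∀ e w, H e w ≤ 1 := by
    intro e w
    rw [hH]
    simp only
    rw [div_le_one hc0]
    refine (Finset.sum_le_sum (g := fun _ => (1 : ℝ)) fun z _ => ?_).trans (by simp)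
    split_ifs <;> norm_num
  have hdf : ∀ e k w, |Df (e, k) f w| ≤ 2 ^ k * H e (update w (e, k) false) := by
    intro e k w
    have e1 : Df (e, k) f w =
        (∑ z ∈ B, Df (sg (-z) e, k) (TB (FN N) L (box N) 0 v) (shW z w)) / B.card := by
      unfold Df
      rw [hf]
      simp only
      rw [← sub_div, ← Finset.sum_sub_distrib]
      simp_rw [shW_upd]
    rw [e1, hH, abs_div, abs_of_pos hc0]
    simp only
    rw [mul_div_assoc', Finset.mul_sum]
    refine div_le_div_of_nonneg_right ?_ hc0.le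
    refine (Finset.abs_sum_le_sum_abs _ _).trans (Finset.sum_le_sum fun z _ => ?_)
    rw [shW_upd]
    exact TB_df hne (sg (-z) e) k (shW z w)
  -- transfer
  have htr : ∀ g : (Sym2 V × ℕ → Bool) → ℝ, ∫ x, g (ov s L l x w0) ∂PP =
      Ex (pr (Real.exp (-(1 / s)))) (l.flatMap (blk L)) g w0 := by
    intro g
    exact transfer PP (fun e (x : En) => x e) (fun e => measurable_pi_apply e) ind_can
      (fun e => Measure.infinitePi_map_eval (fun _ : Sym2 V => expMeasure 1) e) hs0 L l hnd g w0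
  have hfov : ∀ x, f (ov s L l x w0) = s * AR B N M v x := by
    intro x
    rw [hf]
    simp only
    unfold AR RR TB
    rw [mul_div_assoc', Finset.mul_sum]
    congr 1
    refine Finset.sum_congr rfl fun z hz => ?_
    rw [yb_shW hz, ← hs, ← hL]
    field_simp
  have hHov : ∀ e x, H e (ov s L l x w0) =
      (∑ z ∈ B, if sg (-z) e ∈ GE (box N) 0 v (yq s (FN N) L (shE z x)) then (1 : ℝ) else 0) /
        B.card := by
    intro e x
    rw [hH]
    simp only
    congr 1
    refine Finset.sum_congr rfl fun z hz => ?_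
    rw [yb_shW hz]
  set G : V → Sym2 V → En → ℝ := fun z e x =>
    if sg (-z) e ∈ GE (box N) 0 v (yq s (FN N) L x) then (1 : ℝ) else 0 with hG
  have hGi : ∀ z e, Integrable (G z e) PP := fun z e =>
    yq_int s (FN N) L fun y => if sg (-z) e ∈ GE (box N) 0 v y then (1 : ℝ) else 0
  have hW : ∀ e, Ex (pr (Real.exp (-(1 / s)))) (l.flatMap (blk L)) (H e) w0 =
      (∑ z ∈ B, ∫ x, G z e x ∂PP) / B.card := by
    intro e
    rw [← htr (H e)]
    simp_rw [hHov]
    rw [integral_div]
    congr 1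
    have h1 : ∀ z, Integrable (fun x => G z e (shE z x)) PP := fun z =>
      integrable_shE (hGi z e) z
    have h2 := integral_finsetSum B (fun z _ => h1 z)
    refine h2.trans (Finset.sum_congr rfl fun z _ => ?_)
    exact int_shE (hGi z e).aestronglyMeasurable z
  have hWρ : ∀ e ∈ l, Ex (pr (Real.exp (-(1 / s)))) (l.flatMap (blk L)) (H e) w0 ≤ ρ := by
    intro e he
    rw [hW]
    refine le_trans (le_of_eq ?_) (hρ e (Finset.mem_toList.1 he))
    congr 1
    rw [← integral_finsetSum B (fun z _ => hGi z e), ← hs, ← hL]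
    refine integral_congr_ae (Eventually.of_forall fun x => ?_)
    show ∑ z ∈ B, G z e x = (CE N v B e (yq s (FN N) L x) : ℝ)
    unfold CE
    rw [Finset.card_filter]
    push_cast
    rfl
  have hWs : (l.map fun e => Ex (pr (Real.exp (-(1 / s)))) (l.flatMap (blk L)) (H e) w0).sum ≤ ω := by
    rw [listsum_finset]
    simp_rw [hW]
    rw [← Finset.sum_div, Finset.sum_comm, div_le_iff₀ hc0]
    have h1 : ∀ z ∈ B, ∑ e ∈ FB' B N, ∫ x, G z e x ∂PP ≤ ω := by
      intro z _
      rw [← integral_finsetSum _ (fun e _ => hGi z e)]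
      refine le_trans ?_ hω
      rw [← hs, ← hL]
      refine integral_mono (integrable_finsetSum _ fun e _ => hGi z e)
        (yq_int s (FN N) L fun y => ((GE (box N) 0 v y).card : ℝ)) fun x => ?_
      show ∑ e ∈ FB' B N, G z e x ≤ ((GE (box N) 0 v (yq s (FN N) L x)).card : ℝ)
      have h2 : ∑ e ∈ FB' B N, G z e x =
          (((FB' B N).filter fun e => sg (-z) e ∈ GE (box N) 0 v (yq s (FN N) L x)).card : ℝ) := by
        rw [Finset.card_filter]
        push_cast
        rfl
      rw [h2]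
      exact_mod_cast Finset.card_le_card_of_injOn (fun e => sg (-z) e)
        (fun e he => (Finset.mem_filter.1 he).2) (fun e _ e' _ h => sg_inj (-z) h)
    refine (Finset.sum_le_sum h1).trans (le_of_eq ?_)
    rw [Finset.sum_const, nsmul_eq_mul, mul_comm]
  have hmain := var_bound M L l hnd f H H0 H1 hdf w0 τ ρ (by rw [← hs]; exact hWρ)
  rw [← hs, ← htr, ← htr] at hmain
  have e1 : ∫ x, f (ov s L l x w0) ^ 2 ∂PP = s ^ 2 * ∫ x, AR B N M v x ^ 2 ∂PP := by
    rw [← integral_const_mul]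
    refine integral_congr_ae (Eventually.of_forall fun x => ?_)
    show f (ov s L l x w0) ^ 2 = _
    rw [hfov]; ring
  have e2 : ∫ x, f (ov s L l x w0) ∂PP = s * ∫ x, AR B N M v x ∂PP := by
    rw [← integral_const_mul]
    exact integral_congr_ae (Eventually.of_forall fun x => hfov x)
  rw [e1, e2] at hmain
  have h3 : 0 ≤ 504 * (Real.exp (τ - 1) * ρ) + 504 := by
    have := Real.exp_pos (τ - 1)
    positivity
  have h4 : s ^ 2 * (τ * (∫ x, AR B N M v x ^ 2 ∂PP - (∫ x, AR B N M v x ∂PP) ^ 2)) ≤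
      s ^ 2 * ((504 * (Real.exp (τ - 1) * ρ) + 504) * ω) := by
    calc s ^ 2 * (τ * (∫ x, AR B N M v x ^ 2 ∂PP - (∫ x, AR B N M v x ∂PP) ^ 2))
        = τ * (s ^ 2 * ∫ x, AR B N M v x ^ 2 ∂PP - (s * ∫ x, AR B N M v x ∂PP) ^ 2) := by ring
      _ ≤ _ := hmain
      _ ≤ s ^ 2 * (504 * (Real.exp (τ - 1) * ρ) + 504) * ω :=
          mul_le_mul_of_nonneg_left hWs (by positivity)
      _ = _ := by ring
  exact le_of_mul_le_mul_left h4 (by positivity)

end Pool.Agent.J4.H89.BK
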