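import Pool.Agent.J4.H89.BK.Law2

set_option autoImplicit false
open MeasureTheory ProbabilityTheory Filter Set
open scoped ENNReal Topology

/-!
# The variance of functions of binary digits (helper89)
-/

namespace Pool.Agent.J4.H89.BK

open Function

/-! ### scalar sums -/

theorem exp_four {u : ℝ} (hu : 0 < u) : Real.exp (-u) ≤ 24 / u ^ 4 := by
  have h := Real.pow_div_factorial_le_exp u hu.le 4
  have h2 : (Nat.factorial 4 : ℝ) = 24 := by norm_num [Nat.factorial]
  rw [h2] at h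
  rw [Real.exp_neg, ← one_div, div_le_div_iff₀ (Real.exp_pos _) (by positivity)]
  rw [div_le_iff₀ (by norm_num)] at h
  linarith

theorem core_fn {u : ℝ} (hu : 0 < u) :
    (5 + 2 * u) * Real.exp (-u) * u ^ 2 ≤ 168 * u ∧
    (5 + 2 * u) * Real.exp (-u) * u ^ 2 ≤ 168 * (1 / u) := by
  have he1 : Real.exp (-u) ≤ 1 := Real.exp_le_one_iff.2 (by linarith)
  have he4 := exp_four hu
  have he0 := Real.exp_pos (-u)
  rcases le_or_gt u 1 with h | h
  · have h1 : (5 + 2 * u) * Real.exp (-u) * u ^ 2 ≤ 7 * 1 * u ^ 2 := by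
      have : 5 + 2 * u ≤ 7 := by linarith
      gcongr
    have h2 : u ^ 2 ≤ u := by nlinarith
    have h3 : 1 ≤ 1 / u := by rw [le_div_iff₀ hu]; linarith
    constructor <;> linarith
  · have h1 : (5 + 2 * u) * Real.exp (-u) * u ^ 2 ≤ (7 * u) * (24 / u ^ 4) * u ^ 2 := by
      have : 5 + 2 * u ≤ 7 * u := by linarith
      gcongr
    have h2 : (7 * u) * (24 / u ^ 4) * u ^ 2 = 168 * (1 / u) := by field_simp; norm_num
    have h3 : 1 / u ≤ u := by rw [div_le_iff₀ (by linarith)]; nlinarith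
    rw [h2] at h1
    constructor <;> linarith

/-- the two sums over the digits of one variable -/
theorem sum_core (M L : ℕ) :
    ∑ k ∈ Finset.range L, (5 + 2 * (2 ^ k / 2 ^ M : ℝ)) * Real.exp (-(2 ^ k / 2 ^ M : ℝ)) *
      (2 ^ k / 2 ^ M : ℝ) ^ 2 ≤ 504 := by
  set c : ℕ → ℝ := fun k => (5 + 2 * (2 ^ k / 2 ^ M : ℝ)) * Real.exp (-(2 ^ k / 2 ^ M : ℝ)) *
      (2 ^ k / 2 ^ M : ℝ) ^ 2 with hc
  have hc0 : ∀ k, 0 ≤ c k := fun k => by
    rw [hc]
    have := Real.exp_pos (-(2 ^ k / 2 ^ M : ℝ))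
    positivity
  have h1 : ∑ k ∈ Finset.range L, c k ≤ ∑ k ∈ Finset.range (M + L), c k :=
    Finset.sum_le_sum_of_subset_of_nonneg (Finset.range_mono (by omega)) fun k _ _ => hc0 k
  refine h1.trans ?_
  rw [Finset.sum_range_add]
  have h2 : ∑ k ∈ Finset.range M, c k ≤ 168 := by
    have h3 : ∀ k ∈ Finset.range M, c k ≤ 168 * ((2 : ℝ) ^ k / 2 ^ M) := fun k _ =>
      (core_fn (by positivity)).1
    refine (Finset.sum_le_sum h3).trans ?_
    rw [← Finset.mul_sum, ← Finset.sum_div]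
    have h4 : ∑ k ∈ Finset.range M, (2 : ℝ) ^ k = 2 ^ M - 1 := by
      rw [geom_sum_eq (by norm_num)]; norm_num
    rw [h4]
    have h5 : ((2 : ℝ) ^ M - 1) / 2 ^ M ≤ 1 := by
      rw [div_le_one (by positivity)]; linarith
    linarith
  have h3 : ∑ j ∈ Finset.range L, c (M + j) ≤ 336 := by
    have h4 : ∀ j ∈ Finset.range L, c (M + j) ≤ 168 * ((1 / 2 : ℝ) ^ j) := by
      intro j _
      have e : (2 : ℝ) ^ (M + j) / 2 ^ M = 2 ^ j := by rw [pow_add]; field_simp
      rw [hc]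
      simp only
      rw [e]
      refine (core_fn (by positivity)).2.trans (le_of_eq ?_)
      rw [one_div, one_div, inv_pow]
    refine (Finset.sum_le_sum h4).trans ?_
    rw [← Finset.mul_sum]
    have h5 : ∑ j ∈ Finset.range L, (1 / 2 : ℝ) ^ j ≤ 2 := by
      have := (summable_geometric_two).sum_le_tsum (Finset.range L) (fun _ _ => by positivity)
      rw [tsum_geometric_two] at this
      exact this
    linarith
  linarith

/-- the constants of one digit -/
theorem digit {s u q R : ℝ} (hs : 0 < s) (hu : 0 < u) (hR : R = Real.exp (-u))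
    (hq : q = R / (1 + R)) {t : ℝ} (ht : t = s * u) :
    (3 + 2 * Real.log (1 / q)) * q * t ^ 2 ≤
      s ^ 2 * ((5 + 2 * u) * Real.exp (-u) * u ^ 2) ∧
    (2 * q * t) ^ 2 ≤ s ^ 2 * ((5 + 2 * u) * Real.exp (-u) * u ^ 2) := by
  have hR0 : 0 < R := by rw [hR]; exact Real.exp_pos _
  have hR1 : R < 1 := by rw [hR, Real.exp_lt_one_iff]; linarith
  have hqR : q ≤ R := by rw [hq, div_le_iff₀ (by linarith)]; nlinarith
  have hq0 : 0 < q := by rw [hq]; positivity
  have hlog : Real.log (1 / q) ≤ 1 + u := by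
    have e : 1 / q = (1 + R) * Real.exp u := by
      rw [hq, hR, Real.exp_neg]
      have := Real.exp_pos u
      field_simp
    rw [e, Real.log_mul (by linarith) (Real.exp_pos _).ne', Real.log_exp]
    have := Real.log_le_sub_one_of_pos (by linarith : 0 < 1 + R)
    linarith
  rw [← hR, ht]
  constructor
  · calc (3 + 2 * Real.log (1 / q)) * q * (s * u) ^ 2
        ≤ (3 + 2 * (1 + u)) * q * (s * u) ^ 2 := by gcongr
      _ ≤ (3 + 2 * (1 + u)) * R * (s * u) ^ 2 := by gcongr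
      _ = s ^ 2 * ((5 + 2 * u) * R * u ^ 2) := by ring
  · calc (2 * q * (s * u)) ^ 2 = 4 * (q * q) * (s * u) ^ 2 := by ring
      _ ≤ 4 * (R * 1) * (s * u) ^ 2 := by
          have : q * q ≤ R * 1 := mul_le_mul hqR (by linarith) hq0.le hR0.le
          gcongr
      _ ≤ (5 + 2 * u) * R * (s * u) ^ 2 := by
          have : 4 * (R * 1) ≤ (5 + 2 * u) * R := by nlinarith
          gcongr
      _ = s ^ 2 * ((5 + 2 * u) * R * u ^ 2) := by ring

variable {α : Type} [DecidableEq α]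

theorem sum_list_range (L : ℕ) (g : ℕ → ℝ) :
    ((List.range L).map g).sum = ∑ k ∈ Finset.range L, g k := by
  induction L with
  | zero => simp
  | succ L ih =>
    rw [List.range_succ, List.map_append, List.sum_append, ih, Finset.sum_range_succ]
    simp

omit [DecidableEq α] in
theorem sum_blk (L : ℕ) (l : List α) (F : α × ℕ → ℝ) :
    ((l.flatMap (blk L)).map F).sum = (l.map fun e => ∑ k ∈ Finset.range L, F (e, k)).sum := by
  induction l with
  | nil => rfl
  | cons e l ih =>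
    rw [List.flatMap_cons, List.map_append, List.sum_append, ih, List.map_cons, List.sum_cons]
    congr 1
    unfold blk
    rw [List.map_map, sum_list_range]
    rfl

omit [DecidableEq α] in
theorem mem_blk {L : ℕ} {l : List α} {i : α × ℕ} : i ∈ l.flatMap (blk L) ↔ i.1 ∈ l ∧ i.2 < L := by
  unfold blk
  rw [List.mem_flatMap]
  constructor
  · rintro ⟨e, he, h⟩
    obtain ⟨k, hk, rfl⟩ := List.mem_map.1 h
    exact ⟨he, List.mem_range.1 hk⟩
  · rintro ⟨h1, h2⟩
    exact ⟨i.1, h1, List.mem_map.2 ⟨i.2, List.mem_range.2 h2, rfl⟩⟩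

omit [DecidableEq α] in
theorem nodup_blk {L : ℕ} {l : List α} (hl : l.Nodup) : (l.flatMap (blk L)).Nodup := by
  induction l with
  | nil => simp
  | cons e l ih =>
    obtain ⟨he, hl'⟩ := List.nodup_cons.1 hl
    rw [List.flatMap_cons, List.nodup_append]
    refine ⟨?_, ih hl', ?_⟩
    · unfold blk
      exact List.nodup_range.map fun a b h => (Prod.ext_iff.1 h).2
    · intro i hi j hj hij
      subst hij
      have h1 := (mem_blk.1 hj).1
      unfold blk at hi
      obtain ⟨k, -, rfl⟩ := List.mem_map.1 hi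
      exact he h1

/-- average of a function of the remaining digits -/
theorem Ex_false {p : α × ℕ → ℝ} (hp : Ok p) {l : List (α × ℕ)} {i : α × ℕ} (hi : i ∈ l)
    {h : (α × ℕ → Bool) → ℝ} (h0 : ∀ w, 0 ≤ h w) (w : α × ℕ → Bool) :
    (1 - p i) * Ex p l (fun x => h (update x i false)) w ≤ Ex p l h w := by
  obtain ⟨hp0, hp1⟩ := hp i
  have h1 : Ex p l (Av p i h) = Ex p l h := by
    rw [Ex_Av, (Ex_ind hi h).av_eq]
  have h2 : ∀ x, (1 - p i) * h (update x i false) ≤ Av p i h x := by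
    intro x
    unfold Av
    have := mul_nonneg hp0.le (h0 (update x i true))
    linarith
  have h3 := Ex_mono hp l h2 w
  rw [Ex_smul, h1] at h3
  exact h3

/-- the variance bound -/
theorem var_bound (M L : ℕ) (l : List α) (hl : l.Nodup) (f : (α × ℕ → Bool) → ℝ)
    (H : α → (α × ℕ → Bool) → ℝ) (H0 : ∀ e w, 0 ≤ H e w) (H1 : ∀ e w, H e w ≤ 1)
    (hdf : ∀ e k w, |Df (e, k) f w| ≤ 2 ^ k * H e (update w (e, k) false))
    (w : α × ℕ → Bool) (τ ρ : ℝ)
    (hρ : ∀ e ∈ l, Ex (pr (Real.exp (-(1 / 2 ^ M)))) (l.flatMap (blk L)) (H e) w ≤ ρ) :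
    τ * (Ex (pr (Real.exp (-(1 / 2 ^ M)))) (l.flatMap (blk L)) (fun x => f x ^ 2) w -
      Ex (pr (Real.exp (-(1 / 2 ^ M)))) (l.flatMap (blk L)) f w ^ 2) ≤
    (2 ^ M) ^ 2 * (504 * (Real.exp (τ - 1) * ρ) + 504) *
      (l.map fun e => Ex (pr (Real.exp (-(1 / 2 ^ M)))) (l.flatMap (blk L)) (H e) w).sum := by
  set r := Real.exp (-(1 / 2 ^ M)) with hr
  set s : ℝ := 2 ^ M with hs
  have hs0 : 0 < s := by positivity
  have hr0 : 0 < r := Real.exp_pos _
  have hr1 : r < 1 := by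
    rw [hr, Real.exp_lt_one_iff]
    have : 0 < 1 / s := by positivity
    linarith
  have hp : Ok (pr (α := α) r) := pr_ok hr0 hr1
  set ls := l.flatMap (blk L) with hls
  set W : α → ℝ := fun e => Ex (pr r) ls (H e) w with hW
  have hW0 : ∀ e, 0 ≤ W e := fun e => Ex_nonneg hp ls (H0 e) w
  have hfs := fs hp ls (nodup_blk hl) f w τ
  have hu : ∀ k : ℕ, (0 : ℝ) < 2 ^ k / 2 ^ M := fun k => by positivity
  have hdig : ∀ (e : α) (k : ℕ), (3 + 2 * Real.log (1 / pr r (e, k))) * pr r (e, k) * ((2 : ℝ) ^ k) ^ 2 ≤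
      s ^ 2 * ((5 + 2 * (2 ^ k / 2 ^ M : ℝ)) * Real.exp (-(2 ^ k / 2 ^ M : ℝ)) * (2 ^ k / 2 ^ M : ℝ) ^ 2) ∧
      (2 * pr r (e, k) * (2 : ℝ) ^ k) ^ 2 ≤
      s ^ 2 * ((5 + 2 * (2 ^ k / 2 ^ M : ℝ)) * Real.exp (-(2 ^ k / 2 ^ M : ℝ)) * (2 ^ k / 2 ^ M : ℝ) ^ 2) := by
    intro e k
    refine digit hs0 (hu k) (R := r ^ (2 ^ k)) ?_ rfl ?_
    · rw [hr, ← Real.exp_nat_mul]
      congr 1
      push_cast
      rw [hs]
      field_simp
    · rw [hs]; field_simp
  -- one digit
  have hone : ∀ e ∈ l, ∀ k ∈ Finset.range L,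
      (1 - pr r (e, k)) * Ex (pr r) ls (fun x => |Df (e, k) f x|) w ≤ 2 ^ k * W e ∧
      (1 - pr r (e, k)) * Ex (pr r) ls (fun x => Df (e, k) f x ^ 2) w ≤ (2 ^ k) ^ 2 * W e := by
    intro e he k hk
    obtain ⟨hp0, hp1⟩ := hp (e, k)
    have hmem : (e, k) ∈ ls := mem_blk.2 ⟨he, Finset.mem_range.1 hk⟩
    have h1 := Ex_false hp hmem (H0 e) w
    have h2 : Ex (pr r) ls (fun x => |Df (e, k) f x|) w ≤
        2 ^ k * Ex (pr r) ls (fun x => H e (update x (e, k) false)) w := by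
      have := Ex_mono hp ls (fun x => hdf e k x) w
      rwa [Ex_smul] at this
    have h3 : Ex (pr r) ls (fun x => Df (e, k) f x ^ 2) w ≤
        (2 ^ k) ^ 2 * Ex (pr r) ls (fun x => H e (update x (e, k) false)) w := by
      have h4 : ∀ x, Df (e, k) f x ^ 2 ≤ (2 ^ k) ^ 2 * H e (update x (e, k) false) := by
        intro x
        have h5 := hdf e k x
        have h6 := H0 e (update x (e, k) false)
        have h7 := H1 e (update x (e, k) false)
        calc Df (e, k) f x ^ 2 = |Df (e, k) f x| ^ 2 := (sq_abs _).symm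
          _ ≤ (2 ^ k * H e (update x (e, k) false)) ^ 2 := pow_le_pow_left₀ (abs_nonneg _) h5 2
          _ = (2 ^ k) ^ 2 * (H e (update x (e, k) false) * H e (update x (e, k) false)) := by ring
          _ ≤ (2 ^ k) ^ 2 * (H e (update x (e, k) false) * 1) := by gcongr
          _ = _ := by ring
      have := Ex_mono hp ls h4 w
      rwa [Ex_smul] at this
    have hq : 0 ≤ 1 - pr r (e, k) := by linarith
    constructor
    · calc (1 - pr r (e, k)) * Ex (pr r) ls (fun x => |Df (e, k) f x|) w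
          ≤ (1 - pr r (e, k)) * (2 ^ k * Ex (pr r) ls (fun x => H e (update x (e, k) false)) w) :=
            mul_le_mul_of_nonneg_left h2 hq
        _ = 2 ^ k * ((1 - pr r (e, k)) * Ex (pr r) ls (fun x => H e (update x (e, k) false)) w) := by
            ring
        _ ≤ 2 ^ k * W e := mul_le_mul_of_nonneg_left h1 (by positivity)
    · calc (1 - pr r (e, k)) * Ex (pr r) ls (fun x => Df (e, k) f x ^ 2) w
          ≤ (1 - pr r (e, k)) * ((2 ^ k) ^ 2 *
              Ex (pr r) ls (fun x => H e (update x (e, k) false)) w) :=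
            mul_le_mul_of_nonneg_left h3 hq
        _ = (2 ^ k) ^ 2 * ((1 - pr r (e, k)) *
              Ex (pr r) ls (fun x => H e (update x (e, k) false)) w) := by ring
        _ ≤ (2 ^ k) ^ 2 * W e := mul_le_mul_of_nonneg_left h1 (by positivity)
  set c : ℕ → ℝ := fun k => (5 + 2 * (2 ^ k / 2 ^ M : ℝ)) * Real.exp (-(2 ^ k / 2 ^ M : ℝ)) *
      (2 ^ k / 2 ^ M : ℝ) ^ 2 with hc
  have hcs : ∑ k ∈ Finset.range L, c k ≤ 504 := sum_core M L
  have hA : (ls.map fun i => (2 * (pr r i * (1 - pr r i)) *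
      Ex (pr r) ls (fun x => |Df i f x|) w) ^ 2).sum ≤
      (l.map fun e => s ^ 2 * 504 * ρ * W e).sum := by
    rw [hls, sum_blk]
    refine listsum_le l fun e he => ?_
    have hWρ : W e ≤ ρ := hρ e he
    have h1 : ∀ k ∈ Finset.range L, (2 * (pr r (e, k) * (1 - pr r (e, k))) *
        Ex (pr r) ls (fun x => |Df (e, k) f x|) w) ^ 2 ≤ (s ^ 2 * W e ^ 2) * c k := by
      intro k hk
      obtain ⟨hp0, hp1⟩ := hp (e, k)
      have h2 := (hone e he k hk).1
      have h3 : 0 ≤ (1 - pr r (e, k)) * Ex (pr r) ls (fun x => |Df (e, k) f x|) w :=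
        mul_nonneg (by linarith) (Ex_nonneg hp ls (fun x => abs_nonneg _) w)
      calc (2 * (pr r (e, k) * (1 - pr r (e, k))) * Ex (pr r) ls (fun x => |Df (e, k) f x|) w) ^ 2
          = (2 * pr r (e, k)) ^ 2 *
            ((1 - pr r (e, k)) * Ex (pr r) ls (fun x => |Df (e, k) f x|) w) ^ 2 := by ring
        _ ≤ (2 * pr r (e, k)) ^ 2 * (2 ^ k * W e) ^ 2 :=
            mul_le_mul_of_nonneg_left (pow_le_pow_left₀ h3 h2 2) (sq_nonneg _)
        _ = (2 * pr r (e, k) * 2 ^ k) ^ 2 * W e ^ 2 := by ring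
        _ ≤ (s ^ 2 * c k) * W e ^ 2 := mul_le_mul_of_nonneg_right (hdig e k).2 (sq_nonneg _)
        _ = (s ^ 2 * W e ^ 2) * c k := by ring
    refine (Finset.sum_le_sum h1).trans ?_
    rw [← Finset.mul_sum]
    calc (s ^ 2 * W e ^ 2) * ∑ k ∈ Finset.range L, c k ≤ (s ^ 2 * W e ^ 2) * 504 :=
          mul_le_mul_of_nonneg_left hcs (by positivity)
      _ = s ^ 2 * 504 * (W e * W e) := by ring
      _ ≤ s ^ 2 * 504 * (ρ * W e) := by
          have := mul_le_mul_of_nonneg_right hWρ (hW0 e)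
          exact mul_le_mul_of_nonneg_left this (by positivity)
      _ = s ^ 2 * 504 * ρ * W e := by ring
  have hB : (ls.map fun i => kap (pr r i) * Ex (pr r) ls (fun x => Df i f x ^ 2) w).sum ≤
      (l.map fun e => s ^ 2 * 504 * W e).sum := by
    rw [hls, sum_blk]
    refine listsum_le l fun e he => ?_
    have h1 : ∀ k ∈ Finset.range L, kap (pr r (e, k)) *
        Ex (pr r) ls (fun x => Df (e, k) f x ^ 2) w ≤ (s ^ 2 * W e) * c k := by
      intro k hk
      obtain ⟨hp0, hp1⟩ := hp (e, k)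
      have h2 := (hone e he k hk).2
      have hlog : 0 ≤ Real.log (1 / pr r (e, k)) := Real.log_nonneg (by
        rw [le_div_iff₀ hp0]; linarith)
      unfold kap
      calc (3 + 2 * Real.log (1 / pr r (e, k))) * (pr r (e, k) * (1 - pr r (e, k))) *
            Ex (pr r) ls (fun x => Df (e, k) f x ^ 2) w
          = (3 + 2 * Real.log (1 / pr r (e, k))) * pr r (e, k) *
            ((1 - pr r (e, k)) * Ex (pr r) ls (fun x => Df (e, k) f x ^ 2) w) := by ring
        _ ≤ (3 + 2 * Real.log (1 / pr r (e, k))) * pr r (e, k) * ((2 ^ k) ^ 2 * W e) :=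
            mul_le_mul_of_nonneg_left h2 (by positivity)
        _ = (3 + 2 * Real.log (1 / pr r (e, k))) * pr r (e, k) * (2 ^ k) ^ 2 * W e := by ring
        _ ≤ (s ^ 2 * c k) * W e := mul_le_mul_of_nonneg_right (hdig e k).1 (hW0 e)
        _ = (s ^ 2 * W e) * c k := by ring
    refine (Finset.sum_le_sum h1).trans ?_
    rw [← Finset.mul_sum]
    calc (s ^ 2 * W e) * ∑ k ∈ Finset.range L, c k ≤ (s ^ 2 * W e) * 504 :=
          mul_le_mul_of_nonneg_left hcs (mul_nonneg (sq_nonneg _) (hW0 e))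
      _ = s ^ 2 * 504 * W e := by ring
  rw [List.sum_map_mul_left] at hA hB
  have hA' := mul_le_mul_of_nonneg_left hA (Real.exp_pos (τ - 1)).le
  refine hfs.trans ((add_le_add hA' hB).trans (le_of_eq ?_))
  rw [hW]
  ring

end Pool.Agent.J4.H89.BK
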