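import Pool.Agent.J4.H89.BK.Mom

set_option autoImplicit false
open MeasureTheory ProbabilityTheory Filter Set
open scoped ENNReal Topology

/-!
# The expected number of edges of geodesics in rounded environments (helper89)
-/

namespace Pool.Agent.J4.H89.BK

open Function
open Pool.Agent.J4.H91.FPP
open Pool.Agent.N390.FL.TI (sg sg_inj)

/-! ### measurability of functions of the rounded environment -/

theorem yq_meas {β : Type} [MeasurableSpace β] (s : ℝ) (F : Finset (Sym2 V)) (L : ℕ)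
    (g : (Sym2 V → ℕ) → β) : Measurable fun x : En => g (yq s F L x) := by
  classical
  set g' : (F → ℕ) → β := fun w => g fun e => if h : e ∈ F then w ⟨e, h⟩ else 0 with hg
  have hg'm : Measurable g' := Measurable.of_discrete
  have h1 : (fun x : En => g (yq s F L x)) = g' ∘ fun x : En => fun e : F => ⌊s * x e⌋₊ % 2 ^ L := by
    funext x
    show g _ = g _
    congr 1
  rw [h1]
  refine hg'm.comp (measurable_pi_iff.2 fun e => ?_)
  exact (Measurable.of_discrete (f := fun n : ℕ => n % 2 ^ L)).comp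
    (Nat.measurable_floor.comp (measurable_const.mul (measurable_pi_apply _)))

theorem yq_bdd (s : ℝ) (F : Finset (Sym2 V)) (L : ℕ) (g : (Sym2 V → ℕ) → ℝ) :
    ∃ C : ℝ, ∀ x : En, |g (yq s F L x)| ≤ C := by
  classical
  set g' : (F → Fin (2 ^ L)) → ℝ := fun w => |g fun e => if h : e ∈ F then (w ⟨e, h⟩ : ℕ) else 0|
    with hg
  obtain ⟨C, hC⟩ := (Set.finite_range g').bddAbove
  refine ⟨C, fun x => ?_⟩
  obtain ⟨w, hw⟩ : ∃ w : F → Fin (2 ^ L), ∀ e, (w e : ℕ) = ⌊s * x e⌋₊ % 2 ^ L :=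
    ⟨fun e => ⟨⌊s * x e⌋₊ % 2 ^ L, Nat.mod_lt _ (by positivity)⟩, fun e => rfl⟩
  have h1 : |g (yq s F L x)| = g' w := by
    show |g _| = |g _|
    congr 2
    funext e
    unfold yq
    by_cases he : e ∈ F
    · rw [if_pos he, dif_pos he, hw]
    · rw [if_neg he, dif_neg he]
  rw [h1]
  exact hC (Set.mem_range_self w)

theorem yq_int (s : ℝ) (F : Finset (Sym2 V)) (L : ℕ) (g : (Sym2 V → ℕ) → ℝ) :
    Integrable (fun x : En => g (yq s F L x)) PP := by
  obtain ⟨C, hC⟩ := yq_bdd s F L g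
  exact Integrable.mono' (integrable_const C) (yq_meas s F L g).aestronglyMeasurable
    (Eventually.of_forall fun x => hC x)

theorem Sm_meas (s : ℝ) (F : Finset (Sym2 V)) (L : ℕ) : MeasurableSet {x : En | ¬ Sm s F L x} := by
  have h : {x : En | ¬ Sm s F L x} = ⋃ e ∈ F, {x : En | (2 : ℝ) ^ L ≤ s * x e} := by
    ext x
    simp only [Sm, mem_ofPred_eq, not_forall, not_lt, mem_iUnion, exists_prop]
  rw [h]
  exact Finset.measurableSet_biUnion F fun e _ =>
    measurableSet_le measurable_const (measurable_const.mul (measurable_pi_apply e))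

/-! ### the total number -/

theorem GE_card {N : ℕ} {a b : V} (ha : box N a) (hb : box N b) (y : Sym2 V → ℕ) :
    ∃ n p, IsGeo (box N) a b y n p ∧ (GE (box N) a b y).card ≤ n ∧ n < (2 * N + 1) ^ 2 ∧
      ∀ e ∈ GE (box N) a b y, ∃ i < n, e = s(p i, p (i + 1)) := by
  classical
  obtain ⟨n, p, hg, hG⟩ := GE_spec (box_ne ha hb) y
  refine ⟨n, p, hg, ?_, sim_len hg.1 hg.2.2, fun e he => ?_⟩
  · rw [hG]
    exact Finset.card_image_le.trans (by rw [Finset.card_range])
  · rw [hG] at he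
    obtain ⟨i, hi, rfl⟩ := Finset.mem_image.1 he
    exact ⟨i, Finset.mem_range.1 hi, rfl⟩

theorem cnt_total {N L : ℕ} {s : ℝ} (hs : ((2 * N + 1) ^ 2 : ℝ) ≤ s) {v : V} (h0 : box N 0)
    (hv : box N v) : ∫ x, ((GE (box N) 0 v (yq s (FN N) L x)).card : ℝ) ∂PP ≤
      25 * (dst 0 v + 1) + 1 + (2 * N + 1) ^ 2 * PP.real {x | ¬ Sm s (FN N) L x} := by
  set A : Set En := {x | ¬ Sm s (FN N) L x} with hA
  have hAm : MeasurableSet A := Sm_meas _ _ _
  have h1 : ∀ᵐ x ∂PP, ((GE (box N) 0 v (yq s (FN N) L x)).card : ℝ) ≤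
      (25 * (tR x (dst 0 v) (LP 0 v) ^ (0 + 1) + 1) + ZM {0} 0 ((2 * N + 1) ^ 2) x) +
        A.indicator (fun _ => ((2 * N + 1) ^ 2 : ℝ)) x := by
    filter_upwards [ae_nonneg] with x hx
    obtain ⟨n, p, hg, hc, hn, -⟩ := GE_card h0 hv (yq s (FN N) L x)
    have hc' : ((GE (box N) 0 v (yq s (FN N) L x)).card : ℝ) ≤ n := by exact_mod_cast hc
    have hw := tR_nonneg hx (dst 0 v) (LP 0 v)
    have hZ := ZZ_le {0} 0 ((2 * N + 1) ^ 2) x
    have hZ0 := ZZ_nonneg {0} 0 ((2 * N + 1) ^ 2) x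
    by_cases hsm : Sm s (FN N) L x
    · have hi : A.indicator (fun _ => ((2 * N + 1) ^ 2 : ℝ)) x = 0 :=
        indicator_of_notMem (by simpa [hA] using hsm) _
      rw [hi, zero_add, pow_one, add_zero]
      have hp0 : p 0 = 0 := hg.1.1
      have hpn : p (0 + n) = v := by rw [zero_add]; exact hg.1.2.1
      have h2 := piece_le hx hs hsm hg (i := 0) (m := n) (by omega) (Q := {0})
        (by rw [hp0]; exact Finset.mem_singleton_self _) hw (k := dst 0 v) (q := LP 0 v)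
        (by rw [hp0, hpn]; exact LP_re h0 hv) le_rfl 0
      simp only [Nat.cast_zero, add_zero] at h2
      linarith
    · have hi : A.indicator (fun _ => ((2 * N + 1) ^ 2 : ℝ)) x = (2 * N + 1) ^ 2 :=
        indicator_of_mem (by simpa [hA] using hsm) _
      rw [hi, zero_add, pow_one]
      have hn' : (n : ℝ) ≤ (2 * N + 1) ^ 2 := by exact_mod_cast hn.le
      linarith
  obtain ⟨hi1, hm1⟩ := tR_mom (dst 0 v) (LP 0 v) 0
  obtain ⟨hi2, hm2⟩ := ZM_int {0} 0 ((2 * N + 1) ^ 2)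
  have hi3 : Integrable (A.indicator (fun _ => ((2 * N + 1) ^ 2 : ℝ))) PP :=
    (integrable_const _).indicator hAm
  have hi4 : Integrable (fun x : En => 25 * (tR x (dst 0 v) (LP 0 v) ^ (0 + 1) + 1)) PP :=
    (hi1.add (integrable_const 1)).const_mul 25
  have hi5 : Integrable (fun x : En => 25 * (tR x (dst 0 v) (LP 0 v) ^ (0 + 1) + 1) +
      ZM {0} 0 ((2 * N + 1) ^ 2) x) PP := hi4.add hi2
  refine (integral_mono_ae (yq_int _ _ _ fun y => ((GE (box N) 0 v y).card : ℝ))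
    (hi5.add hi3) h1).trans ?_
  have e1 : ∫ x, ((25 * (tR x (dst 0 v) (LP 0 v) ^ (0 + 1) + 1) + ZM {0} 0 ((2 * N + 1) ^ 2) x) +
        A.indicator (fun _ => ((2 * N + 1) ^ 2 : ℝ)) x) ∂PP =
      25 * (∫ x, tR x (dst 0 v) (LP 0 v) ^ (0 + 1) ∂PP + 1) +
        ∫ x, ZM {0} 0 ((2 * N + 1) ^ 2) x ∂PP + (2 * N + 1) ^ 2 * PP.real A := by
    rw [integral_add hi5 hi3, integral_add hi4 hi2, integral_const_mul,
      integral_add hi1 (integrable_const _), integral_const, probReal_univ,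
      integral_indicator_const _ hAm, smul_eq_mul, smul_eq_mul]
    ring
  refine (le_of_eq e1).trans ?_
  simp only [zero_add, pow_one, Nat.factorial_one, Nat.cast_one, mul_one, Finset.card_singleton,
    pow_zero] at hm1 hm2 ⊢
  linarith

/-! ### the number of translates -/

open Classical in
/-- number of translates of the edge `e` on the geodesic -/
noncomputable def CE (N : ℕ) (v : V) (B : Finset V) (e : Sym2 V) (y : Sym2 V → ℕ) : ℕ :=
  (B.filter fun z => sg (-z) e ∈ GE (box N) 0 v y).card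

theorem sg_mk (z a b : V) : sg z s(a, b) = s(z + a, z + b) := rfl

theorem sg_neg_inj {e : Sym2 V} {z z' : V} (h : sg (-z) e = sg (-z') e) : z = z' := by
  induction e using Sym2.ind with
  | _ a b =>
    rw [sg_mk, sg_mk] at h
    rcases Sym2.eq_iff.1 h with ⟨h1, -⟩ | ⟨h1, h2⟩
    · exact neg_injective (add_right_cancel h1)
    · have h3 : (-z).1 + a.1 = (-z').1 + b.1 := congrArg Prod.fst h1
      have h4 : (-z).1 + b.1 = (-z').1 + a.1 := congrArg Prod.fst h2
      have h5 : (-z).2 + a.2 = (-z').2 + b.2 := congrArg Prod.snd h1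
      have h6 : (-z).2 + b.2 = (-z').2 + a.2 := congrArg Prod.snd h2
      simp only [Prod.fst_neg, Prod.snd_neg] at h3 h4 h5 h6
      ext <;> omega

open Classical in
/-- the end points of the translates of an edge -/
noncomputable def QQ (a b : V) (B : Finset V) : Finset V :=
  (B.image fun z => -z + a) ∪ B.image fun z => -z + b

theorem QQ_card (a b : V) (B : Finset V) : (QQ a b B).card ≤ 2 * B.card := by
  classical
  unfold QQ
  refine (Finset.card_union_le _ _).trans ?_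
  have h1 := Finset.card_image_le (s := B) (f := fun z => -z + a)
  have h2 := Finset.card_image_le (s := B) (f := fun z => -z + b)
  omega

/-- a bound for the passage times between the points of `Q` -/
noncomputable def WQ (Q : Finset V) (t : ℝ) (x : En) : ℝ :=
  t + ∑ u ∈ Q, ∑ u' ∈ Q, tR x (dst u u') (LP u u') ^ (7 + 1) / t ^ 7

theorem WQ_ge {Q : Finset V} {t : ℝ} (ht : 0 < t) {x : En} (hx : ∀ e, 0 ≤ x e) {u u' : V}
    (hu : u ∈ Q) (hu' : u' ∈ Q) : tR x (dst u u') (LP u u') ≤ WQ Q t x := by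
  have h0 := tR_nonneg hx (dst u u') (LP u u')
  have h1 : tR x (dst u u') (LP u u') ≤ t + tR x (dst u u') (LP u u') ^ (7 + 1) / t ^ 7 := by
    set S := tR x (dst u u') (LP u u') with hS
    rcases le_or_gt S t with h | h
    · have : 0 ≤ S ^ (7 + 1) / t ^ 7 := by positivity
      linarith
    · have h2 : S ≤ S ^ (7 + 1) / t ^ 7 := by
        rw [le_div_iff₀ (by positivity), pow_succ, mul_comm]
        exact mul_le_mul_of_nonneg_right (pow_le_pow_left₀ ht.le h.le 7) h0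
      linarith
  refine h1.trans ?_
  unfold WQ
  refine add_le_add le_rfl ?_
  have h2 : ∀ a b : V, 0 ≤ tR x (dst a b) (LP a b) ^ (7 + 1) / t ^ 7 := fun a b =>
    div_nonneg (pow_nonneg (tR_nonneg hx _ _) _) (by positivity)
  refine le_trans ?_ (Finset.single_le_sum (f := fun u => ∑ u' ∈ Q,
    tR x (dst u u') (LP u u') ^ (7 + 1) / t ^ 7) (fun a _ => Finset.sum_nonneg fun b _ => h2 a b) hu)
  exact Finset.single_le_sum (f := fun u' => tR x (dst u u') (LP u u') ^ (7 + 1) / t ^ 7)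
    (fun b _ => h2 u b) hu'

theorem WQ_int (Q : Finset V) {t : ℝ} (ht : 0 < t) {D : ℕ} (hD : ∀ u ∈ Q, ∀ u' ∈ Q, dst u u' ≤ D) :
    Integrable (WQ Q t) PP ∧ ∫ x, WQ Q t x ∂PP ≤ t + (Q.card : ℝ) ^ 2 * (D ^ 8 * 40320 / t ^ 7) := by
  have h1 : ∀ u u', Integrable (fun x : En => tR x (dst u u') (LP u u') ^ (7 + 1) / t ^ 7) PP :=
    fun u u' => (tR_mom _ _ 7).1.div_const _
  have h2 : ∀ u ∈ Q, ∀ u' ∈ Q, ∫ x, tR x (dst u u') (LP u u') ^ (7 + 1) / t ^ 7 ∂PP ≤
      D ^ 8 * 40320 / t ^ 7 := by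
    intro u hu u' hu'
    rw [integral_div]
    refine div_le_div_of_nonneg_right ((tR_mom _ _ 7).2.trans ?_) (by positivity)
    have h3 : ((7 + 1).factorial : ℝ) = 40320 := by norm_num [Nat.factorial]
    rw [h3]
    have h4 : (dst u u' : ℝ) ≤ D := by exact_mod_cast hD u hu u' hu'
    gcongr
  unfold WQ
  have h3 : Integrable (fun x : En => ∑ u ∈ Q, ∑ u' ∈ Q,
      tR x (dst u u') (LP u u') ^ (7 + 1) / t ^ 7) PP :=
    integrable_finsetSum _ fun u _ => integrable_finsetSum _ fun u' _ => h1 u u'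
  refine ⟨(integrable_const t).add h3, ?_⟩
  rw [integral_add (integrable_const t) h3, integral_const, probReal_univ, one_smul,
    integral_finsetSum _ fun u _ => integrable_finsetSum _ fun u' _ => h1 u u']
  simp_rw [integral_finsetSum _ fun u' _ => h1 _ u']
  have h4 : ∑ u ∈ Q, ∑ u' ∈ Q, ∫ x, tR x (dst u u') (LP u u') ^ (7 + 1) / t ^ 7 ∂PP ≤
      ∑ u ∈ Q, ∑ u' ∈ Q, ((D : ℝ) ^ 8 * 40320 / t ^ 7) :=
    Finset.sum_le_sum fun u hu => Finset.sum_le_sum fun u' hu' => h2 u hu u' hu'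
  refine add_le_add le_rfl (h4.trans (le_of_eq ?_))
  rw [Finset.sum_const, Finset.sum_const, nsmul_eq_mul, nsmul_eq_mul]
  ring

theorem CE_le {N : ℕ} {v : V} {B : Finset V} {a b : V} {y : Sym2 V → ℕ} (h0 : box N 0)
    (hv : box N v) : CE N v B s(a, b) y = 0 ∨ (|b.1 - a.1| + |b.2 - a.2| = 1 ∧
      ∃ n p i m, IsGeo (box N) 0 v y n p ∧ i + m ≤ n ∧ p i ∈ QQ a b B ∧ p (i + m) ∈ QQ a b B ∧
        CE N v B s(a, b) y ≤ m + 1) := by
  classical
  obtain ⟨n, p, hg, -, -, hedge⟩ := GE_card h0 hv y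
  set T := B.filter fun z => sg (-z) s(a, b) ∈ GE (box N) 0 v y with hT
  have hCE : CE N v B s(a, b) y = T.card := by
    unfold CE
    rw [hT]
  rcases T.eq_empty_or_nonempty with hE | hne
  · left; rw [hCE, hE]; rfl
  · right
    have hch : ∀ z : V, ∃ i : ℕ, z ∈ T → i < n ∧ sg (-z) s(a, b) = s(p i, p (i + 1)) := by
      intro z
      by_cases hz : z ∈ T
      · obtain ⟨i, hi, he⟩ := hedge _ (Finset.mem_filter.1 hz).2
        exact ⟨i, fun _ => ⟨hi, he⟩⟩
      · exact ⟨0, fun h => absurd h hz⟩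
    choose f hf using hch
    have hinj : Set.InjOn f T := by
      intro z hz z' hz' hff
      have h1 := (hf z hz).2
      have h2 := (hf z' hz').2
      rw [hff, ← h2] at h1
      exact sg_neg_inj h1
    have hmem : ∀ z ∈ T, p (f z) ∈ QQ a b B := by
      intro z hz
      have h1 := (hf z hz).2
      have hzB := (Finset.mem_filter.1 hz).1
      rw [sg_mk] at h1
      unfold QQ
      rcases Sym2.eq_iff.1 h1 with ⟨h2, -⟩ | ⟨-, h2⟩
      · rw [← h2]
        exact Finset.mem_union_left _ (Finset.mem_image.2 ⟨z, hzB, rfl⟩)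
      · rw [← h2]
        exact Finset.mem_union_right _ (Finset.mem_image.2 ⟨z, hzB, rfl⟩)
    have himg : (T.image f).Nonempty := hne.image f
    obtain ⟨z1, hz1, h1⟩ := Finset.mem_image.1 (Finset.min'_mem _ himg)
    obtain ⟨z2, hz2, h2⟩ := Finset.mem_image.1 (Finset.max'_mem _ himg)
    set i0 := (T.image f).min' himg with hi0
    set j0 := (T.image f).max' himg with hj0
    have hij : i0 ≤ j0 := Finset.min'_le_max' _ himg
    have hcard : T.card ≤ j0 - i0 + 1 := by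
      rw [← Finset.card_image_of_injOn hinj]
      have h3 : T.image f ⊆ Finset.Icc i0 j0 := by
        intro k hk
        exact Finset.mem_Icc.2 ⟨Finset.min'_le _ _ hk, Finset.le_max' _ _ hk⟩
      have h4 := Finset.card_le_card h3
      rw [Nat.card_Icc] at h4
      omega
    constructor
    · have h3 := (hf z1 hz1).2
      have h4 := hg.1.2.2.1 (f z1) (hf z1 hz1).1
      rw [sg_mk] at h3
      rcases Sym2.eq_iff.1 h3 with ⟨h5, h6⟩ | ⟨h5, h6⟩
      · rw [← h5, ← h6] at h4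
        simp only [Prod.fst_add, Prod.snd_add, add_sub_add_left_eq_sub] at h4
        exact h4
      · rw [← h5, ← h6] at h4
        simp only [Prod.fst_add, Prod.snd_add, add_sub_add_left_eq_sub] at h4
        rw [abs_sub_comm, abs_sub_comm b.2]
        exact h4
    · refine ⟨n, p, i0, j0 - i0, hg, ?_, ?_, ?_, ?_⟩
      · have := (hf z2 hz2).1
        omega
      · rw [← h1]; exact hmem z1 hz1
      · have : i0 + (j0 - i0) = j0 := by omega
        rw [this, ← h2]; exact hmem z2 hz2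
      · rw [hCE]; exact hcard

theorem cnt_shift {N L : ℕ} {s : ℝ} (hs : ((2 * N + 1) ^ 2 : ℝ) ≤ s) {v : V} (h0 : box N 0)
    (hv : box N v) (B : Finset V) (a b : V) {t : ℝ} (ht : 0 < t) {D : ℕ}
    (hD : |b.1 - a.1| + |b.2 - a.2| = 1 → ∀ u ∈ QQ a b B, ∀ u' ∈ QQ a b B, dst u u' ≤ D)
    (m0 : ℕ) : ∫ x, (CE N v B s(a, b) (yq s (FN N) L x) : ℝ) ∂PP ≤
      25 * (t + (2 * B.card : ℝ) ^ 2 * (D ^ 8 * 40320 / t ^ 7) + 1) + m0 + 1 +
        (2 * B.card) * (1 / 2) ^ m0 + (2 * N + 1) ^ 2 * PP.real {x | ¬ Sm s (FN N) L x} := by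
  set A : Set En := {x | ¬ Sm s (FN N) L x} with hA
  have hAm : MeasurableSet A := Sm_meas _ _ _
  have hBnn : (0 : ℝ) ≤ B.card := Nat.cast_nonneg _
  have hPA : 0 ≤ (2 * (N : ℝ) + 1) ^ 2 * PP.real A := mul_nonneg (sq_nonneg _) measureReal_nonneg
  have hrhs : (0 : ℝ) ≤ 25 * (t + (2 * B.card : ℝ) ^ 2 * (D ^ 8 * 40320 / t ^ 7) + 1) + m0 + 1 +
        (2 * B.card) * (1 / 2) ^ m0 + (2 * N + 1) ^ 2 * PP.real A := by positivity
  by_cases hab : |b.1 - a.1| + |b.2 - a.2| = 1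
  swap
  · have h1 : ∀ x : En, (CE N v B s(a, b) (yq s (FN N) L x) : ℝ) = 0 := by
      intro x
      rcases CE_le (B := B) (a := a) (b := b) (y := yq s (FN N) L x) h0 hv with h | h
      · rw [h]; simp
      · exact absurd h.1 hab
    simp_rw [h1]
    rw [integral_zero]
    exact hrhs
  set Q := QQ a b B with hQ
  have hDQ := hD hab
  obtain ⟨hi1, hm1⟩ := WQ_int Q ht hDQ
  obtain ⟨hi2, hm2⟩ := ZM_int Q m0 ((2 * N + 1) ^ 2)
  have hi3 : Integrable (A.indicator (fun _ => ((2 * N + 1) ^ 2 : ℝ))) PP :=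
    (integrable_const _).indicator hAm
  have h1 : ∀ᵐ x ∂PP, (CE N v B s(a, b) (yq s (FN N) L x) : ℝ) ≤
      ((25 * (WQ Q t x + 1) + (m0 + 1)) + ZM Q m0 ((2 * N + 1) ^ 2) x) +
        A.indicator (fun _ => ((2 * N + 1) ^ 2 : ℝ)) x := by
    filter_upwards [ae_nonneg] with x hx
    have hZ := ZZ_le Q m0 ((2 * N + 1) ^ 2) x
    have hZ0 := ZZ_nonneg Q m0 ((2 * N + 1) ^ 2) x
    have hW0 : 0 ≤ WQ Q t x := by
      unfold WQ
      have : 0 ≤ ∑ u ∈ Q, ∑ u' ∈ Q, tR x (dst u u') (LP u u') ^ (7 + 1) / t ^ 7 :=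
        Finset.sum_nonneg fun u _ => Finset.sum_nonneg fun u' _ =>
          div_nonneg (pow_nonneg (tR_nonneg hx _ _) _) (by positivity)
      linarith
    have hI0 : 0 ≤ A.indicator (fun _ => ((2 * N + 1) ^ 2 : ℝ)) x :=
      indicator_nonneg (fun _ _ => by positivity) _
    have hm0 : (0 : ℝ) ≤ m0 := Nat.cast_nonneg _
    rcases CE_le (B := B) (a := a) (b := b) (y := yq s (FN N) L x) h0 hv with h | ⟨-, n, p, i, m,
      hg, him, hp1, hp2, hc⟩
    · rw [h, Nat.cast_zero]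
      linarith
    · have hc' : (CE N v B s(a, b) (yq s (FN N) L x) : ℝ) ≤ m + 1 := by exact_mod_cast hc
      by_cases hsm : Sm s (FN N) L x
      · have h2 := piece_le hx hs hsm hg him hp1 hW0 (k := dst (p i) (p (i + m)))
          (q := LP (p i) (p (i + m))) (LP_re (hg.1.2.2.2 i (by omega)) (hg.1.2.2.2 _ him))
          (WQ_ge ht hx hp1 hp2) m0
        linarith
      · have hi : A.indicator (fun _ => ((2 * N + 1) ^ 2 : ℝ)) x = (2 * N + 1) ^ 2 :=
          indicator_of_mem (by simpa [hA] using hsm) _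
        rw [hi]
        have h3 : m < (2 * N + 1) ^ 2 := sim_len (Re_sh hg.1 him)
          (fun c d hcd hd => hg.2.2 (i + c) (i + d) (by omega) (by omega))
        have hn' : (m : ℝ) ≤ (2 * N + 1) ^ 2 := by exact_mod_cast h3.le
        linarith
  have hi6 : Integrable (fun x : En => 25 * (WQ Q t x + 1)) PP :=
    (hi1.add (integrable_const 1)).const_mul 25
  have hi4 : Integrable (fun x : En => 25 * (WQ Q t x + 1) + ((m0 : ℝ) + 1)) PP :=
    hi6.add (integrable_const _)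
  have hi5 : Integrable (fun x : En => 25 * (WQ Q t x + 1) + ((m0 : ℝ) + 1) +
      ZM Q m0 ((2 * N + 1) ^ 2) x) PP := hi4.add hi2
  refine (integral_mono_ae (yq_int _ _ _ fun y => (CE N v B s(a, b) y : ℝ))
    (hi5.add hi3) h1).trans ?_
  have e1 : ∫ x, (((25 * (WQ Q t x + 1) + (m0 + 1)) + ZM Q m0 ((2 * N + 1) ^ 2) x) +
        A.indicator (fun _ => ((2 * N + 1) ^ 2 : ℝ)) x) ∂PP =
      25 * (∫ x, WQ Q t x ∂PP + 1) + (m0 + 1) +
        ∫ x, ZM Q m0 ((2 * N + 1) ^ 2) x ∂PP + (2 * N + 1) ^ 2 * PP.real A := by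
    rw [integral_add hi5 hi3, integral_add hi4 hi2,
      integral_add hi6 (integrable_const _), integral_const_mul,
      integral_add hi1 (integrable_const _), integral_const, integral_const, probReal_univ,
      integral_indicator_const _ hAm, smul_eq_mul, smul_eq_mul, smul_eq_mul]
    ring
  refine (le_of_eq e1).trans ?_
  have hQc : (Q.card : ℝ) ≤ 2 * B.card := by exact_mod_cast QQ_card a b B
  have hm1' : ∫ x, WQ Q t x ∂PP ≤ t + (2 * B.card : ℝ) ^ 2 * (D ^ 8 * 40320 / t ^ 7) := by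
    refine hm1.trans ?_
    gcongr
  have hm2' : ∫ x, ZM Q m0 ((2 * N + 1) ^ 2) x ∂PP ≤ (2 * B.card) * (1 / 2) ^ m0 := by
    refine hm2.trans ?_
    gcongr
  linarith

end Pool.Agent.J4.H89.BK
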