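import Mathlib

set_option autoImplicit false

/-!
# Entropy inequalities for products of two-point spaces (helper89)
-/

namespace Pool.Agent.J4.H89.BK

open Function

variable {ι : Type} [DecidableEq ι]

/-- average over the bit `i` -/
noncomputable def Av (p : ι → ℝ) (i : ι) (f : (ι → Bool) → ℝ) : (ι → Bool) → ℝ := fun b =>
  (1 - p i) * f (update b i false) + p i * f (update b i true)

/-- average over the bits in the list `l` -/
noncomputable def Ex (p : ι → ℝ) : List ι → ((ι → Bool) → ℝ) → (ι → Bool) → ℝ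
  | [], f => f
  | i :: l, f => Av p i (Ex p l f)

/-- discrete derivative -/
def Df (i : ι) (f : (ι → Bool) → ℝ) : (ι → Bool) → ℝ := fun b =>
  f (update b i true) - f (update b i false)

/-- the function does not depend on the bit `i` -/
def Ind (i : ι) (f : (ι → Bool) → ℝ) : Prop := ∀ b c, f (update b i c) = f b

variable {p : ι → ℝ}

theorem Av_add (i : ι) (f g : (ι → Bool) → ℝ) (b : ι → Bool) :
    Av p i (fun x => f x + g x) b = Av p i f b + Av p i g b := by
  unfold Av; ring

theorem Av_smul (i : ι) (c : ℝ) (f : (ι → Bool) → ℝ) (b : ι → Bool) :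
    Av p i (fun x => c * f x) b = c * Av p i f b := by
  unfold Av; ring

theorem Ex_add (l : List ι) (f g : (ι → Bool) → ℝ) :
    Ex p l (fun x => f x + g x) = fun b => Ex p l f b + Ex p l g b := by
  induction l with
  | nil => rfl
  | cons i l ih =>
    funext b
    show Av p i (Ex p l fun x => f x + g x) b = _
    rw [ih, Av_add]
    rfl

theorem Ex_smul (l : List ι) (c : ℝ) (f : (ι → Bool) → ℝ) :
    Ex p l (fun x => c * f x) = fun b => c * Ex p l f b := by
  induction l with
  | nil => rfl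
  | cons i l ih =>
    funext b
    show Av p i (Ex p l fun x => c * f x) b = _
    rw [ih, Av_smul]
    rfl

theorem Ex_const (l : List ι) (c : ℝ) (b : ι → Bool) : Ex p l (fun _ => c) b = c := by
  induction l generalizing b with
  | nil => rfl
  | cons i l ih =>
    show Av p i (Ex p l fun _ => c) b = _
    unfold Av
    rw [ih, ih]; ring

theorem Ex_sub (l : List ι) (f g : (ι → Bool) → ℝ) :
    Ex p l (fun x => f x - g x) = fun b => Ex p l f b - Ex p l g b := by
  have h1 : (fun x => f x - g x) = fun x => f x + (-1) * g x := by funext x; ring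
  rw [h1, Ex_add, Ex_smul]
  funext b; ring

theorem Ex_sum {κ : Type} (l : List ι) (s : Finset κ) (f : κ → (ι → Bool) → ℝ) (b : ι → Bool) :
    Ex p l (fun x => ∑ j ∈ s, f j x) b = ∑ j ∈ s, Ex p l (f j) b := by
  classical
  induction s using Finset.induction_on with
  | empty => simp only [Finset.sum_empty]; exact Ex_const l 0 b
  | insert a s ha ih =>
    simp only [Finset.sum_insert ha]
    rw [Ex_add, ← ih]

/-- weights between 0 and 1 -/
def Ok (p : ι → ℝ) : Prop := ∀ i, 0 < p i ∧ p i ≤ 1 / 2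

theorem Av_mono (hp : Ok p) (i : ι) {f g : (ι → Bool) → ℝ} (h : ∀ x, f x ≤ g x) (b : ι → Bool) :
    Av p i f b ≤ Av p i g b := by
  obtain ⟨h1, h2⟩ := hp i
  unfold Av
  exact add_le_add (mul_le_mul_of_nonneg_left (h _) (by linarith))
    (mul_le_mul_of_nonneg_left (h _) h1.le)

theorem Ex_mono (hp : Ok p) (l : List ι) {f g : (ι → Bool) → ℝ} (h : ∀ x, f x ≤ g x)
    (b : ι → Bool) : Ex p l f b ≤ Ex p l g b := by
  induction l generalizing b with
  | nil => exact h b
  | cons i l ih => exact Av_mono hp i (fun x => ih x) b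

theorem Ex_nonneg (hp : Ok p) (l : List ι) {f : (ι → Bool) → ℝ} (h : ∀ x, 0 ≤ f x)
    (b : ι → Bool) : 0 ≤ Ex p l f b := by
  have := Ex_mono hp l (f := fun _ => 0) h b
  rwa [Ex_const] at this

theorem Av_comm (i j : ι) (f : (ι → Bool) → ℝ) : Av p i (Av p j f) = Av p j (Av p i f) := by
  funext b
  by_cases hij : i = j
  · subst hij; rfl
  · have h : ∀ c d : Bool, update (update b i c) j d = update (update b j d) i c :=
      fun c d => update_comm hij c d b
    unfold Av
    rw [h, h, h, h]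
    ring

theorem Ex_Av (l : List ι) (i : ι) (f : (ι → Bool) → ℝ) :
    Ex p l (Av p i f) = Av p i (Ex p l f) := by
  induction l with
  | nil => rfl
  | cons j l ih =>
    show Av p j (Ex p l (Av p i f)) = Av p i (Av p j (Ex p l f))
    rw [ih, Av_comm]

theorem Av_ind (i : ι) (f : (ι → Bool) → ℝ) : Ind i (Av p i f) := by
  intro b c
  unfold Av
  rw [update_idem, update_idem]

theorem Ind.av_eq {i : ι} {f : (ι → Bool) → ℝ} (h : Ind i f) : Av p i f = f := by
  funext b
  unfold Av
  rw [h, h]; ring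

theorem Ind.av_mul {i : ι} {f : (ι → Bool) → ℝ} (h : Ind i f) (g : (ι → Bool) → ℝ) :
    Av p i (fun x => f x * g x) = fun b => f b * Av p i g b := by
  funext b
  unfold Av
  beta_reduce
  rw [h, h]; ring

theorem Ind.av {i j : ι} {f : (ι → Bool) → ℝ} (h : Ind i f) : Ind i (Av p j f) := by
  intro b c
  by_cases hij : i = j
  · subst hij; exact Av_ind i f b c
  · unfold Av
    rw [update_comm hij, update_comm hij, h, h]

theorem Ind.ex {i : ι} {f : (ι → Bool) → ℝ} (h : Ind i f) (l : List ι) : Ind i (Ex p l f) := by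
  induction l with
  | nil => exact h
  | cons j l ih => exact ih.av

theorem Ex_ind {i : ι} {l : List ι} (hi : i ∈ l) (f : (ι → Bool) → ℝ) : Ind i (Ex p l f) := by
  induction l with
  | nil => exact absurd hi List.not_mem_nil
  | cons j l ih =>
    rcases List.mem_cons.1 hi with h | h
    · subst h; exact Av_ind _ _
    · exact (ih h).av

theorem Df_ind (i : ι) (f : (ι → Bool) → ℝ) : Ind i (Df i f) := by
  intro b c
  unfold Df
  rw [update_idem, update_idem]

theorem Df_av (i j : ι) (f : (ι → Bool) → ℝ) (hij : i ≠ j) :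
    Df i (Av p j f) = Av p j (Df i f) := by
  funext b
  unfold Df Av
  rw [update_comm hij, update_comm hij, update_comm hij, update_comm hij]
  ring

theorem Ind.df {i j : ι} {f : (ι → Bool) → ℝ} (h : Ind i f) (hij : i ≠ j) : Ind i (Df j f) := by
  intro b c
  unfold Df
  rw [update_comm hij, update_comm hij, h, h]

/-- averages at an updated point -/
theorem Ex_upd {i : ι} {l : List ι} (hi : i ∉ l) (f : (ι → Bool) → ℝ) (b : ι → Bool) (c : Bool) :
    Ex p l f (update b i c) = Ex p l (fun x => f (update x i c)) b := by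
  induction l generalizing b with
  | nil => rfl
  | cons j l ih =>
    rw [List.mem_cons, not_or] at hi
    show Av p j (Ex p l f) _ = Av p j (Ex p l _) b
    unfold Av
    rw [update_comm hi.1, update_comm hi.1, ih hi.2, ih hi.2]

/-- Cauchy-Schwarz -/
theorem Ex_cs (hp : Ok p) (l : List ι) (f g : (ι → Bool) → ℝ) (b : ι → Bool) :
    Ex p l (fun x => f x * g x) b ^ 2 ≤
      Ex p l (fun x => f x ^ 2) b * Ex p l (fun x => g x ^ 2) b := by
  have h : ∀ t : ℝ, 0 ≤ Ex p l (fun x => g x ^ 2) b * (t * t) +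
      (2 * Ex p l (fun x => f x * g x) b) * t + Ex p l (fun x => f x ^ 2) b := by
    intro t
    have h1 := Ex_nonneg hp l (f := fun x => (f x + t * g x) ^ 2) (fun x => sq_nonneg _) b
    have h2 : (fun x => (f x + t * g x) ^ 2) = fun x => (f x ^ 2 + (2 * t) * (f x * g x)) +
        (t * t) * (g x ^ 2) := by
      funext x; ring
    rw [h2, Ex_add, Ex_add, Ex_smul, Ex_smul] at h1
    simp only at h1
    linarith
  have h3 := discrim_le_zero h
  unfold discrim at h3
  nlinarith

theorem Ex_mink (hp : Ok p) (l : List ι) (f g : (ι → Bool) → ℝ) (b : ι → Bool) :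
    (Real.sqrt (Ex p l (fun x => f x ^ 2) b) - Real.sqrt (Ex p l (fun x => g x ^ 2) b)) ^ 2 ≤
      Ex p l (fun x => (f x - g x) ^ 2) b := by
  set A := Ex p l (fun x => f x ^ 2) b with hA
  set B := Ex p l (fun x => g x ^ 2) b with hB
  have hA0 : 0 ≤ A := Ex_nonneg hp l (fun x => sq_nonneg _) b
  have hB0 : 0 ≤ B := Ex_nonneg hp l (fun x => sq_nonneg _) b
  have h1 := Ex_cs hp l f g b
  have h2 : (fun x => (f x - g x) ^ 2) = fun x => (f x ^ 2 + (-2) * (f x * g x)) + g x ^ 2 := by
    funext x; ring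
  rw [h2, Ex_add, Ex_add, Ex_smul]
  simp only
  have h3 : Ex p l (fun x => f x * g x) b ≤ Real.sqrt A * Real.sqrt B := by
    rw [← Real.sqrt_mul hA0]
    exact (le_abs_self _).trans (Real.abs_le_sqrt h1)
  have h4 : (Real.sqrt A - Real.sqrt B) ^ 2 = A + B - 2 * (Real.sqrt A * Real.sqrt B) := by
    rw [sub_sq, Real.sq_sqrt hA0, Real.sq_sqrt hB0]; ring
  rw [h4]
  linarith

/-! ### entropy on two points -/

/-- `x log x` -/
noncomputable def phi (x : ℝ) : ℝ := x * Real.log x

theorem phi_tan {T t : ℝ} (hT : 0 ≤ T) (ht : 0 < t) : T * Real.log t + T - t ≤ phi T := by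
  unfold phi
  rcases hT.eq_or_lt with rfl | hT
  · simp; exact ht.le
  · have h := Real.log_le_sub_one_of_pos (div_pos ht hT)
    rw [Real.log_div ht.ne' hT.ne'] at h
    have h2 := mul_le_mul_of_nonneg_left h hT.le
    have h3 : T * (t / T - 1) = t - T := by field_simp
    rw [h3] at h2
    nlinarith

theorem pt_bound {s m c : ℝ} (hs : 0 ≤ s) (hm : 0 < m) (hc : 0 ≤ c)
    (hl : s ≤ m * Real.exp c) :
    phi (s ^ 2) - s ^ 2 * Real.log (m ^ 2) - s ^ 2 + m ^ 2 ≤ (3 + 2 * c) * (s - m) ^ 2 := by
  unfold phi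
  rcases hs.eq_or_lt with rfl | hs
  · have : 0 ≤ c * m ^ 2 := by positivity
    simp
    nlinarith
  · have hsm : 0 < s / m := div_pos hs hm
    have e1 : s ^ 2 * Real.log (s ^ 2) - s ^ 2 * Real.log (m ^ 2) = 2 * s ^ 2 * Real.log (s / m) := by
      rw [Real.log_pow, Real.log_pow, Real.log_div hs.ne' hm.ne']
      push_cast; ring
    rw [e1]
    have h1 : Real.log (s / m) ≤ (s - m) / m := by
      have := Real.log_le_sub_one_of_pos hsm
      rw [sub_div, div_self hm.ne']; exact this
    rcases le_or_gt s m with h | h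
    · have h2 : 2 * s ^ 2 * Real.log (s / m) ≤ 2 * s ^ 2 * ((s - m) / m) :=
        mul_le_mul_of_nonneg_left h1 (by positivity)
      have h3 : 2 * s ^ 2 * ((s - m) / m) - s ^ 2 + m ^ 2 = (s - m) ^ 2 * ((2 * s + m) / m) := by
        field_simp; ring
      have h4 : (2 * s + m) / m ≤ 3 := by rw [div_le_iff₀ hm]; linarith
      have h5 : (s - m) ^ 2 * ((2 * s + m) / m) ≤ (s - m) ^ 2 * 3 :=
        mul_le_mul_of_nonneg_left h4 (sq_nonneg _)
      have h6 : 0 ≤ c * (s - m) ^ 2 := by positivity
      linarith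
    · have h7 : Real.log (s / m) ≤ c := by
        rw [Real.log_le_iff_le_exp hsm, div_le_iff₀ hm]
        linarith
      have h2 : 2 * (m * (2 * s - m)) * Real.log (s / m) ≤ 2 * (m * (2 * s - m)) * ((s - m) / m) :=
        mul_le_mul_of_nonneg_left h1 (by nlinarith)
      have h3 : 2 * (m * (2 * s - m)) * ((s - m) / m) = 2 * (2 * s - m) * (s - m) := by
        field_simp
      have h4 : 2 * (s - m) ^ 2 * Real.log (s / m) ≤ 2 * (s - m) ^ 2 * c :=
        mul_le_mul_of_nonneg_left h7 (by positivity)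
      nlinarith

/-- the constant of the two-point inequality -/
noncomputable def kap (q : ℝ) : ℝ := (3 + 2 * Real.log (1 / q)) * (q * (1 - q))

theorem two_pt {q a b : ℝ} (h0 : 0 < q) (h1 : q ≤ 1 / 2) :
    (1 - q) * phi (a ^ 2) + q * phi (b ^ 2) - phi ((1 - q) * a ^ 2 + q * b ^ 2) ≤
      kap q * (b - a) ^ 2 := by
  have hlog : 0 ≤ Real.log (1 / q) := Real.log_nonneg (by
    rw [le_div_iff₀ h0]; linarith)
  have hexp : Real.exp (Real.log (1 / q)) = 1 / q := Real.exp_log (by positivity)
  have hk : 0 ≤ (3 + 2 * Real.log (1 / q)) * (q * (1 - q)) := by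
    have : 0 ≤ 1 - q := by linarith
    positivity
  -- reduce to nonnegative numbers
  suffices H : ∀ a b : ℝ, 0 ≤ a → 0 ≤ b →
      (1 - q) * phi (a ^ 2) + q * phi (b ^ 2) - phi ((1 - q) * a ^ 2 + q * b ^ 2) ≤
      kap q * (b - a) ^ 2 by
    have h2 := H |a| |b| (abs_nonneg _) (abs_nonneg _)
    rw [sq_abs, sq_abs] at h2
    refine h2.trans (mul_le_mul_of_nonneg_left ?_ hk)
    rw [sq_le_sq]
    exact abs_abs_sub_abs_le_abs_sub b a
  intro a b ha hb
  set m := (1 - q) * a + q * b with hm
  have hm0 : 0 ≤ m := by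
    have : 0 ≤ 1 - q := by linarith
    positivity
  rcases hm0.eq_or_lt with h | hmp
  · have h2 : (1 - q) * a = 0 ∧ q * b = 0 := by
      have e1 : 0 ≤ (1 - q) * a := mul_nonneg (by linarith) ha
      have e2 : 0 ≤ q * b := mul_nonneg h0.le hb
      constructor <;> linarith
    have ha0 : a = 0 := by
      rcases mul_eq_zero.1 h2.1 with h3 | h3
      · linarith
      · exact h3
    have hb0 : b = 0 := by
      rcases mul_eq_zero.1 h2.2 with h3 | h3
      · linarith
      · exact h3
    rw [ha0, hb0]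
    simp [phi]
  · have hT : 0 ≤ (1 - q) * a ^ 2 + q * b ^ 2 := by
      have : 0 ≤ 1 - q := by linarith
      positivity
    have h2 := phi_tan hT (by positivity : 0 < m ^ 2)
    have ha2 := pt_bound (c := Real.log (1 / q)) ha hmp hlog (by
      rw [hexp, mul_one_div, le_div_iff₀ h0, hm]
      nlinarith)
    have hb2 := pt_bound (c := Real.log (1 / q)) hb hmp hlog (by
      rw [hexp, mul_one_div, le_div_iff₀ h0, hm]
      nlinarith)
    have h3 := mul_le_mul_of_nonneg_left ha2 (by linarith : 0 ≤ 1 - q)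
    have h4 := mul_le_mul_of_nonneg_left hb2 h0.le
    have h5 : (1 - q) * (a - m) ^ 2 + q * (b - m) ^ 2 = q * (1 - q) * (b - a) ^ 2 := by
      rw [hm]; ring
    unfold kap
    have h6 : (3 + 2 * Real.log (1 / q)) * (q * (1 - q)) * (b - a) ^ 2 =
        (1 - q) * ((3 + 2 * Real.log (1 / q)) * (a - m) ^ 2) +
          q * ((3 + 2 * Real.log (1 / q)) * (b - m) ^ 2) := by
      rw [mul_assoc, ← h5]; ring
    rw [h6]
    linarith

end Pool.Agent.J4.H89.BK
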