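import Pool.Agent.J4.H89.BK.FS

set_option autoImplicit false

/-!
# The inequality of Falik and Samorodnitsky for products of two-point spaces (helper89)
-/

namespace Pool.Agent.J4.H89.BK

open Function

variable {ι : Type} [DecidableEq ι] {p : ι → ℝ}

theorem kap_nonneg {q : ℝ} (h0 : 0 < q) (h1 : q ≤ 1 / 2) : 0 ≤ kap q := by
  have hlog : 0 ≤ Real.log (1 / q) := Real.log_nonneg (by
    rw [le_div_iff₀ h0]; linarith)
  have : 0 ≤ 1 - q := by linarith
  unfold kap
  positivity

theorem Av_listsum (i : ι) (l : List ι) (c : ι → ℝ) (F : ι → (ι → Bool) → ℝ) (b : ι → Bool) :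
    Av p i (fun x => (l.map fun j => c j * F j x).sum) b =
      (l.map fun j => c j * Av p i (F j) b).sum := by
  induction l with
  | nil => simp [Av]
  | cons j l ih =>
    simp only [List.map_cons, List.sum_cons]
    rw [Av_add, Av_smul, ih]

theorem listsum_le {κ : Type} (l : List κ) {f g : κ → ℝ} (h : ∀ j ∈ l, f j ≤ g j) :
    (l.map f).sum ≤ (l.map g).sum := List.sum_le_sum h

/-- the logarithmic Sobolev inequality -/
theorem lsi (hp : Ok p) (l : List ι) (hl : l.Nodup) (h : (ι → Bool) → ℝ) (b : ι → Bool) :
    Ex p l (fun x => phi (h x ^ 2)) b ≤ phi (Ex p l (fun x => h x ^ 2) b) +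
      (l.map fun i => kap (p i) * Ex p l (fun x => Df i h x ^ 2) b).sum := by
  induction l generalizing b with
  | nil => simp [Ex]
  | cons i l ih =>
    obtain ⟨hi, hl'⟩ := List.nodup_cons.1 hl
    obtain ⟨hp0, hp1⟩ := hp i
    have hq : 0 ≤ 1 - p i := by linarith
    set S : (ι → Bool) → ℝ := fun x =>
      (l.map fun j => kap (p j) * Ex p l (fun y => Df j h y ^ 2) x).sum with hS
    set Q : (ι → Bool) → ℝ := Ex p l (fun x => h x ^ 2) with hQ
    have h1 : Ex p (i :: l) (fun x => phi (h x ^ 2)) b ≤ Av p i (fun x => phi (Q x) + S x) b :=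
      Av_mono hp i (fun x => ih hl' x) b
    rw [Av_add] at h1
    have h2 : Av p i S b = (l.map fun j => kap (p j) * Ex p (i :: l) (fun y => Df j h y ^ 2) b).sum := by
      rw [hS, Av_listsum]
      rfl
    have hQ0 : ∀ x, 0 ≤ Q x := fun x => Ex_nonneg hp l (fun y => sq_nonneg _) x
    have h3 : Av p i (fun x => phi (Q x)) b ≤ phi (Av p i Q b) +
        kap (p i) * Ex p (i :: l) (fun x => Df i h x ^ 2) b := by
      have h4 := two_pt (q := p i) (a := Real.sqrt (Q (update b i false)))
        (b := Real.sqrt (Q (update b i true))) hp0 hp1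
      rw [Real.sq_sqrt (hQ0 _), Real.sq_sqrt (hQ0 _)] at h4
      have h5 : (Real.sqrt (Q (update b i true)) - Real.sqrt (Q (update b i false))) ^ 2 ≤
          Ex p l (fun x => Df i h x ^ 2) b := by
        have h6 := Ex_mink hp l (fun x => h (update x i true)) (fun x => h (update x i false)) b
        have e1 : Q (update b i true) = Ex p l (fun x => h (update x i true) ^ 2) b := by
          rw [hQ, Ex_upd hi]
        have e2 : Q (update b i false) = Ex p l (fun x => h (update x i false) ^ 2) b := by
          rw [hQ, Ex_upd hi]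
        rw [e1, e2]
        exact h6
      have h7 : Ex p (i :: l) (fun x => Df i h x ^ 2) b = Ex p l (fun x => Df i h x ^ 2) b := by
        have h8 : Ind i (fun x => Df i h x ^ 2) := fun x c => by
          show Df i h (update x i c) ^ 2 = Df i h x ^ 2
          rw [Df_ind i h x c]
        show Av p i (Ex p l fun x => Df i h x ^ 2) b = _
        rw [(h8.ex l).av_eq]
      rw [h7]
      have h9 := mul_le_mul_of_nonneg_left h5 (kap_nonneg hp0 hp1)
      unfold Av
      linarith
    have h10 : Av p i Q b = Ex p (i :: l) (fun x => h x ^ 2) b := rfl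
    rw [h10] at h3
    simp only [List.map_cons, List.sum_cons]
    rw [h2] at h1
    linarith

/-- the lower bound for the entropy -/
theorem ent_low (hp : Ok p) (l : List ι) (h : (ι → Bool) → ℝ) (b : ι → Bool) (τ : ℝ) :
    τ * Ex p l (fun x => h x ^ 2) b ≤ Ex p l (fun x => phi (h x ^ 2)) b -
      phi (Ex p l (fun x => h x ^ 2) b) + Real.exp (τ - 1) * Ex p l (fun x => |h x|) b ^ 2 := by
  set B := Ex p l (fun x => h x ^ 2) b with hB
  set D := Ex p l (fun x => |h x|) b with hD
  have hB0 : 0 ≤ B := Ex_nonneg hp l (fun x => sq_nonneg _) b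
  have hD0 : 0 ≤ D := Ex_nonneg hp l (fun x => abs_nonneg _) b
  have key : ∀ c : ℝ, 0 < c → -2 * D / c + 2 * B - 2 * B * Real.log c ≤
      Ex p l (fun x => phi (h x ^ 2)) b := by
    intro c hc
    have h1 : ∀ x, (-2 / c) * |h x| + (2 - 2 * Real.log c) * h x ^ 2 ≤ phi (h x ^ 2) := by
      intro x
      have e : h x ^ 2 = |h x| ^ 2 := (sq_abs _).symm
      rw [e]
      rcases (abs_nonneg (h x)).eq_or_lt with h2 | h2
      · rw [← h2]; simp [phi]
      · set u := |h x|
        have h3 : Real.log (1 / (u * c)) ≤ 1 / (u * c) - 1 :=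
          Real.log_le_sub_one_of_pos (by positivity)
        rw [one_div, Real.log_inv, Real.log_mul h2.ne' hc.ne'] at h3
        unfold phi
        rw [Real.log_pow]
        push_cast
        have h4 : u ^ 2 * (u * c)⁻¹ = u / c := by field_simp
        have h5 := mul_le_mul_of_nonneg_left h3 (by positivity : (0 : ℝ) ≤ u ^ 2)
        have h6 : -2 / c * u = -2 * (u / c) := by ring
        rw [h6]
        nlinarith
    have h2 := Ex_mono hp l h1 b
    rw [Ex_add, Ex_smul, Ex_smul] at h2
    simp only at h2
    refine le_trans (le_of_eq ?_) h2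
    rw [hB, hD]; ring
  rcases hB0.eq_or_lt with hz | hpos
  · rw [← hz]
    have h1 : 0 ≤ Ex p l (fun x => phi (h x ^ 2)) b := by
      by_contra hcon
      rw [not_le] at hcon
      have h2 : 0 < (2 * D + 1) / (-Ex p l (fun x => phi (h x ^ 2)) b) := by
        apply div_pos <;> linarith
      have h3 := key _ h2
      rw [← hz] at h3
      have h4 : -2 * D / ((2 * D + 1) / (-Ex p l (fun x => phi (h x ^ 2)) b)) =
          (2 * D / (2 * D + 1)) * Ex p l (fun x => phi (h x ^ 2)) b := by
        field_simp
      rw [h4] at h3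
      have h5 : 2 * D / (2 * D + 1) < 1 := by
        rw [div_lt_one (by linarith)]; linarith
      nlinarith
    have h2 : 0 ≤ Real.exp (τ - 1) * D ^ 2 := by positivity
    simp only [mul_zero, phi, zero_mul, sub_zero]
    have h3 : Ex p l (fun x => phi (h x ^ 2)) b = Ex p l (fun x => h x ^ 2 * Real.log (h x ^ 2)) b :=
      rfl
    rw [← h3]
    linarith
  · set c := Real.exp ((1 - τ) / 2) / Real.sqrt B with hc
    have hs : 0 < Real.sqrt B := Real.sqrt_pos.2 hpos
    have hc0 : 0 < c := by positivity
    have h1 := key c hc0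
    have h2 : Real.log c = (1 - τ) / 2 - Real.log B / 2 := by
      rw [hc, Real.log_div (Real.exp_pos _).ne' hs.ne', Real.log_exp, Real.log_sqrt hB0]
    rw [h2] at h1
    set K := Real.exp ((1 - τ) / 2) with hK
    have hK0 : 0 < K := Real.exp_pos _
    have h3 : Real.exp (τ - 1) = 1 / K ^ 2 := by
      rw [hK, ← Real.exp_nat_mul, one_div, ← Real.exp_neg]
      congr 1; push_cast; ring
    have h4 : -2 * D / c = -2 * (Real.sqrt B * (D / K)) := by
      rw [hc]; field_simp
    have h5 : 2 * (Real.sqrt B * (D / K)) ≤ B + (D / K) ^ 2 := by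
      have := sq_nonneg (Real.sqrt B - D / K)
      rw [sub_sq, Real.sq_sqrt hB0] at this
      linarith
    rw [h4] at h1
    rw [h3]
    have h6 : 1 / K ^ 2 * D ^ 2 = (D / K) ^ 2 := by field_simp
    rw [h6]
    unfold phi
    have h7 : Ex p l (fun x => h x ^ 2 * Real.log (h x ^ 2)) b = Ex p l (fun x => phi (h x ^ 2)) b :=
      rfl
    rw [h7]
    nlinarith

theorem abs_Av (hp : Ok p) (i : ι) (f : (ι → Bool) → ℝ) (b : ι → Bool) :
    |Av p i f b| ≤ Av p i (fun x => |f x|) b := by
  obtain ⟨h0, h1⟩ := hp i
  unfold Av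
  refine (abs_add_le _ _).trans ?_
  rw [abs_mul, abs_mul, abs_of_nonneg (by linarith : 0 ≤ 1 - p i), abs_of_pos h0]

/-- the difference to the average -/
theorem diff_false (i : ι) (f : (ι → Bool) → ℝ) (b : ι → Bool) :
    (fun x => f x - Av p i f x) (update b i false) = -(p i * Df i f b) := by
  show f (update b i false) - Av p i f (update b i false) = _
  rw [Av_ind]
  unfold Av Df
  ring

theorem diff_true (i : ι) (f : (ι → Bool) → ℝ) (b : ι → Bool) :
    (fun x => f x - Av p i f x) (update b i true) = (1 - p i) * Df i f b := by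
  show f (update b i true) - Av p i f (update b i true) = _
  rw [Av_ind]
  unfold Av Df
  ring

/-- the inequality of Falik and Samorodnitsky -/
theorem fs (hp : Ok p) (l : List ι) (hl : l.Nodup) (f : (ι → Bool) → ℝ) (b : ι → Bool) (τ : ℝ) :
    τ * (Ex p l (fun x => f x ^ 2) b - Ex p l f b ^ 2) ≤
      Real.exp (τ - 1) *
        (l.map fun i => (2 * (p i * (1 - p i)) * Ex p l (fun x => |Df i f x|) b) ^ 2).sum +
      (l.map fun i => kap (p i) * Ex p l (fun x => Df i f x ^ 2) b).sum := by
  induction l generalizing f b with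
  | nil => simp [Ex]
  | cons i l ih =>
    obtain ⟨hi, hl'⟩ := List.nodup_cons.1 hl
    obtain ⟨hp0, hp1⟩ := hp i
    have hq : 0 ≤ 1 - p i := by linarith
    set g : (ι → Bool) → ℝ := Av p i f with hg
    set h : (ι → Bool) → ℝ := fun x => f x - Av p i f x with hh
    have hgi : Ind i g := Av_ind i f
    have hAh : Av p i h = fun _ => 0 := by
      funext x
      unfold Av
      rw [hh, diff_false, diff_true]; ring
    have hEx : ∀ F : (ι → Bool) → ℝ, Ex p (i :: l) F = Ex p l (Av p i F) := fun F => (Ex_Av l i F).symm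
    -- second moments
    have e1 : Av p i (fun x => f x ^ 2) = fun x => g x ^ 2 + Av p i (fun y => h y ^ 2) x := by
      funext x
      rw [hg]
      unfold Av
      rw [hh]
      simp only [diff_false, diff_true]
      unfold Df
      ring
    have e2 : Ex p (i :: l) (fun x => f x ^ 2) b =
        Ex p l (fun x => g x ^ 2) b + Ex p (i :: l) (fun x => h x ^ 2) b := by
      rw [hEx, hEx, e1, Ex_add]
    have e3 : Ex p (i :: l) f b = Ex p l g b := by rw [hEx]
    -- the last step
    have h1 := ent_low hp (i :: l) h b τ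
    have h2 := lsi hp (i :: l) hl h b
    have h3 := ih hl' g b
    -- first moments
    have e4 : Ex p (i :: l) (fun x => |h x|) b =
        2 * (p i * (1 - p i)) * Ex p (i :: l) (fun x => |Df i f x|) b := by
      rw [hEx, hEx]
      have e5 : Av p i (fun x => |h x|) = fun x => 2 * (p i * (1 - p i)) * |Df i f x| := by
        funext x
        unfold Av
        rw [hh]
        simp only [diff_false, diff_true, abs_neg, abs_mul, abs_of_pos hp0, abs_of_nonneg hq]
        ring
      have e6 : Av p i (fun x => |Df i f x|) = fun x => |Df i f x| :=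
        Ind.av_eq (fun x c => by
          show |Df i f (update x i c)| = |Df i f x|
          rw [Df_ind i f x c])
      rw [e5, e6, Ex_smul]
    have h4 : (l.map fun j => (2 * (p j * (1 - p j)) * Ex p l (fun x => |Df j g x|) b) ^ 2).sum ≤
        (l.map fun j => (2 * (p j * (1 - p j)) *
          Ex p (i :: l) (fun x => |Df j f x|) b) ^ 2).sum := by
      refine listsum_le l fun j hj => ?_
      have hij : j ≠ i := fun h => hi (h ▸ hj)
      obtain ⟨hj0, hj1⟩ := hp j
      have hjq : 0 ≤ 1 - p j := by linarith
      have h5 : Ex p l (fun x => |Df j g x|) b ≤ Ex p (i :: l) (fun x => |Df j f x|) b := by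
        rw [hEx]
        refine Ex_mono hp l (fun x => ?_) b
        rw [hg, Df_av j i f hij]
        exact abs_Av hp i _ x
      have h6 : 0 ≤ Ex p l (fun x => |Df j g x|) b := Ex_nonneg hp l (fun x => abs_nonneg _) b
      have h7 : 0 ≤ 2 * (p j * (1 - p j)) := by positivity
      exact pow_le_pow_left₀ (mul_nonneg h7 h6) (mul_le_mul_of_nonneg_left h5 h7) 2
    -- energies
    have h5 : (l.map fun j => kap (p j) * Ex p l (fun x => Df j g x ^ 2) b).sum +
        (l.map fun j => kap (p j) * Ex p (i :: l) (fun x => Df j h x ^ 2) b).sum =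
        (l.map fun j => kap (p j) * Ex p (i :: l) (fun x => Df j f x ^ 2) b).sum := by
      rw [← List.sum_map_add]
      congr 1
      refine List.map_congr_left fun j hj => ?_
      have hij : j ≠ i := fun h => hi (h ▸ hj)
      rw [← mul_add]
      congr 1
      rw [hEx, hEx]
      have e7 : Av p i (fun x => Df j f x ^ 2) =
          fun x => Df j g x ^ 2 + Av p i (fun y => Df j h y ^ 2) x := by
        funext x
        have e8 : ∀ y, Df j f y = Df j g y + Df j h y := by
          intro y
          rw [hh, hg]
          unfold Df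
          ring
        have e9 : Av p i (Df j h) x = 0 := by
          rw [← Df_av j i h hij, hAh]
          simp [Df]
        have e10 : Ind i (Df j g) := hgi.df hij.symm
        have e11 := congrFun (e10.av_mul (p := p) (Df j h)) x
        rw [e9, mul_zero] at e11
        have e12 : (fun y => Df j f y ^ 2) = fun y => (Df j g y ^ 2 + 2 * (Df j g y * Df j h y)) +
            Df j h y ^ 2 := by
          funext y; rw [e8]; ring
        have e13 : Ind i (fun y => Df j g y ^ 2) := fun y c => by
          show Df j g (update y i c) ^ 2 = Df j g y ^ 2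
          rw [e10]
        rw [e12, Av_add, Av_add, Av_smul, e11, e13.av_eq]
        ring
      rw [e7, Ex_add]
    have e14 : Ex p (i :: l) (fun x => Df i h x ^ 2) b = Ex p (i :: l) (fun x => Df i f x ^ 2) b := by
      have : Df i h = Df i f := by
        funext x
        unfold Df
        rw [hh]
        simp only [diff_false, diff_true]
        unfold Df
        ring
      rw [this]
    have h8 := mul_le_mul_of_nonneg_left h4 (Real.exp_pos (τ - 1)).le
    simp only [List.map_cons, List.sum_cons] at h2 ⊢
    rw [e2, e3, ← e14, ← e4]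
    rw [mul_add]
    have e15 : τ * (Ex p l (fun x => g x ^ 2) b + Ex p (i :: l) (fun x => h x ^ 2) b -
        Ex p l g b ^ 2) = τ * (Ex p l (fun x => g x ^ 2) b - Ex p l g b ^ 2) +
        τ * Ex p (i :: l) (fun x => h x ^ 2) b := by ring
    rw [e15]
    linarith

/-- Harris inequality -/
theorem Av_mon (hp : Ok p) (i : ι) {f : (ι → Bool) → ℝ} (hf : Monotone f) : Monotone (Av p i f) := by
  obtain ⟨h0, h1⟩ := hp i
  intro x y hxy
  have h2 : ∀ c : Bool, update x i c ≤ update y i c := fun c => update_le_update_iff.2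
    ⟨le_rfl, fun j _ => hxy j⟩
  unfold Av
  exact add_le_add (mul_le_mul_of_nonneg_left (hf (h2 _)) (by linarith))
    (mul_le_mul_of_nonneg_left (hf (h2 _)) h0.le)

theorem Ex_mon (hp : Ok p) (l : List ι) {f : (ι → Bool) → ℝ} (hf : Monotone f) :
    Monotone (Ex p l f) := by
  induction l with
  | nil => exact hf
  | cons i l ih => exact Av_mon hp i ih

theorem harris (hp : Ok p) (l : List ι) {f g : (ι → Bool) → ℝ} (hf : Monotone f) (hg : Monotone g)
    (b : ι → Bool) : Ex p l f b * Ex p l g b ≤ Ex p l (fun x => f x * g x) b := by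
  induction l generalizing b with
  | nil => exact le_rfl
  | cons i l ih =>
    obtain ⟨h0, h1⟩ := hp i
    have h2 : Av p i (fun x => Ex p l f x * Ex p l g x) b ≤ Ex p (i :: l) (fun x => f x * g x) b :=
      Av_mono hp i (fun x => ih x) b
    refine le_trans ?_ h2
    show Av p i (Ex p l f) b * Av p i (Ex p l g) b ≤ _
    have h3 : update b i false ≤ update b i true := update_le_update_iff.2
      ⟨Bool.false_le _, fun j _ => le_rfl⟩
    have h4 := Ex_mon hp l hf h3
    have h5 := Ex_mon hp l hg h3
    unfold Av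
    have h6 := mul_nonneg (mul_nonneg h0.le (by linarith : 0 ≤ 1 - p i))
      (mul_nonneg (sub_nonneg.2 h4) (sub_nonneg.2 h5))
    nlinarith

end Pool.Agent.J4.H89.BK
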