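import Pool.Agent.J4.H89.BK.Fluc

set_option autoImplicit false
open MeasureTheory ProbabilityTheory Filter Set
open scoped ENNReal Topology

/-!
# The nonrandom fluctuations determine the random ones (helper89)
-/

namespace Pool.Agent.J4.H89.BK

open Function
open Pool.Agent.J4.H91.FPP
open Pool.Agent.N662.FP hiding em

section
variable {μ : Seminorm ℝ (ℝ × ℝ)} {c0 C0 κ κs A : ℝ}

theorem GG_of (hb : ∀ v : V, hh v ≤ μ (em v) + A * (1 + μ (em v)) ^ (1 - κ)) : GG μ κ := by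
  refine ⟨|A| + 1, by positivity, fun v => ?_⟩
  have h1 := pw_pos μ κ v
  have h2 := hb v
  have h3 : A * (1 + μ (em v)) ^ (1 - κ) ≤ (|A| + 1) * (1 + μ (em v)) ^ (1 - κ) :=
    mul_le_mul_of_nonneg_right (by linarith [le_abs_self A]) h1.le
  linarith

theorem critM (hN : Nrm μ c0 C0) {f : V → ℝ} :
    (∀ κ : ℝ, 0 < κ → κ < 2 / 3 → ∃ A : ℝ, ∀ v : V,
      f v ≤ μ (em v) + A * (1 + μ (em v)) ^ (1 - κ)) ↔
    (∀ ε : ℝ, 0 < ε → ∃ A : ℝ, ∀ v : V, f v ≤ μ (em v) + A * (1 + ‖em v‖) ^ (1 / 3 + ε)) := by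
  have hc0 := hN.cpos
  have hC0 := hN.Cge
  constructor
  · intro h ε hε
    obtain ⟨A, hA⟩ := h (max (2 / 3 - ε) (1 / 3)) (lt_max_of_lt_right (by norm_num))
      (max_lt (by linarith) (by norm_num))
    refine ⟨|A| * C0 ^ (1 / 3 + ε), fun v => (hA v).trans (add_le_add_right ?_ _)⟩
    have h0 : 0 ≤ μ (em v) := apply_nonneg μ _
    have h1 := norm_nonneg (em v)
    have h2 : (1 + μ (em v)) ^ (1 - max (2 / 3 - ε) (1 / 3)) ≤
        (1 + μ (em v)) ^ (1 / 3 + ε) := by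
      refine Real.rpow_le_rpow_of_exponent_le (by linarith) ?_
      have := le_max_left (2 / 3 - ε) (1 / 3 : ℝ)
      linarith
    have h3 : (1 + μ (em v)) ^ (1 / 3 + ε) ≤ C0 ^ (1 / 3 + ε) * (1 + ‖em v‖) ^ (1 / 3 + ε) := by
      rw [← Real.mul_rpow (by linarith) (by linarith)]
      refine Real.rpow_le_rpow (by linarith) ?_ (by linarith)
      have := hN.hi (em v)
      linarith
    calc A * (1 + μ (em v)) ^ (1 - max (2 / 3 - ε) (1 / 3))
        ≤ |A| * (1 + μ (em v)) ^ (1 - max (2 / 3 - ε) (1 / 3)) :=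
          mul_le_mul_of_nonneg_right (le_abs_self A) (by positivity)
      _ ≤ |A| * (C0 ^ (1 / 3 + ε) * (1 + ‖em v‖) ^ (1 / 3 + ε)) :=
          mul_le_mul_of_nonneg_left (h2.trans h3) (abs_nonneg _)
      _ = _ := by ring
  · intro h κ k0 k1
    obtain ⟨A, hA⟩ := h (2 / 3 - κ) (by linarith)
    have e : 1 / 3 + (2 / 3 - κ) = 1 - κ := by ring
    rw [e] at hA
    refine ⟨|A| * (1 + 1 / c0) ^ (1 - κ), fun v => (hA v).trans (add_le_add_right ?_ _)⟩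
    have h0 : 0 ≤ μ (em v) := apply_nonneg μ _
    have h1 := norm_nonneg (em v)
    have hc : 0 < 1 / c0 := by positivity
    have h3 : (1 + ‖em v‖) ^ (1 - κ) ≤ (1 + 1 / c0) ^ (1 - κ) * (1 + μ (em v)) ^ (1 - κ) := by
      rw [← Real.mul_rpow (by linarith) (by linarith)]
      refine Real.rpow_le_rpow (by linarith) ?_ (by linarith)
      have h4 : ‖em v‖ ≤ 1 / c0 * μ (em v) := by
        rw [one_div, ← div_eq_inv_mul, le_div_iff₀ hc0, mul_comm]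
        exact hN.lo _
      have h5 : (1 + 1 / c0) * (1 + μ (em v)) =
        1 + 1 / c0 + μ (em v) + 1 / c0 * μ (em v) := by ring
      linarith
    calc A * (1 + ‖em v‖) ^ (1 - κ) ≤ |A| * (1 + ‖em v‖) ^ (1 - κ) :=
          mul_le_mul_of_nonneg_right (le_abs_self A) (by positivity)
      _ ≤ |A| * ((1 + 1 / c0) ^ (1 - κ) * (1 + μ (em v)) ^ (1 - κ)) :=
          mul_le_mul_of_nonneg_left h3 (abs_nonneg _)
      _ = _ := by ring

variable {Ω : Type} [MeasureSpace Ω] [IsProbabilityMeasure (volume : Measure Ω)]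
  {X : Sym2 (ℤ × ℤ) → Ω → ℝ}

/-- the equivalences -/
theorem tfae4 (hX : Iid X) (hG : Good (fun ω v => D (env X ω) 0 v) μ)
    (hlim : ∀ z : V, ∀ᵐ ω ∂(volume : Measure Ω),
      Tendsto (fun n : ℕ => D (env X ω) 0 ((n : ℤ) • z) / (n : ℝ)) atTop (𝓝 (μ (em z))))
    (K : ℝ) (hK1 : K < 1) :
    List.TFAE [
      ∀ κ : ℝ, 0 < κ → κ < K → ∀ q : ℝ, 0 < q →
        Asymptotics.IsBigO atTop (fun t : ℝ => (volume : Measure Ω).real
          (Out (fun ω v => D (env X ω) 0 v) μ κ t)) (fun t : ℝ => t ^ (-q)) ∧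
        Asymptotics.IsBigO atTop (fun t : ℝ => (volume : Measure Ω).real
          (Pool.Agent.N662.FP.Bad (fun ω v => D (env X ω) 0 v) μ κ t)) (fun t : ℝ => t ^ (-q)),
      ∀ κ : ℝ, 0 < κ → κ < K → ∃ c : ℝ, 0 < c ∧ ∀ᶠ t : ℝ in atTop,
        (volume : Measure Ω).real (Out (fun ω v => D (env X ω) 0 v) μ κ t) ≤ Real.exp (-(t ^ c)) ∧
        (volume : Measure Ω).real
          (Pool.Agent.N662.FP.Bad (fun ω v => D (env X ω) 0 v) μ κ t) ≤ Real.exp (-(t ^ c)),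
      ∀ κ : ℝ, 0 < κ → κ < K → ∃ A : ℝ, ∀ v : ℤ × ℤ,
        variance (fun ω => D (env X ω) 0 v) (volume : Measure Ω) ≤
          A * (1 + μ (em v)) ^ (2 * (1 - κ)),
      ∀ κ : ℝ, 0 < κ → κ < K → ∃ A : ℝ, ∀ v : ℤ × ℤ,
        ∫ ω, D (env X ω) 0 v ∂(volume : Measure Ω) ≤ μ (em v) + A * (1 + μ (em v)) ^ (1 - κ)] := by
  obtain ⟨c0, C0, hN⟩ := nrm_of μ hG.norm
  have hold := tfae3 hX hG hlim K hK1
  have o12 := hold.out 0 1
  have o13 := hold.out 0 2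
  have o34 := hold.out 2 3
  simp_rw [var_eq hX, hh_eq hX] at o13 o34 ⊢
  tfae_have 1 ↔ 2 := o12
  tfae_have 1 ↔ 3 := o13
  tfae_have 3 → 4 := by
    intro h κ h0 h1
    obtain ⟨A, hA⟩ := o34.1 h ((κ + K) / 2) (by linarith) (by linarith)
    obtain ⟨A', -, hA'⟩ := l1_of_mean hX hN hlim (by linarith) (by linarith) hA
      (κ' := κ) (by linarith)
    exact ⟨A', fun v => (hA' v).2.1⟩
  tfae_have 4 → 3 := by
    intro h κ h0 h1
    obtain ⟨A, hA⟩ := h ((κ + K) / 2) (by linarith) (by linarith)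
    obtain ⟨A', -, hA'⟩ := VB_of_GG hX hN hlim (by linarith) (GG_of hA) (κ := κ) (by linarith)
    exact ⟨A', hA'⟩
  tfae_finish

/-- one exponent -/
theorem one_mexp (hX : Iid X) (hN : Nrm μ c0 C0) (hG : Good (fun ω v => D (env X ω) 0 v) μ)
    (hlim : ∀ z : V, ∀ᵐ ω ∂(volume : Measure Ω),
      Tendsto (fun n : ℕ => D (env X ω) 0 ((n : ℤ) • z) / (n : ℝ)) atTop (𝓝 (μ (em z))))
    (hκ1 : κ ≤ 1) (hb : ∀ v : V, hh v ≤ μ (em v) + A * (1 + μ (em v)) ^ (1 - κ))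
    {κ' : ℝ} (h0' : 0 < κ') (hk : κ' < κ) :
    (∃ A' : ℝ, ∀ v : V, sqm v ≤ A' * (1 + μ (em v)) ^ (2 * (1 - κ'))) ∧
    ∃ c : ℝ, 0 < c ∧ ∀ᶠ t : ℝ in atTop,
      (volume : Measure Ω).real (Out (fun ω v => D (env X ω) 0 v) μ κ' t) ≤ Real.exp (-(t ^ c)) ∧
      (volume : Measure Ω).real
        (Pool.Agent.N662.FP.Bad (fun ω v => D (env X ω) 0 v) μ κ' t) ≤ Real.exp (-(t ^ c)) := by
  obtain ⟨A1, -, h1⟩ := VB_of_GG hX hN hlim hκ1 (GG_of hb) hk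
  obtain ⟨A2, -, h2⟩ := VB_of_GG hX hN hlim hκ1 (GG_of hb) (κ := (κ' + κ) / 2) (by linarith)
  exact ⟨⟨A1, h1⟩, one_exp hX hN hG hlim (by linarith) (mean_of_var hX h2) h0' (by linarith)⟩

end

end Pool.Agent.J4.H89.BK
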