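import Pool.Agent.J4.H89.BK.Har
import Pool.Agent.J4.H91.FPP.Fin3

set_option autoImplicit false
open MeasureTheory ProbabilityTheory Filter Set
open scoped ENNReal Topology

/-!
# The defect of additivity, and the recursion for the variance (helper89)
-/

namespace Pool.Agent.J4.H89.BK

open Function
open Pool.Agent.J4.H91.FPP
open Pool.Agent.N662.FP hiding em

theorem dR_le_tR (v : V) {x : En} (hx : ∀ e, 0 ≤ x e) :
    dR 0 v x ≤ tR x (dst 0 v) (LP 0 v) := by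
  obtain ⟨N, hN⟩ := (box_ev v).exists
  exact (dR_le_TR hN x).trans (TR_le hx (LP_re (box_zero N) hN))

theorem dst_neg (v : V) : dst 0 (-v) = dst 0 v := by
  unfold dst
  simp

theorem Dd_meas (v : V) : Measurable (Dd v) :=
  ((dR_meas 0 v).add (dR_meas 0 (-v))).sub (dR_meas (-v) v)

theorem Dd_four (v : V) : Integrable (fun x => Dd v x ^ 4) PP ∧
    ∫ x, Dd v x ^ 4 ∂PP ≤ 384 * (dst 0 v : ℝ) ^ 4 := by
  have m1 := tR_mom (dst 0 v) (LP 0 v) 3
  have m2 := tR_mom (dst 0 (-v)) (LP 0 (-v)) 3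
  norm_num [Nat.factorial] at m1 m2
  rw [dst_neg] at m2
  set F : En → ℝ := fun x => 8 * tR x (dst 0 v) (LP 0 v) ^ 4 + 8 * tR x (dst 0 v) (LP 0 (-v)) ^ 4
    with hF
  have hpt : ∀ᵐ x ∂PP, Dd v x ^ 4 ≤ F x := by
    filter_upwards [ae_nonneg] with x hx
    have h1 := dR_le_tR v hx
    have h2 := dR_le_tR (-v) hx
    rw [dst_neg] at h2
    have h3 := dR_nonneg (-v) v x
    have h0 := Dd_nonneg v x
    have h4 : Dd v x ≤ tR x (dst 0 v) (LP 0 v) + tR x (dst 0 v) (LP 0 (-v)) := by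
      unfold Dd
      linarith
    refine (pow_le_pow_left₀ h0 h4 4).trans ?_
    have h6 := add_pow_le (tR_nonneg hx (dst 0 v) (LP 0 v)) (tR_nonneg hx (dst 0 v) (LP 0 (-v))) 4
    norm_num at h6
    rw [hF]
    linarith
  have hi : Integrable F PP := (m1.1.const_mul 8).add (m2.1.const_mul 8)
  have h1 : Integrable (fun x => Dd v x ^ 4) PP := by
    refine Integrable.mono' hi ((Dd_meas v).pow_const _).aestronglyMeasurable ?_
    filter_upwards [hpt] with x h2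
    rw [Real.norm_eq_abs, abs_of_nonneg (pow_nonneg (Dd_nonneg v x) _)]
    exact h2
  refine ⟨h1, (integral_mono_ae h1 hi hpt).trans ?_⟩
  rw [hF, integral_add (m1.1.const_mul 8) (m2.1.const_mul 8), integral_const_mul,
    integral_const_mul]
  have := m1.2
  have := m2.2
  linarith

theorem dst_le {μ : Seminorm ℝ (ℝ × ℝ)} {c0 C0 : ℝ} (hN : Nrm μ c0 C0) (v : V) :
    (dst 0 v : ℝ) ≤ 2 / c0 * (1 + μ (em v)) := by
  have hc0 := hN.cpos
  have h1 : (dst 0 v : ℝ) ≤ 2 * ‖em v‖ := by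
    rw [em_def, Prod.norm_def, Real.norm_eq_abs, Real.norm_eq_abs]
    unfold dst
    push_cast
    simp only [Prod.fst_zero, Prod.snd_zero, sub_zero]
    rw [Nat.cast_natAbs, Nat.cast_natAbs]
    push_cast
    have := le_max_left |(v.1 : ℝ)| |(v.2 : ℝ)|
    have := le_max_right |(v.1 : ℝ)| |(v.2 : ℝ)|
    linarith
  have h2 : ‖em v‖ ≤ μ (em v) / c0 := by
    rw [le_div_iff₀ hc0, mul_comm]
    exact hN.lo _
  have h3 : 2 / c0 * (1 + μ (em v)) = 2 * (μ (em v) / c0) + 2 / c0 := by ring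
  have h4 : 0 < 2 / c0 := by positivity
  linarith

/-! ### the defect -/

section
variable {μ : Seminorm ℝ (ℝ × ℝ)} {c0 C0 κ κs A : ℝ}

theorem low_exp {b μ0 : ℝ} (hb : 0 < b) (h0 : 0 ≤ μ0) :
    Real.exp (-(2 * μ0) ^ b) ≤ Real.exp (2 ^ b) * Real.exp (-(1 * (1 + μ0) ^ b)) := by
  rw [← Real.exp_add]
  refine Real.exp_le_exp.2 ?_
  rcases le_total 1 μ0 with h | h
  · have h1 : (1 + μ0) ^ b ≤ (2 * μ0) ^ b := Real.rpow_le_rpow (by linarith) (by linarith) hb.le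
    have h2 : (0 : ℝ) ≤ 2 ^ b := by positivity
    linarith
  · have h1 : (1 + μ0) ^ b ≤ 2 ^ b := Real.rpow_le_rpow (by linarith) (by linarith) hb.le
    have h2 : (0 : ℝ) ≤ (2 * μ0) ^ b := by positivity
    linarith

/-- the bad event -/
def BadE (μ : Seminorm ℝ (ℝ × ℝ)) (C1 κ' : ℝ) (v : V) : Set En :=
  {x | hh v + (1 + μ (em v)) ^ (1 - κ') < dR 0 v x} ∪
    {x | hh (-v) + (1 + μ (em v)) ^ (1 - κ') < dR 0 (-v) x} ∪
    {x | dR (-v) v x < μ (em (v + v)) - C1 * (1 + μ (em (v + v))) ^ (1 - κ')}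

theorem BadE_meas (μ : Seminorm ℝ (ℝ × ℝ)) (C1 κ' : ℝ) (v : V) :
    MeasurableSet (BadE μ C1 κ' v) :=
  ((measurableSet_lt measurable_const (dR_meas 0 v)).union
    (measurableSet_lt measurable_const (dR_meas 0 (-v)))).union
    (measurableSet_lt (dR_meas (-v) v) measurable_const)

theorem em_two (μ : Seminorm ℝ (ℝ × ℝ)) (v : V) : μ (em (v + v)) = 2 * μ (em v) := by
  rw [em_add, ← two_smul ℝ (em v), map_smul_eq_mul]
  norm_num

theorem BadE_prob (hv : HV μ κ A) {κ' b C1 : ℝ} (hk : κ' < κ) (hb : 0 < b) (hC1 : 0 < C1)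
    (hL : ∀ v : V, PP {x | dR 0 v x < μ (em v) - C1 * (1 + μ (em v)) ^ (1 - κ')} ≤
      ENNReal.ofReal (C1 * Real.exp (-μ (em v) ^ b))) :
    ∃ K : ℝ, 0 < K ∧ ∀ v : V, PP.real (BadE μ C1 κ' v) ≤ K * (1 + μ (em v)) ^ (-(4 : ℝ)) := by
  have hA := hv.Age
  obtain ⟨K1, hK1, h1⟩ := exp_poly (κ := κ - κ') (c := 1 / A) 4 (by linarith) (by positivity)
  obtain ⟨K2, hK2, h2⟩ := exp_poly (κ := b) (c := 1) 4 hb one_pos
  refine ⟨6 * K1 + C1 * Real.exp (2 ^ b) * K2, by positivity, fun v => ?_⟩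
  obtain ⟨m, hm⟩ : ∃ m : ℝ, m = 1 + μ (em v) := ⟨_, rfl⟩
  have h0 : 0 ≤ μ (em v) := apply_nonneg μ _
  have hm1 : 1 ≤ m := by linarith
  have hm0 : 0 < m := by linarith
  have hemn : μ (em (-v)) = μ (em v) := by rw [em_neg, map_neg_eq_map]
  have e1 : ∀ w : V, μ (em w) = μ (em v) → PP {x | hh w + m ^ (1 - κ') < dR 0 w x} ≤
      ENNReal.ofReal (3 * (K1 * m ^ (-(4 : ℝ)))) := by
    intro w hw
    refine (hv.tail w _ (by positivity)).trans (ENNReal.ofReal_le_ofReal ?_)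
    rw [hw, ← hm]
    have e2 : -(m ^ (1 - κ') / (A * m ^ (1 - κ))) = -(1 / A * m ^ (κ - κ')) := by
      have e6 : m ^ (1 - κ') = m ^ (1 - κ) * m ^ (κ - κ') := by
        rw [← Real.rpow_add hm0]; congr 1; ring
      have e7 : 0 < m ^ (1 - κ) := by positivity
      rw [e6]
      field_simp
    rw [e2]
    exact mul_le_mul_of_nonneg_left (h1 m hm1) (by norm_num)
  have e3 : PP {x | dR (-v) v x < μ (em (v + v)) - C1 * (1 + μ (em (v + v))) ^ (1 - κ')} ≤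
      ENNReal.ofReal (C1 * Real.exp (2 ^ b) * (K2 * m ^ (-(4 : ℝ)))) := by
    have e4 := dR_prob (-v) v
      (S := Iio (μ (em (v + v)) - C1 * (1 + μ (em (v + v))) ^ (1 - κ'))) measurableSet_Iio
    rw [sub_neg_eq_add] at e4
    refine e4.le.trans ((hL (v + v)).trans (ENNReal.ofReal_le_ofReal ?_))
    rw [em_two, mul_assoc]
    refine mul_le_mul_of_nonneg_left ((low_exp hb h0).trans ?_) hC1.le
    rw [← hm]
    exact mul_le_mul_of_nonneg_left (h2 m hm1) (Real.exp_pos _).le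
  have e5 : PP (BadE μ C1 κ' v) ≤ ENNReal.ofReal ((6 * K1 + C1 * Real.exp (2 ^ b) * K2) *
      m ^ (-(4 : ℝ))) := by
    unfold BadE
    rw [← hm]
    refine (measure_union_le _ _).trans ?_
    refine (add_le_add (measure_union_le _ _) le_rfl).trans ?_
    refine (add_le_add (add_le_add (e1 v rfl) (e1 (-v) hemn)) e3).trans ?_
    rw [← ENNReal.ofReal_add (by positivity) (by positivity),
      ← ENNReal.ofReal_add (by positivity) (by positivity)]
    refine ENNReal.ofReal_le_ofReal (le_of_eq ?_)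
    ring
  rw [← hm]
  exact ENNReal.toReal_le_of_le_ofReal (by positivity) e5

theorem defect (hN : Nrm μ c0 C0) (hv : HV μ κ A) (hκ1 : κ < 1) (hκs : κ ≤ κs)
    (hκs1 : κs ≤ 1) (hG : GG μ κs) {κ' : ℝ} (h0' : 0 ≤ κ') (hk : κ' < κ) :
    ∃ C : ℝ, 0 < C ∧ ∀ v : V, ∫ x, Dd v x ^ 2 ∂PP ≤
      C * ((1 + μ (em v)) ^ (1 - κ') * (1 + μ (em v)) ^ (1 - κs)) := by
  have hc0 := hN.cpos
  obtain ⟨A', hy⟩ := to_hyp hv (GG_mono hκs hG) le_rfl
  obtain ⟨b, C1, hb, hC1, hL⟩ : HL μ κ' := HL_all hN hy hκ1 linLow hk h0'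
  obtain ⟨Cs, hCs, hgs⟩ := hG
  obtain ⟨K, hK, hbad⟩ := BadE_prob hv hk hb hC1 hL
  obtain ⟨S, hS⟩ : ∃ S : ℝ, S = Real.sqrt (384 * (2 / c0) ^ 4 * K) := ⟨_, rfl⟩
  have hS0 : 0 ≤ S := by rw [hS]; exact Real.sqrt_nonneg _
  refine ⟨(2 * Cs + 2 + 2 * C1) * (2 * Cs) + S, by positivity, fun v => ?_⟩
  have h0 : 0 ≤ μ (em v) := apply_nonneg μ _
  have hge := hv.ge (v + v)
  have hge1 := hv.ge v
  have hgv := hgs v
  have hbv := hbad v
  have hdst := dst_le hN v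
  have hem2 := em_two μ v
  obtain ⟨m, hm⟩ : ∃ m : ℝ, m = 1 + μ (em v) := ⟨_, rfl⟩
  have hm1 : 1 ≤ m := by linarith
  have hm0 : 0 < m := by linarith
  rw [← hm] at hgv hbv hdst ⊢
  obtain ⟨P, hP⟩ : ∃ P : ℝ, P = m ^ (1 - κ') := ⟨_, rfl⟩
  obtain ⟨Q, hQ⟩ : ∃ Q : ℝ, Q = m ^ (1 - κs) := ⟨_, rfl⟩
  have hP1 : 1 ≤ P := by rw [hP]; exact Real.one_le_rpow hm1 (by linarith)
  have hQP : Q ≤ P := by
    rw [hP, hQ]; exact Real.rpow_le_rpow_of_exponent_le hm1 (by linarith)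
  have hQ0 : 0 < Q := by rw [hQ]; positivity
  rw [← hQ] at hgv
  rw [← hQ, ← hP]
  set Bd := BadE μ C1 κ' v with hBd
  have hBm : MeasurableSet Bd := BadE_meas μ C1 κ' v
  -- the good event
  have hgood : ∀ x, x ∉ Bd → Dd v x ≤ (2 * Cs + 2 + 2 * C1) * P := by
    intro x hx
    rw [hBd] at hx
    unfold BadE at hx
    simp only [mem_union, mem_ofPred_eq, not_or, not_lt] at hx
    obtain ⟨⟨x1, x2⟩, x3⟩ := hx
    rw [← hm, ← hP] at x1 x2
    rw [hh_neg] at x2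
    rw [hem2] at x3
    have h5 : (1 + 2 * μ (em v)) ^ (1 - κ') ≤ 2 * P := by
      have h6 : (1 + 2 * μ (em v)) ^ (1 - κ') ≤ (2 * m) ^ (1 - κ') :=
        Real.rpow_le_rpow (by linarith) (by linarith) (by linarith)
      rw [Real.mul_rpow (by norm_num) hm0.le, ← hP] at h6
      have h7 : (2 : ℝ) ^ (1 - κ') ≤ 2 ^ (1 : ℝ) :=
        Real.rpow_le_rpow_of_exponent_le (by norm_num) (by linarith)
      rw [Real.rpow_one] at h7
      nlinarith
    have h8 : C1 * (1 + 2 * μ (em v)) ^ (1 - κ') ≤ C1 * (2 * P) :=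
      mul_le_mul_of_nonneg_left h5 hC1.le
    have h9 : Cs * Q ≤ Cs * P := mul_le_mul_of_nonneg_left hQP hCs.le
    unfold Dd
    linarith
  -- the mean
  have hmean : ∫ x, Dd v x ∂PP ≤ 2 * Cs * Q := by
    rw [Dd_int]
    linarith
  -- the bad event
  obtain ⟨i4, h4⟩ := Dd_four v
  have hDm := Dd_memLp v
  have i1 : Integrable (Dd v) PP := hDm.integrable (by norm_num)
  have i2 : Integrable (fun x => Dd v x ^ 2) PP := hDm.integrable_sq
  have m1 : MemLp (fun x => Dd v x ^ 2) 2 PP := by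
    refine (memLp_two_iff_integrable_sq ((Dd_meas v).pow_const 2).aestronglyMeasurable).2 ?_
    refine i4.congr (Eventually.of_forall fun x => ?_)
    show Dd v x ^ 4 = (Dd v x ^ 2) ^ 2
    ring
  have m2 : MemLp (Bd.indicator fun _ => (1 : ℝ)) 2 PP := memLp_indicator_const 2 hBm 1
    (Or.inr (measure_ne_top _ _))
  have hcs := cs_int m1 m2
  have e1 : ∫ x, (Dd v x ^ 2) ^ 2 ∂PP = ∫ x, Dd v x ^ 4 ∂PP := by
    congr 1; funext x; ring
  have e2 : ∫ x, (Bd.indicator (fun _ => (1 : ℝ)) x) ^ 2 ∂PP = PP.real Bd := by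
    have : (fun x => (Bd.indicator (fun _ => (1 : ℝ)) x) ^ 2) = Bd.indicator (fun _ => (1 : ℝ)) := by
      funext x
      by_cases hx : x ∈ Bd
      · rw [indicator_of_mem hx]; norm_num
      · rw [indicator_of_notMem hx]; norm_num
    rw [this, integral_indicator_const _ hBm, smul_eq_mul, mul_one]
  rw [e1, e2] at hcs
  have h5 : ∫ x, Dd v x ^ 2 * Bd.indicator (fun _ => (1 : ℝ)) x ∂PP ≤ S := by
    refine Real.le_sqrt_of_sq_le (hcs.trans ?_) |>.trans (le_of_eq hS.symm)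
    have h6 : ∫ x, Dd v x ^ 4 ∂PP ≤ 384 * (2 / c0 * m) ^ 4 :=
      h4.trans (mul_le_mul_of_nonneg_left (pow_le_pow_left₀ (Nat.cast_nonneg _) hdst 4)
        (by norm_num))
    have h7 : 0 ≤ ∫ x, Dd v x ^ 4 ∂PP := integral_nonneg fun x => by positivity
    refine (mul_le_mul h6 hbv measureReal_nonneg (by positivity)).trans (le_of_eq ?_)
    have h8 : m ^ 4 * m ^ (-(4 : ℝ)) = 1 := by
      rw [← Real.rpow_natCast m 4, ← Real.rpow_add hm0]
      norm_num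
    calc 384 * (2 / c0 * m) ^ 4 * (K * m ^ (-(4 : ℝ))) =
        384 * (2 / c0) ^ 4 * K * (m ^ 4 * m ^ (-(4 : ℝ))) := by ring
      _ = 384 * (2 / c0) ^ 4 * K := by rw [h8, mul_one]
  have i3 : Integrable (fun x => Dd v x ^ 2 * Bd.indicator (fun _ => (1 : ℝ)) x) PP :=
    m1.integrable_mul m2
  have i5 : Integrable (fun x => (2 * Cs + 2 + 2 * C1) * P * Dd v x) PP := i1.const_mul _
  have h6 : ∫ x, Dd v x ^ 2 ∂PP ≤ ∫ x, ((2 * Cs + 2 + 2 * C1) * P * Dd v x +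
      Dd v x ^ 2 * Bd.indicator (fun _ => (1 : ℝ)) x) ∂PP := by
    refine integral_mono i2 (i5.add i3) fun x => ?_
    show Dd v x ^ 2 ≤ (2 * Cs + 2 + 2 * C1) * P * Dd v x +
      Dd v x ^ 2 * Bd.indicator (fun _ => (1 : ℝ)) x
    have hD := Dd_nonneg v x
    by_cases hx : x ∈ Bd
    · rw [indicator_of_mem hx, mul_one]
      have : 0 ≤ (2 * Cs + 2 + 2 * C1) * P * Dd v x := by positivity
      linarith
    · rw [indicator_of_notMem hx, mul_zero, add_zero, sq]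
      exact mul_le_mul_of_nonneg_right (hgood x hx) hD
  rw [integral_add i5 i3, integral_const_mul] at h6
  have h7 : (2 * Cs + 2 + 2 * C1) * P * ∫ x, Dd v x ∂PP ≤
      (2 * Cs + 2 + 2 * C1) * P * (2 * Cs * Q) :=
    mul_le_mul_of_nonneg_left hmean (by positivity)
  have hQ1 : 1 ≤ Q := by rw [hQ]; exact Real.one_le_rpow hm1 (by linarith)
  have h8 : S * 1 ≤ S * (P * Q) := by
    refine mul_le_mul_of_nonneg_left ?_ hS0
    nlinarith
  calc ∫ x, Dd v x ^ 2 ∂PP ≤ (2 * Cs + 2 + 2 * C1) * P * (2 * Cs * Q) + S := by linarith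
    _ ≤ ((2 * Cs + 2 + 2 * C1) * (2 * Cs) + S) * (P * Q) := by nlinarith

/-! ### the recursion -/

/-- the variance bound at the exponent `κ` -/
def VB (μ : Seminorm ℝ (ℝ × ℝ)) (κ : ℝ) : Prop :=
  ∃ A : ℝ, 0 < A ∧ ∀ v : V, sqm v ≤ A * (1 + μ (em v)) ^ (2 * (1 - κ))

theorem VB_mono {κ1 κ2 : ℝ} (h : κ2 ≤ κ1) (hV : VB μ κ1) : VB μ κ2 := by
  obtain ⟨A, hA, hb⟩ := hV
  refine ⟨A, hA, fun v => (hb v).trans ?_⟩
  have h1 : 0 ≤ μ (em v) := apply_nonneg μ _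
  exact mul_le_mul_of_nonneg_left
    (Real.rpow_le_rpow_of_exponent_le (by linarith) (by linarith)) hA.le

/-- doubling `J` times -/
def dbl : ℕ → V → V
  | 0, v => v
  | J + 1, v => dbl J (v + v)

theorem dst_dbl (J : ℕ) : ∀ v : V, dst 0 (dbl J v) = 2 ^ J * dst 0 v := by
  induction J with
  | zero => intro v; simp [dbl]
  | succ J ih =>
    intro v
    rw [dbl, ih, pow_succ, mul_assoc]
    congr 1
    unfold dst
    simp only [Prod.fst_zero, Prod.snd_zero, sub_zero, Prod.fst_add, Prod.snd_add]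
    omega

theorem rec_sum {K g : ℝ} (hK : 0 ≤ K) (g0 : 0 ≤ g) (g1 : g < 1 / 2)
    (hd : ∀ v : V, Real.sqrt (∫ x, Dd v x ^ 2 ∂PP) ≤ K * (1 + μ (em v)) ^ g) (J : ℕ) :
    ∀ v : V, Real.sqrt (sqm v) ≤ K / (Real.sqrt 2 - 2 ^ g) * (1 + μ (em v)) ^ g +
      Real.sqrt (sqm (dbl J v)) / Real.sqrt 2 ^ J := by
  have hs2 : (2 : ℝ) ^ g < Real.sqrt 2 := by
    rw [Real.sqrt_eq_rpow]
    exact Real.rpow_lt_rpow_of_exponent_lt (by norm_num) g1
  have hs0 : 0 < Real.sqrt 2 := by positivity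
  have hs3 : 0 < Real.sqrt 2 - 2 ^ g := by linarith
  obtain ⟨L, hL⟩ : ∃ L : ℝ, L = K / (Real.sqrt 2 - 2 ^ g) := ⟨_, rfl⟩
  have hL0 : 0 ≤ L := by rw [hL]; positivity
  have hLK : L * Real.sqrt 2 = L * 2 ^ g + K := by
    rw [hL]; field_simp; ring
  rw [← hL]
  induction J with
  | zero =>
    intro v
    have h1 : 0 ≤ μ (em v) := apply_nonneg μ _
    have h2 : 0 ≤ L * (1 + μ (em v)) ^ g := by positivity
    simpa [dbl] using h2
  | succ J ih =>
    intro v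
    have h1 : 0 ≤ μ (em v) := apply_nonneg μ _
    have h2 := ih (v + v)
    have h3 := main_ineq v
    have h4 := hd v
    have h5 : (1 + μ (em (v + v))) ^ g ≤ 2 ^ g * (1 + μ (em v)) ^ g := by
      rw [← Real.mul_rpow (by norm_num) (by linarith), em_two]
      exact Real.rpow_le_rpow (by linarith) (by linarith) g0
    have h6 : L * (1 + μ (em (v + v))) ^ g ≤ L * (2 ^ g * (1 + μ (em v)) ^ g) :=
      mul_le_mul_of_nonneg_left h5 hL0
    rw [dbl, pow_succ, ← div_div, ← sub_nonneg]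
    have h7 : Real.sqrt 2 * Real.sqrt (sqm v) ≤ Real.sqrt 2 * (L * (1 + μ (em v)) ^ g +
        Real.sqrt (sqm (dbl J (v + v))) / Real.sqrt 2 ^ J / Real.sqrt 2) := by
      have e : Real.sqrt 2 * (L * (1 + μ (em v)) ^ g +
        Real.sqrt (sqm (dbl J (v + v))) / Real.sqrt 2 ^ J / Real.sqrt 2) =
        (L * Real.sqrt 2) * (1 + μ (em v)) ^ g +
          Real.sqrt (sqm (dbl J (v + v))) / Real.sqrt 2 ^ J := by
        field_simp
      rw [e, hLK]
      nlinarith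
    have h8 := le_of_mul_le_mul_left h7 hs0
    linarith

theorem rec_lim {K g : ℝ} (hK : 0 ≤ K) (g0 : 0 ≤ g) (g1 : g < 1 / 2)
    (hd : ∀ v : V, Real.sqrt (∫ x, Dd v x ^ 2 ∂PP) ≤ K * (1 + μ (em v)) ^ g) (v : V) :
    Real.sqrt (sqm v) ≤ K / (Real.sqrt 2 - 2 ^ g) * (1 + μ (em v)) ^ g := by
  have hsum := fun J => rec_sum hK g0 g1 hd J v
  obtain ⟨B, hB⟩ : ∃ B : ℝ, B = K / (Real.sqrt 2 - 2 ^ g) * (1 + μ (em v)) ^ g := ⟨_, rfl⟩
  rw [← hB] at hsum ⊢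
  have h1 : ∀ ε : ℝ, 0 < ε → Real.sqrt (sqm v) ≤ B + Real.sqrt (ε * dst 0 v) := by
    intro ε hε
    obtain ⟨C, hC, hsub⟩ := sublinear hε
    have hlim : Tendsto (fun J : ℕ => B + Real.sqrt (ε * dst 0 v + C / 2 ^ J)) atTop
        (𝓝 (B + Real.sqrt (ε * dst 0 v))) := by
      have h2 : Tendsto (fun J : ℕ => C / (2 : ℝ) ^ J) atTop (𝓝 0) :=
        tendsto_const_nhds.div_atTop (tendsto_pow_atTop_atTop_of_one_lt one_lt_two)
      have h3 := (tendsto_const_nhds (x := ε * (dst 0 v : ℝ))).add h2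
      rw [add_zero] at h3
      exact ((Real.continuous_sqrt.tendsto _).comp h3).const_add B
    refine ge_of_tendsto' hlim fun J => (hsum J).trans (add_le_add_right ?_ B)
    rw [div_le_iff₀ (by positivity)]
    have e : Real.sqrt 2 ^ J = Real.sqrt (2 ^ J) := by
      have h5 : Real.sqrt ((Real.sqrt 2 ^ J) ^ 2) = Real.sqrt 2 ^ J := Real.sqrt_sq (by positivity)
      rw [← h5]
      congr 1
      rw [← pow_mul, mul_comm, pow_mul, Real.sq_sqrt (by norm_num)]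
    rw [e, ← Real.sqrt_mul (by positivity)]
    refine Real.sqrt_le_sqrt ((hsub _).trans (le_of_eq ?_))
    rw [dst_dbl]
    push_cast
    field_simp
  have hlim : Tendsto (fun ε : ℝ => B + Real.sqrt (ε * dst 0 v)) (𝓝[>] 0) (𝓝 B) := by
    have h2 : Tendsto (fun ε : ℝ => B + Real.sqrt (ε * dst 0 v)) (𝓝 0)
        (𝓝 (B + Real.sqrt (0 * dst 0 v))) := by
      refine Continuous.tendsto ?_ 0
      fun_prop
    rw [zero_mul, Real.sqrt_zero, add_zero] at h2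
    exact h2.mono_left nhdsWithin_le_nhds
  refine ge_of_tendsto hlim ?_
  filter_upwards [self_mem_nhdsWithin] with ε hε
  exact h1 ε hε

/-! ### the iteration -/

section
variable {Ω : Type} [MeasureSpace Ω] [IsProbabilityMeasure (volume : Measure Ω)]
  {X : Sym2 (ℤ × ℤ) → Ω → ℝ}

theorem VB_half (hN : Nrm μ c0 C0) : VB μ (1 / 2) := by
  have hc0 := hN.cpos
  obtain ⟨C, hC, h⟩ := sublinear one_pos
  refine ⟨2 / c0 + C, by positivity, fun v => ?_⟩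
  have h0 : 0 ≤ μ (em v) := apply_nonneg μ _
  have h1 := h v
  have h2 := dst_le hN v
  have e : (2 : ℝ) * (1 - 1 / 2) = 1 := by norm_num
  rw [e, Real.rpow_one]
  nlinarith [mul_nonneg hC h0]

theorem VB_step (hX : Iid X) (hN : Nrm μ c0 C0)
    (hlim : ∀ z : V, ∀ᵐ ω ∂(volume : Measure Ω),
      Tendsto (fun n : ℕ => D (env X ω) 0 ((n : ℤ) • z) / (n : ℝ)) atTop (𝓝 (μ (em z))))
    (hκ0 : 0 < κ) (hκ1 : κ < 1) (hκs : κ ≤ κs) (hκs1 : κs ≤ 1) (hG : GG μ κs) (hV : VB μ κ)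
    {κ' : ℝ} (h0' : 0 ≤ κ') (hk : κ' < κ) (hk1 : 1 < κ' + κs) : VB μ ((κ' + κs) / 2) := by
  obtain ⟨A, hA, hb⟩ := hV
  obtain ⟨A', hv⟩ := mk_HV hX hlim hκ0 hκ1 (mean_of_var hX hb)
  obtain ⟨C, hC, hd⟩ := defect hN hv hκ1 hκs hκs1 hG h0' hk
  obtain ⟨g, hg⟩ : ∃ g : ℝ, g = 1 - (κ' + κs) / 2 := ⟨_, rfl⟩
  have g0 : 0 ≤ g := by linarith
  have g1 : g < 1 / 2 := by linarith
  have hd2 : ∀ v : V, Real.sqrt (∫ x, Dd v x ^ 2 ∂PP) ≤ Real.sqrt C * (1 + μ (em v)) ^ g := by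
    intro v
    have h0 : 0 ≤ μ (em v) := apply_nonneg μ _
    have hm0 : 0 < 1 + μ (em v) := by linarith
    have h1 := Real.sqrt_le_sqrt (hd v)
    refine h1.trans (le_of_eq ?_)
    rw [Real.sqrt_mul hC.le, ← Real.rpow_add hm0]
    congr 1
    rw [Real.sqrt_eq_rpow, ← Real.rpow_mul hm0.le]
    congr 1
    rw [hg]; ring
  have hfin := rec_lim (Real.sqrt_nonneg C) g0 g1 hd2
  obtain ⟨L, hL⟩ : ∃ L : ℝ, L = Real.sqrt C / (Real.sqrt 2 - 2 ^ g) := ⟨_, rfl⟩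
  rw [← hL] at hfin
  refine ⟨L ^ 2 + 1, by positivity, fun v => ?_⟩
  have h0 : 0 ≤ μ (em v) := apply_nonneg μ _
  have hm0 : 0 < 1 + μ (em v) := by linarith
  have hsq : 0 ≤ sqm v := integral_nonneg fun x => sq_nonneg _
  have h1 := pow_le_pow_left₀ (Real.sqrt_nonneg _) (hfin v) 2
  rw [Real.sq_sqrt hsq, mul_pow] at h1
  have e : ((1 + μ (em v)) ^ g) ^ 2 = (1 + μ (em v)) ^ (2 * (1 - (κ' + κs) / 2)) := by
    rw [← Real.rpow_natCast, ← Real.rpow_mul hm0.le]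
    congr 1
    rw [hg]; push_cast; ring
  rw [e] at h1
  refine h1.trans (mul_le_mul_of_nonneg_right (by linarith) (by positivity))

theorem VB_of_GG (hX : Iid X) (hN : Nrm μ c0 C0)
    (hlim : ∀ z : V, ∀ᵐ ω ∂(volume : Measure Ω),
      Tendsto (fun n : ℕ => D (env X ω) 0 ((n : ℤ) • z) / (n : ℝ)) atTop (𝓝 (μ (em z))))
    (hκs1 : κs ≤ 1) (hG : GG μ κs) (hk : κ < κs) : VB μ κ := by
  rcases le_or_gt κs (1 / 2) with h | h
  · exact VB_mono (by linarith) (VB_half hN)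
  have hmain : ∀ j : ℕ, VB μ (κs - (κs - 1 / 2) * (3 / 4) ^ j) := by
    intro j
    induction j with
    | zero =>
      have e : κs - (κs - 1 / 2) * (3 / 4) ^ 0 = 1 / 2 := by ring
      rw [e]
      exact VB_half hN
    | succ j ih =>
      obtain ⟨q, hq⟩ : ∃ q : ℝ, q = ((3 : ℝ) / 4) ^ j := ⟨_, rfl⟩
      have q0 : 0 < q := by rw [hq]; positivity
      have q1 : q ≤ 1 := by rw [hq]; exact pow_le_one₀ (by norm_num) (by norm_num)
      rw [pow_succ, ← hq]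
      rw [← hq] at ih
      obtain ⟨d, hd⟩ : ∃ d : ℝ, d = κs - 1 / 2 := ⟨_, rfl⟩
      have d0 : 0 < d := by linarith
      have d1 : d * q ≤ d * 1 := mul_le_mul_of_nonneg_left q1 d0.le
      have d2 : 0 < d * q := by positivity
      rw [← hd] at ih ⊢
      have e : κs - d * (q * (3 / 4)) = ((κs - 3 / 2 * (d * q)) + κs) / 2 := by ring
      rw [e]
      exact VB_step hX hN hlim (by linarith) (by linarith) (by linarith) hκs1 hG ih
        (by linarith) (by linarith) (by linarith)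
  have hlim2 : Tendsto (fun j : ℕ => κs - (κs - 1 / 2) * ((3 : ℝ) / 4) ^ j) atTop (𝓝 κs) := by
    have h1 := tendsto_pow_atTop_nhds_zero_of_lt_one (r := (3 : ℝ) / 4) (by norm_num) (by norm_num)
    have h2 := (tendsto_const_nhds (x := κs)).sub (h1.const_mul (κs - 1 / 2))
    rwa [mul_zero, sub_zero] at h2
  obtain ⟨j, hj⟩ := (hlim2.eventually (lt_mem_nhds hk)).exists
  exact VB_mono (le_of_lt hj) (hmain j)

end

end

end Pool.Agent.J4.H89.BK
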