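import Pool.Agent.J4.H89.BK.Law1

set_option autoImplicit false
open MeasureTheory ProbabilityTheory Filter Set
open scoped ENNReal Topology

/-!
# Averages over the binary digits of independent exponential variables (helper89)
-/

namespace Pool.Agent.J4.H89.BK

open Function

theorem Ex_append {ι : Type} [DecidableEq ι] {p : ι → ℝ} (l1 l2 : List ι)
    (f : (ι → Bool) → ℝ) : Ex p (l1 ++ l2) f = Ex p l1 (Ex p l2 f) := by
  induction l1 with
  | nil => rfl
  | cons i l ih =>
    show Av p i (Ex p (l ++ l2) f) = Av p i (Ex p l (Ex p l2 f))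
    rw [ih]

variable {α : Type} [DecidableEq α]

/-- the law of the digits -/
noncomputable def pr (r : ℝ) (i : α × ℕ) : ℝ := r ^ (2 ^ i.2) / (1 + r ^ (2 ^ i.2))

theorem pr_ok {r : ℝ} (h0 : 0 < r) (h1 : r < 1) : Ok (pr (α := α) r) := by
  intro i
  have h2 : 0 < r ^ (2 ^ i.2) := by positivity
  have h3 : r ^ (2 ^ i.2) ≤ 1 := pow_le_one₀ h0.le h1.le
  unfold pr
  refine ⟨by positivity, ?_⟩
  rw [div_le_div_iff₀ (by positivity) two_pos]
  linarith

/-- the digits of the edge `e` -/
def blk (L : ℕ) (e : α) : List (α × ℕ) := (List.range L).map fun k => (e, k)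

/-- replace the digits of `e` by those of `j` -/
def ovj (e : α) (L j : ℕ) (b : α × ℕ → Bool) : α × ℕ → Bool := fun i =>
  if i.1 = e ∧ i.2 < L then Nat.testBit j i.2 else b i

theorem ovj_mod (e : α) (L j : ℕ) (b : α × ℕ → Bool) : ovj e L (j % 2 ^ L) b = ovj e L j b := by
  funext i
  unfold ovj
  by_cases h : i.1 = e ∧ i.2 < L
  · rw [if_pos h, if_pos h, Nat.testBit_mod_two_pow]
    simp [h.2]
  · rw [if_neg h, if_neg h]

theorem blk_sum {r : ℝ} (h0 : 0 < r) (h1 : r < 1) (e : α) (L : ℕ) (f : (α × ℕ → Bool) → ℝ)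
    (b : α × ℕ → Bool) :
    Ex (pr r) (blk L e) f b = ∑ j ∈ Finset.range (2 ^ L),
      ((1 - r) * r ^ j / (1 - r ^ (2 ^ L))) * f (ovj e L j b) := by
  induction L generalizing f with
  | zero =>
    have e1 : ovj e 0 0 b = b := by
      funext i; unfold ovj; simp
    have h2 : 1 - r ≠ 0 := by linarith
    simp only [pow_zero, Finset.range_one, Finset.sum_singleton, mul_one, pow_one, e1]
    rw [div_self h2, one_mul]
    rfl
  | succ L ih =>
    have hb : blk (L + 1) e = blk L e ++ [(e, L)] := by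
      unfold blk
      rw [List.range_succ, List.map_append]
      rfl
    rw [hb, Ex_append]
    show Ex (pr r) (blk L e) (Av (pr r) (e, L) f) b = _
    rw [ih, pow_succ, mul_two, Finset.sum_range_add, ← Finset.sum_add_distrib]
    refine Finset.sum_congr rfl fun j hj => ?_
    have hj' : j < 2 ^ L := Finset.mem_range.1 hj
    have e1 : update (ovj e L j b) (e, L) false = ovj e (L + 1) j b := by
      funext i
      by_cases hi : i = (e, L)
      · subst hi
        simp [ovj, Nat.testBit_lt_two_pow hj']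
      · rw [update_of_ne hi]
        unfold ovj
        by_cases h : i.1 = e ∧ i.2 < L
        · rw [if_pos h, if_pos ⟨h.1, by omega⟩]
        · rw [if_neg h, if_neg]
          rintro ⟨h3, h4⟩
          have h5 : i.2 ≠ L := fun h5 => hi (Prod.ext h3 h5)
          exact h ⟨h3, by omega⟩
    have e2 : update (ovj e L j b) (e, L) true = ovj e (L + 1) (2 ^ L + j) b := by
      funext i
      by_cases hi : i = (e, L)
      · subst hi
        simp [ovj, Nat.testBit_two_pow_add_eq, Nat.testBit_lt_two_pow hj']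
      · rw [update_of_ne hi]
        unfold ovj
        by_cases h : i.1 = e ∧ i.2 < L
        · rw [if_pos h, if_pos ⟨h.1, by omega⟩, Nat.testBit_two_pow_add_gt h.2]
        · rw [if_neg h, if_neg]
          rintro ⟨h3, h4⟩
          have h5 : i.2 ≠ L := fun h5 => hi (Prod.ext h3 h5)
          exact h ⟨h3, by omega⟩
    unfold Av
    rw [e1, e2]
    have hp : pr r (e, L) = r ^ (2 ^ L) / (1 + r ^ (2 ^ L)) := rfl
    rw [hp]
    set R := r ^ (2 ^ L) with hR
    have hR0 : 0 < R := by positivity
    have hR1 : R < 1 := pow_lt_one₀ h0.le h1 (by positivity)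
    have hR2 : r ^ (2 ^ L + 2 ^ L) = R * R := by rw [pow_add]
    have hR3 : r ^ (2 ^ L + j) = R * r ^ j := by rw [pow_add]
    rw [hR2, hR3]
    have h3 : 1 - R ≠ 0 := by linarith
    have h4 : 1 + R ≠ 0 := by linarith
    have h5 : 1 - R * R ≠ 0 := by
      have : 1 - R * R = (1 - R) * (1 + R) := by ring
      rw [this]; exact mul_ne_zero h3 h4
    have h6 : 1 - R * R = (1 - R) * (1 + R) := by ring
    rw [h6]
    field_simp
    ring

/-- replace the digits of the members of `l` by those of `s x` -/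
noncomputable def ov (s : ℝ) (L : ℕ) (l : List α) (x : α → ℝ) (b : α × ℕ → Bool) :
    α × ℕ → Bool := fun i => if i.1 ∈ l ∧ i.2 < L then Nat.testBit ⌊s * x i.1⌋₊ i.2 else b i

theorem ov_cons (s : ℝ) (L : ℕ) (e : α) (l : List α) (he : e ∉ l) (x : α → ℝ)
    (b : α × ℕ → Bool) : ov s L (e :: l) x b = ov s L l x (ovj e L (⌊s * x e⌋₊ % 2 ^ L) b) := by
  rw [ovj_mod]
  funext i
  unfold ov ovj
  by_cases h1 : i.1 ∈ l ∧ i.2 < L
  · rw [if_pos h1, if_pos ⟨List.mem_cons_of_mem _ h1.1, h1.2⟩]
  · rw [if_neg h1]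
    by_cases h2 : i.1 = e ∧ i.2 < L
    · rw [if_pos h2, if_pos ⟨by rw [h2.1]; exact List.mem_cons_self, h2.2⟩, h2.1]
    · rw [if_neg h2, if_neg]
      rintro ⟨h3, h4⟩
      rcases List.mem_cons.1 h3 with h5 | h5
      · exact h2 ⟨h5, h4⟩
      · exact h1 ⟨h5, h4⟩

theorem ov_bdd (s : ℝ) (L : ℕ) (l : List α) (hl : l.Nodup) (f : (α × ℕ → Bool) → ℝ)
    (b : α × ℕ → Bool) : ∃ C : ℝ, ∀ x, |f (ov s L l x b)| ≤ C := by
  induction l generalizing b with
  | nil =>
    refine ⟨|f b|, fun x => ?_⟩
    have : ov s L [] x b = b := by funext i; simp [ov]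
    rw [this]
  | cons e l ih =>
    obtain ⟨he, hl'⟩ := List.nodup_cons.1 hl
    choose C hC using fun j : ℕ => ih hl' (ovj e L j b)
    refine ⟨∑ j ∈ Finset.range (2 ^ L), |C j|, fun x => ?_⟩
    rw [ov_cons s L e l he]
    refine (hC _ x).trans ((le_abs_self _).trans ?_)
    exact Finset.single_le_sum (f := fun j => |C j|) (fun _ _ => abs_nonneg _)
      (Finset.mem_range.2 (Nat.mod_lt _ (by positivity)))

theorem ov_meas (s : ℝ) (L : ℕ) (l : List α) (f : (α × ℕ → Bool) → ℝ)
    (b : α × ℕ → Bool) : ∃ g : ((l.toFinset) → ℝ) → ℝ, Measurable g ∧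
      ∀ x, f (ov s L l x b) = g (fun e => x e) := by
  classical
  set g' : ((l.toFinset) → ℕ) → ℝ := fun w => f fun i =>
    if h : i.1 ∈ l ∧ i.2 < L then Nat.testBit (w ⟨i.1, List.mem_toFinset.2 h.1⟩) i.2 else b i with hg
  have hg'm : Measurable g' := Measurable.of_discrete
  refine ⟨fun w => g' fun e => ⌊s * w e⌋₊, hg'm.comp (measurable_pi_iff.2 fun e =>
    Nat.measurable_floor.comp (measurable_const.mul (measurable_pi_apply e))), fun x => ?_⟩
  show f _ = f _
  congr 1

/-- averages over independent exponential variables -/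
theorem transfer {Ω : Type} [MeasurableSpace Ω] (P : Measure Ω) [IsProbabilityMeasure P]
    (X : α → Ω → ℝ) (hm : ∀ e, Measurable (X e)) (hi : iIndepFun X P)
    (hlaw : ∀ e, P.map (X e) = expMeasure 1) {s : ℝ} (hs : 0 < s) (L : ℕ) (l : List α)
    (hl : l.Nodup) (f : (α × ℕ → Bool) → ℝ) (b : α × ℕ → Bool) :
    ∫ ω, f (ov s L l (fun e => X e ω) b) ∂P =
      Ex (pr (Real.exp (-(1 / s)))) (l.flatMap (blk L)) f b := by
  have hr0 : 0 < Real.exp (-(1 / s)) := Real.exp_pos _
  have hr1 : Real.exp (-(1 / s)) < 1 := by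
    rw [Real.exp_lt_one_iff]
    have : 0 < 1 / s := by positivity
    linarith
  induction l generalizing b with
  | nil =>
    have : ∀ ω, ov s L [] (fun e => X e ω) b = b := by
      intro ω; funext i; simp [ov]
    simp_rw [this]
    rw [integral_const, probReal_univ, one_smul]
    rfl
  | cons e l ih =>
    obtain ⟨he, hl'⟩ := List.nodup_cons.1 hl
    rw [List.flatMap_cons, Ex_append, blk_sum hr0 hr1]
    have hpt : ∀ ω, f (ov s L (e :: l) (fun e => X e ω) b) = ∑ j ∈ Finset.range (2 ^ L),
        ({y : ℝ | ⌊s * y⌋₊ % 2 ^ L = j}.indicator (fun _ => (1 : ℝ)) (X e ω)) *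
          f (ov s L l (fun e => X e ω) (ovj e L j b)) := by
      intro ω
      rw [ov_cons s L e l he, Finset.sum_eq_single (⌊s * X e ω⌋₊ % 2 ^ L)]
      · rw [indicator_of_mem (by simp), one_mul]
      · intro j _ hj
        rw [indicator_of_notMem (by
          simp only [mem_ofPred_eq]
          exact fun h => hj h.symm), zero_mul]
      · intro h
        exact absurd (Finset.mem_range.2 (Nat.mod_lt _ (by positivity))) h
    simp_rw [hpt]
    have hset : ∀ j : ℕ, MeasurableSet {y : ℝ | ⌊s * y⌋₊ % 2 ^ L = j} := fun j =>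
      measurableSet_eq_fun ((Measurable.of_discrete (f := fun n : ℕ => n % 2 ^ L)).comp
        (Nat.measurable_floor.comp (measurable_const.mul measurable_id))) measurable_const
    have hind : IndepFun (fun ω => X e ω) (fun ω (e' : l.toFinset) => X e' ω) P := by
      have h1 := hi.indepFun_finset {e} l.toFinset (by
        rw [Finset.disjoint_singleton_left, List.mem_toFinset]; exact he) hm
      exact h1.comp (measurable_pi_apply (⟨e, Finset.mem_singleton_self e⟩ : ({e} : Finset α)))
        measurable_id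
    have hterm : ∀ j ∈ Finset.range (2 ^ L),
        Integrable (fun ω => ({y : ℝ | ⌊s * y⌋₊ % 2 ^ L = j}.indicator (fun _ => (1 : ℝ)) (X e ω)) *
          f (ov s L l (fun e => X e ω) (ovj e L j b))) P := by
      intro j _
      obtain ⟨C, hC⟩ := ov_bdd s L l hl' f (ovj e L j b)
      obtain ⟨g, hg, hgf⟩ := ov_meas s L l f (ovj e L j b)
      refine Integrable.mono' (integrable_const C) ?_ (Eventually.of_forall fun ω => ?_)
      · refine Measurable.aestronglyMeasurable (Measurable.mul ?_ ?_)
        · exact (measurable_const.indicator (hset j)).comp (hm e)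
        · simp_rw [hgf]
          exact hg.comp (measurable_pi_iff.2 fun e' => hm e')
      · rw [Real.norm_eq_abs, abs_mul]
        have h1 : |({y : ℝ | ⌊s * y⌋₊ % 2 ^ L = j}.indicator (fun _ => (1 : ℝ)) (X e ω))| ≤ 1 := by
          by_cases h : X e ω ∈ {y : ℝ | ⌊s * y⌋₊ % 2 ^ L = j}
          · rw [indicator_of_mem h, abs_one]
          · rw [indicator_of_notMem h, abs_zero]; exact zero_le_one
        calc _ ≤ 1 * C := mul_le_mul h1 (hC _) (abs_nonneg _) zero_le_one
          _ = C := one_mul C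
    rw [integral_finsetSum _ hterm]
    refine Finset.sum_congr rfl fun j hj => ?_
    obtain ⟨g, hg, hgf⟩ := ov_meas s L l f (ovj e L j b)
    have h2 : IndepFun (fun ω => {y : ℝ | ⌊s * y⌋₊ % 2 ^ L = j}.indicator (fun _ => (1 : ℝ)) (X e ω))
        (fun ω => f (ov s L l (fun e => X e ω) (ovj e L j b))) P := by
      have h3 := hind.comp (measurable_const.indicator (hset j) :
        Measurable ({y : ℝ | ⌊s * y⌋₊ % 2 ^ L = j}.indicator (fun _ => (1 : ℝ)))) hg
      have h4 : (fun ω => f (ov s L l (fun e => X e ω) (ovj e L j b))) =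
          g ∘ (fun ω (e' : l.toFinset) => X e' ω) := by
        funext ω; exact hgf _
      rw [h4]
      exact h3
    rw [h2.integral_fun_mul_eq_mul_integral
      ((measurable_const.indicator (hset j)).comp (hm e)).aestronglyMeasurable (by
        simp_rw [hgf]
        exact (hg.comp (measurable_pi_iff.2 fun e' => hm e')).aestronglyMeasurable), ih hl']
    congr 1
    have h5 : ∫ ω, {y : ℝ | ⌊s * y⌋₊ % 2 ^ L = j}.indicator (fun _ => (1 : ℝ)) (X e ω) ∂P =
        (expMeasure 1).real {y : ℝ | ⌊s * y⌋₊ % 2 ^ L = j} := by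
      rw [← hlaw e, ← integral_indicator_one (hset j), integral_map (hm e).aemeasurable]
      · rfl
      · exact (measurable_one.indicator (hset j)).aestronglyMeasurable
    rw [h5]
    exact mod_law hs (by positivity) (Finset.mem_range.1 hj)

end Pool.Agent.J4.H89.BK
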