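import Pool.Agent.J4.H91.FPP.Law
import Pool.Agent.J4.H89.BK.Law2

set_option autoImplicit false
open MeasureTheory ProbabilityTheory Filter Set
open scoped ENNReal Topology

/-!
# Geodesics in integer environments (helper89)
-/

namespace Pool.Agent.J4.H89.BK

open Function
open Pool.Agent.J4.H91.FPP

/-- passage time in an integer environment -/
def tN (y : Sym2 V → ℕ) (n : ℕ) (p : ℕ → V) : ℕ := ∑ i ∈ Finset.range n, y s(p i, p (i + 1))

/-- the first `n` steps of `p` visit different vertices -/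
def Sim (n : ℕ) (p : ℕ → V) : Prop := ∀ i j, i < j → j ≤ n → p i ≠ p j

/-- passage time inside the domain `S` -/
noncomputable def TN (S : V → Prop) (a b : V) (y : Sym2 V → ℕ) : ℕ :=
  sInf {m | ∃ n p, Re S a b n p ∧ tN y n p = m}

variable {S : V → Prop} {a b : V}

theorem TN_le (y : Sym2 V → ℕ) {n : ℕ} {p : ℕ → V} (h : Re S a b n p) : TN S a b y ≤ tN y n p :=
  Nat.sInf_le ⟨n, p, h, rfl⟩

theorem TN_att (hne : ∃ n p, Re S a b n p) (y : Sym2 V → ℕ) :
    ∃ n p, Re S a b n p ∧ tN y n p = TN S a b y := by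
  obtain ⟨n, p, h⟩ := hne
  exact Nat.sInf_mem (s := {m | ∃ n p, Re S a b n p ∧ tN y n p = m}) ⟨_, n, p, h, rfl⟩

theorem tN_split (y : Sym2 V → ℕ) (s m : ℕ) (p : ℕ → V) :
    tN y (s + m) p = tN y s p + tN y m (sh s p) := by
  unfold tN
  rw [Finset.sum_range_add]
  rfl

theorem tN_cat {n m : ℕ} {p q : ℕ → V} (h : p n = q 0) (y : Sym2 V → ℕ) :
    tN y (n + m) (cat n p q) = tN y n p + tN y m q := by
  unfold tN
  rw [Finset.sum_range_add]
  congr 1
  · refine Finset.sum_congr rfl fun i hi => ?_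
    have := Finset.mem_range.1 hi
    rw [cat_le this.le, cat_le (by omega : i + 1 ≤ n)]
  · refine Finset.sum_congr rfl fun i _ => ?_
    rw [cat_add h, add_assoc, cat_add h]

/-- replace a piece of a path -/
theorem Re_cat {c : V} {n m : ℕ} {p q : ℕ → V} (hp : Re S a c n p) (hq : Re S c b m q) :
    Re S a b (n + m) (cat n p q) := by
  obtain ⟨p0, p1, p2, p3⟩ := hp
  obtain ⟨q0, q1, q2, q3⟩ := hq
  have e : p n = q 0 := by rw [p1, q0]
  refine ⟨?_, ?_, stp_cat e p2 q2, cat_forall e p3 q3⟩
  · rw [cat_le (Nat.zero_le _), p0]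
  · rw [cat_add e, q1]

theorem Re_pre {n i : ℕ} {p : ℕ → V} (hp : Re S a b n p) (hi : i ≤ n) : Re S a (p i) i p :=
  ⟨hp.1, rfl, stp_mono hp.2.2.1 hi, fun j hj => hp.2.2.2 j (by omega)⟩

theorem Re_sh {n i m : ℕ} {p : ℕ → V} (hp : Re S a b n p) (hi : i + m ≤ n) :
    Re S (p i) (p (i + m)) m (sh i p) :=
  ⟨rfl, rfl, stp_sh hp.2.2.1 hi, fun j hj => hp.2.2.2 (i + j) (by omega)⟩

/-- there is a simple minimal path -/
theorem geo_ex (hne : ∃ n p, Re S a b n p) (y : Sym2 V → ℕ) :
    ∃ n p, Re S a b n p ∧ tN y n p = TN S a b y ∧ Sim n p := by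
  classical
  have hex : ∃ n, ∃ p, Re S a b n p ∧ tN y n p = TN S a b y := TN_att hne y
  obtain ⟨p, hp, ht⟩ := Nat.find_spec hex
  refine ⟨Nat.find hex, p, hp, ht, fun i j hij hj heq => ?_⟩
  set n := Nat.find hex with hn
  have hR : Re S a b (i + (n - j)) (cat i p (sh j p)) := by
    have h1 : Re S a (p i) i p := Re_pre hp (by omega)
    have h2 : Re S (p j) (p (j + (n - j))) (n - j) (sh j p) := Re_sh hp (by omega)
    have h3 : j + (n - j) = n := by omega
    rw [h3, hp.2.1, ← heq] at h2
    exact Re_cat h1 h2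
  have e : p i = sh j p 0 := heq
  have h4 : tN y (i + (n - j)) (cat i p (sh j p)) ≤ tN y n p := by
    rw [tN_cat e]
    have h5 : tN y n p = tN y j p + tN y (n - j) (sh j p) := by
      rw [← tN_split]; congr 1; omega
    have h6 : tN y j p = tN y i p + tN y (j - i) (sh i p) := by
      rw [← tN_split]; congr 1; omega
    omega
  have h7 : tN y (i + (n - j)) (cat i p (sh j p)) = TN S a b y :=
    le_antisymm (h4.trans ht.le) (TN_le y hR)
  have h8 := Nat.find_min' hex ⟨_, hR, h7⟩
  omega

/-- a minimal simple path -/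
def IsGeo (S : V → Prop) (a b : V) (y : Sym2 V → ℕ) (n : ℕ) (p : ℕ → V) : Prop :=
  Re S a b n p ∧ tN y n p = TN S a b y ∧ Sim n p

open Classical in
/-- the edges of a chosen geodesic -/
noncomputable def GE (S : V → Prop) (a b : V) (y : Sym2 V → ℕ) : Finset (Sym2 V) :=
  if h : ∃ n p, IsGeo S a b y n p then
    (Finset.range h.choose).image fun i =>
      s(h.choose_spec.choose i, h.choose_spec.choose (i + 1)) else ∅

theorem GE_spec (hne : ∃ n p, Re S a b n p) (y : Sym2 V → ℕ) : ∃ n p, IsGeo S a b y n p ∧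
    GE S a b y = (Finset.range n).image fun i => s(p i, p (i + 1)) := by
  classical
  have h : ∃ n p, IsGeo S a b y n p := by
    obtain ⟨n, p, h1, h2, h3⟩ := geo_ex hne y
    exact ⟨n, p, h1, h2, h3⟩
  refine ⟨h.choose, h.choose_spec.choose, h.choose_spec.choose_spec, ?_⟩
  unfold GE
  rw [dif_pos h]

theorem sim_edge {n : ℕ} {p : ℕ → V} (h : Sim n p) {i j : ℕ} (hi : i < n) (hj : j < n)
    (he : s(p i, p (i + 1)) = s(p j, p (j + 1))) : i = j := by
  rcases lt_trichotomy i j with h1 | h1 | h1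
  · rcases Sym2.eq_iff.1 he with ⟨h2, -⟩ | ⟨h2, -⟩
    · exact absurd h2 (h i j h1 hj.le)
    · exact absurd h2 (h i (j + 1) (by omega) (by omega))
  · exact h1
  · rcases Sym2.eq_iff.1 he with ⟨h2, -⟩ | ⟨-, h2⟩
    · exact absurd h2.symm (h j i h1 hi.le)
    · exact absurd h2.symm (h j (i + 1) (by omega) (by omega))

/-- the effect of one edge -/
theorem TN_upd (hne : ∃ n p, Re S a b n p) (y y' : Sym2 V → ℕ) (e : Sym2 V) (δ : ℕ)
    (h : ∀ e', y' e' ≤ y e' + if e' = e then δ else 0) :
    TN S a b y' ≤ TN S a b y + if e ∈ GE S a b y then δ else 0 := by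
  classical
  obtain ⟨n, p, ⟨hR, ht, hs⟩, hG⟩ := GE_spec hne y
  refine (TN_le y' hR).trans ?_
  rw [← ht, hG]
  have h1 : tN y' n p ≤ tN y n p + ∑ i ∈ Finset.range n, if s(p i, p (i + 1)) = e then δ else 0 := by
    unfold tN
    rw [← Finset.sum_add_distrib]
    exact Finset.sum_le_sum fun i _ => h _
  refine h1.trans (Nat.add_le_add_left ?_ _)
  by_cases hex : e ∈ (Finset.range n).image fun i => s(p i, p (i + 1))
  · rw [if_pos hex]
    obtain ⟨i, hi, rfl⟩ := Finset.mem_image.1 hex
    rw [Finset.sum_eq_single i]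
    · rw [if_pos rfl]
    · intro j hj hji
      rw [if_neg]
      intro h2
      exact hji (sim_edge hs (Finset.mem_range.1 hj) (Finset.mem_range.1 hi) h2)
    · intro h2; exact absurd hi h2
  · rw [if_neg hex]
    refine le_of_eq (Finset.sum_eq_zero fun i hi => ?_)
    rw [if_neg]
    intro h2
    exact hex (Finset.mem_image.2 ⟨i, hi, h2⟩)

theorem TN_mono (hne : ∃ n p, Re S a b n p) {y y' : Sym2 V → ℕ} (h : ∀ e, y e ≤ y' e) :
    TN S a b y ≤ TN S a b y' := by
  obtain ⟨n, p, h1, h2⟩ := TN_att hne y'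
  rw [← h2]
  refine (TN_le y h1).trans ?_
  exact Finset.sum_le_sum fun i _ => h _

/-! ### binary digits -/

open Classical in
/-- the environment given by the digits -/
noncomputable def yb (F : Finset (Sym2 V)) (L : ℕ) (b : Sym2 V × ℕ → Bool) : Sym2 V → ℕ := fun e =>
  if e ∈ F then ∑ k ∈ Finset.range L, (if b (e, k) then 2 ^ k else 0) else 0

variable {F : Finset (Sym2 V)} {L : ℕ}

theorem yb_mono {b b' : Sym2 V × ℕ → Bool} (h : b ≤ b') (e : Sym2 V) : yb F L b e ≤ yb F L b' e := by
  classical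
  unfold yb
  split_ifs
  · refine Finset.sum_le_sum fun k _ => ?_
    by_cases h1 : b (e, k) = true
    · have h2 : b' (e, k) = true := by
        have := h (e, k)
        rw [h1] at this
        exact Bool.eq_true_of_true_le this
      rw [if_pos h1, if_pos h2]
    · rw [if_neg h1]; exact Nat.zero_le _
  · exact le_rfl

theorem yb_upd (b : Sym2 V × ℕ → Bool) (e : Sym2 V) (k : ℕ) (e' : Sym2 V) :
    yb F L (update b (e, k) true) e' ≤ yb F L (update b (e, k) false) e' +
      if e' = e then 2 ^ k else 0 := by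
  classical
  unfold yb
  by_cases hF : e' ∈ F
  · rw [if_pos hF, if_pos hF]
    by_cases he : e' = e
    · subst he
      rw [if_pos rfl]
      have h1 : ∀ k' ∈ Finset.range L, (if update b (e', k) true (e', k') then 2 ^ k' else 0) ≤
          (if update b (e', k) false (e', k') then 2 ^ k' else 0) + if k' = k then 2 ^ k else 0 := by
        intro k' _
        by_cases hk : k' = k
        · subst hk
          simp
        · have h2 : (e', k') ≠ (e', k) := fun h => hk (Prod.ext_iff.1 h).2
          rw [update_of_ne h2, update_of_ne h2]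
          exact Nat.le_add_right _ _
      refine (Finset.sum_le_sum h1).trans ?_
      rw [Finset.sum_add_distrib]
      refine Nat.add_le_add_left ?_ _
      rw [Finset.sum_ite_eq']
      split_ifs
      · exact le_rfl
      · exact Nat.zero_le _
    · rw [if_neg he, add_zero]
      refine Finset.sum_le_sum fun k' _ => ?_
      have h2 : (e', k') ≠ (e, k) := fun h => he (Prod.ext_iff.1 h).1
      rw [update_of_ne h2, update_of_ne h2]
  · rw [if_neg hF]; exact Nat.zero_le _

/-- the passage time as a function of the digits -/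
noncomputable def TB (F : Finset (Sym2 V)) (L : ℕ) (S : V → Prop) (a b : V)
    (w : Sym2 V × ℕ → Bool) : ℝ := (TN S a b (yb F L w) : ℝ)

theorem TB_mono (hne : ∃ n p, Re S a b n p) : Monotone (TB F L S a b) := by
  intro w w' h
  unfold TB
  exact_mod_cast TN_mono hne (fun e => yb_mono h e)

open Classical in
theorem TB_df (hne : ∃ n p, Re S a b n p) (e : Sym2 V) (k : ℕ) (w : Sym2 V × ℕ → Bool) :
    |Df (e, k) (TB F L S a b) w| ≤
      2 ^ k * (if e ∈ GE S a b (yb F L (update w (e, k) false)) then 1 else 0) := by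
  have h1 := TN_upd hne (yb F L (update w (e, k) false)) (yb F L (update w (e, k) true)) e (2 ^ k)
    (fun e' => yb_upd w e k e')
  have h2 : TN S a b (yb F L (update w (e, k) false)) ≤ TN S a b (yb F L (update w (e, k) true)) :=
    TN_mono hne (fun e' => yb_mono (update_le_update_iff.2 ⟨Bool.false_le _, fun j _ => le_rfl⟩) e')
  unfold Df TB
  rw [abs_of_nonneg (sub_nonneg.2 (by exact_mod_cast h2)), sub_le_iff_le_add']
  have h3 : ((TN S a b (yb F L (update w (e, k) true)) : ℕ) : ℝ) ≤
      ((TN S a b (yb F L (update w (e, k) false)) +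
        if e ∈ GE S a b (yb F L (update w (e, k) false)) then 2 ^ k else 0 : ℕ) : ℝ) := by
    exact_mod_cast h1
  refine h3.trans (le_of_eq ?_)
  split_ifs <;> simp

end Pool.Agent.J4.H89.BK
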