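import Pool.Agent.J4.H89.BK.Sub

set_option autoImplicit false
open MeasureTheory ProbabilityTheory Filter Set
open scoped ENNReal Topology

/-!
# Positive correlation of passage times; variance of a sum (helper89)
-/

namespace Pool.Agent.J4.H89.BK

open Function
open Pool.Agent.J4.H91.FPP

theorem RR_cor {N M : ℕ} {u v : V} (hu : box N u) (hv : box N v) :
    (∫ x, RR N M u x ∂PP) * (∫ x, RR N M v x ∂PP) ≤ ∫ x, RR N M u x * RR N M v x ∂PP := by
  classical
  obtain ⟨s, hs⟩ : ∃ s : ℝ, s = 2 ^ M := ⟨_, rfl⟩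
  obtain ⟨L, hL⟩ : ∃ L : ℕ, L = 2 * M := ⟨_, rfl⟩
  have hs0 : 0 < s := by rw [hs]; positivity
  set l := (FN N).toList with hl
  have hnd : l.Nodup := Finset.nodup_toList _
  set w0 : Sym2 V × ℕ → Bool := fun _ => false with hw0
  have htr : ∀ g : (Sym2 V × ℕ → Bool) → ℝ, ∫ x, g (ov s L l x w0) ∂PP =
      Ex (pr (Real.exp (-(1 / s)))) (l.flatMap (blk L)) g w0 := by
    intro g
    exact transfer PP (fun e (x : En) => x e) (fun e => measurable_pi_apply e) ind_can
      (fun e => Measure.infinitePi_map_eval (fun _ : Sym2 V => expMeasure 1) e) hs0 L l hnd g w0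
  have hr0 : 0 < Real.exp (-(1 / s)) := Real.exp_pos _
  have hr1 : Real.exp (-(1 / s)) < 1 := by
    rw [Real.exp_lt_one_iff]
    have : 0 < 1 / s := by positivity
    linarith
  have hmem : ∀ e ∈ FN N, e ∈ l := fun e he => Finset.mem_toList.2 he
  have hR : ∀ (v : V) (x : En), RR N M v x = TB (FN N) L (box N) 0 v (ov s L l x w0) / s := by
    intro v x
    unfold RR TB
    rw [yb_ov hmem, hs, hL]
  have hdiv : ∀ v : V, Monotone (fun w => TB (FN N) L (box N) 0 v w) → 
      Monotone (fun w => TB (FN N) L (box N) 0 v w / s) := fun v h w w' hww =>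
    div_le_div_of_nonneg_right (h hww) hs0.le
  have h1 := harris (pr_ok hr0 hr1) (l.flatMap (blk L))
    (hdiv u (TB_mono (box_ne (box_zero N) hu))) (hdiv v (TB_mono (box_ne (box_zero N) hv))) w0
  rw [← htr, ← htr, ← htr] at h1
  simp_rw [hR]
  exact h1

theorem prod_lim {f g : ℕ → En → ℝ} {f' g' h k : En → ℝ} (hf : ∀ n, Measurable (f n))
    (hg : ∀ n, Measurable (g n)) (hh : MemLp h 2 PP) (hk : MemLp k 2 PP)
    (hfb : ∀ᶠ n in atTop, ∀ᵐ x ∂PP, |f n x| ≤ h x) (hgb : ∀ᶠ n in atTop, ∀ᵐ x ∂PP, |g n x| ≤ k x)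
    (hfl : ∀ᵐ x ∂PP, Tendsto (fun n => f n x) atTop (𝓝 (f' x)))
    (hgl : ∀ᵐ x ∂PP, Tendsto (fun n => g n x) atTop (𝓝 (g' x)))
    (hc : ∀ᶠ n in atTop, (∫ x, f n x ∂PP) * (∫ x, g n x ∂PP) ≤ ∫ x, f n x * g n x ∂PP) :
    (∫ x, f' x ∂PP) * (∫ x, g' x ∂PP) ≤ ∫ x, f' x * g' x ∂PP := by
  have h1 : ∀ {f : ℕ → En → ℝ} {f' h : En → ℝ}, (∀ n, Measurable (f n)) → MemLp h 2 PP →
      (∀ᶠ n in atTop, ∀ᵐ x ∂PP, |f n x| ≤ h x) →
      (∀ᵐ x ∂PP, Tendsto (fun n => f n x) atTop (𝓝 (f' x))) →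
      Tendsto (fun n => ∫ x, f n x ∂PP) atTop (𝓝 (∫ x, f' x ∂PP)) := by
    intro f f' h hf hh hb hl
    refine tendsto_integral_filter_of_dominated_convergence h
      (Eventually.of_forall fun n => (hf n).aestronglyMeasurable) ?_
      (hh.integrable (by norm_num)) hl
    filter_upwards [hb] with n hn
    filter_upwards [hn] with x hx
    exact hx
  have h2 : Tendsto (fun n => ∫ x, f n x * g n x ∂PP) atTop (𝓝 (∫ x, f' x * g' x ∂PP)) := by
    refine tendsto_integral_filter_of_dominated_convergence (fun x => h x * k x)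
      (Eventually.of_forall fun n => ((hf n).mul (hg n)).aestronglyMeasurable) ?_
      (hh.integrable_mul hk) ?_
    · filter_upwards [hfb, hgb] with n hn hn'
      filter_upwards [hn, hn'] with x hx hx'
      rw [Real.norm_eq_abs, abs_mul]
      exact mul_le_mul hx hx' (abs_nonneg _) ((abs_nonneg _).trans hx)
    · filter_upwards [hfl, hgl] with x hx hx'
      exact hx.mul hx'
  exact le_of_tendsto_of_tendsto ((h1 hf hh hfb hfl).mul (h1 hg hk hgb hgl)) h2 hc

/-- passage times are positively correlated -/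
theorem dR_cor (u v : V) : hh u * hh v ≤ ∫ x, dR 0 u x * dR 0 v x ∂PP := by
  have hT : ∀ᶠ N : ℕ in atTop, (∫ x, TR N u x ∂PP) * (∫ x, TR N v x ∂PP) ≤
      ∫ x, TR N u x * TR N v x ∂PP := by
    filter_upwards [box_ev u, box_ev v] with N hNu hNv
    have hb : ∀ (w : V), box N w → ∀ᶠ M : ℕ in atTop, ∀ᵐ x ∂PP,
        |RR N M w x| ≤ tR x (dst 0 w) (LP 0 w) := by
      intro w hw
      refine Eventually.of_forall fun M => ?_
      filter_upwards [ae_nonneg] with x hx
      rw [abs_of_nonneg (RR_nonneg N M w x)]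
      exact (RR_le_TR hw hx).trans (TR_le hx (LP_re (box_zero N) hw))
    refine prod_lim (fun M => RR_meas N M u) (fun M => RR_meas N M v) (tR_memLp _ _)
      (tR_memLp _ _) (hb u hNu) (hb v hNv) ?_ ?_ (Eventually.of_forall fun M => RR_cor hNu hNv)
    · filter_upwards [ae_nonneg] with x hx
      exact RR_tendsto hNu hx
    · filter_upwards [ae_nonneg] with x hx
      exact RR_tendsto hNv hx
  have hb : ∀ (w : V), ∀ᶠ N : ℕ in atTop, ∀ᵐ x ∂PP, |TR N w x| ≤ tR x (dst 0 w) (LP 0 w) := by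
    intro w
    filter_upwards [box_ev w] with N hw
    filter_upwards [ae_nonneg] with x hx
    rw [abs_of_nonneg (TR_nonneg N w x)]
    exact TR_le hx (LP_re (box_zero N) hw)
  refine prod_lim (fun M => TR_meas M u) (fun M => TR_meas M v) (tR_memLp _ _)
    (tR_memLp _ _) (hb u) (hb v) ?_ ?_ hT
  · filter_upwards [ae_nonneg] with x hx
    exact TR_tendsto u hx
  · filter_upwards [ae_nonneg] with x hx
    exact TR_tendsto v hx

/-! ### Minkowski for square integrable functions -/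

theorem cs_int {f g : En → ℝ} (hf : MemLp f 2 PP) (hg : MemLp g 2 PP) :
    (∫ x, f x * g x ∂PP) ^ 2 ≤ (∫ x, f x ^ 2 ∂PP) * ∫ x, g x ^ 2 ∂PP := by
  have i1 : Integrable (fun x => f x ^ 2) PP := hf.integrable_sq
  have i2 : Integrable (fun x => g x ^ 2) PP := hg.integrable_sq
  have i3 : Integrable (fun x => f x * g x) PP := hf.integrable_mul hg
  have h : ∀ t : ℝ, 0 ≤ (∫ x, g x ^ 2 ∂PP) * (t * t) + (2 * ∫ x, f x * g x ∂PP) * t +
      ∫ x, f x ^ 2 ∂PP := by
    intro t
    have h1 : 0 ≤ ∫ x, (f x + t * g x) ^ 2 ∂PP := integral_nonneg fun x => sq_nonneg _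
    have h2 : (fun x => (f x + t * g x) ^ 2) = fun x => (f x ^ 2 + (2 * t) * (f x * g x)) +
        (t * t) * (g x ^ 2) := by
      funext x; ring
    have i4 : Integrable (fun x => f x ^ 2 + (2 * t) * (f x * g x)) PP := i1.add (i3.const_mul _)
    rw [h2, integral_add i4 (i2.const_mul _), integral_add i1 (i3.const_mul _),
      integral_const_mul, integral_const_mul] at h1
    linarith
  have h3 := discrim_le_zero h
  unfold discrim at h3
  nlinarith

theorem mink {f g : En → ℝ} (hf : MemLp f 2 PP) (hg : MemLp g 2 PP) :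
    Real.sqrt (∫ x, (f x + g x) ^ 2 ∂PP) ≤
      Real.sqrt (∫ x, f x ^ 2 ∂PP) + Real.sqrt (∫ x, g x ^ 2 ∂PP) := by
  have i1 : Integrable (fun x => f x ^ 2) PP := hf.integrable_sq
  have i2 : Integrable (fun x => g x ^ 2) PP := hg.integrable_sq
  have i3 : Integrable (fun x => f x * g x) PP := hf.integrable_mul hg
  set A := ∫ x, f x ^ 2 ∂PP with hA
  set B := ∫ x, g x ^ 2 ∂PP with hB
  have hA0 : 0 ≤ A := integral_nonneg fun x => sq_nonneg _
  have hB0 : 0 ≤ B := integral_nonneg fun x => sq_nonneg _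
  have h1 : ∫ x, f x * g x ∂PP ≤ Real.sqrt A * Real.sqrt B := by
    rw [← Real.sqrt_mul hA0]
    exact (le_abs_self _).trans (Real.abs_le_sqrt (cs_int hf hg))
  have h2 : (fun x => (f x + g x) ^ 2) = fun x => (f x ^ 2 + 2 * (f x * g x)) + g x ^ 2 := by
    funext x; ring
  have i4 : Integrable (fun x => f x ^ 2 + 2 * (f x * g x)) PP := i1.add (i3.const_mul _)
  rw [h2, integral_add i4 i2, integral_add i1 (i3.const_mul _), integral_const_mul]
  refine Real.sqrt_le_iff.2 ⟨by positivity, ?_⟩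
  have h3 : (Real.sqrt A + Real.sqrt B) ^ 2 = A + B + 2 * (Real.sqrt A * Real.sqrt B) := by
    rw [add_sq, Real.sq_sqrt hA0, Real.sq_sqrt hB0]; ring
  rw [h3]
  linarith

/-! ### the defect of additivity -/

theorem hh_neg (v : V) : hh (-v) = hh v := by
  have h1 := int_shift (-v) 0
  rw [sub_neg_eq_add, zero_add] at h1
  rw [← h1]
  unfold hh
  refine integral_congr_ae (Eventually.of_forall fun x => ?_)
  exact dR_comm _ _ _

/-- the defect -/
noncomputable def Dd (v : V) (x : En) : ℝ := dR 0 v x + dR 0 (-v) x - dR (-v) v x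

theorem Dd_nonneg (v : V) (x : En) : 0 ≤ Dd v x := by
  have h := dR_tri (-v) 0 v x
  rw [dR_comm (-v) 0] at h
  unfold Dd
  linarith

theorem sqm_shift (a b : V) : ∫ x, (dR a b x - hh (b - a)) ^ 2 ∂PP = sqm (b - a) := by
  have h1 : ∀ x, dR a b x = dR 0 (b - a) (shE a x) := fun x => dR_shift a b x
  simp_rw [h1]
  exact int_shE (f := fun x => (dR 0 (b - a) x - hh (b - a)) ^ 2)
    (((dR_meas 0 (b - a)).sub_const _).pow_const 2).aestronglyMeasurable a

theorem sqm_neg (v : V) : sqm (-v) = sqm v := by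
  have h1 := sqm_shift (-v) 0
  rw [zero_sub, neg_neg] at h1
  rw [← h1]
  unfold sqm
  refine integral_congr_ae (Eventually.of_forall fun x => ?_)
  show (dR 0 (-v) x - hh (-v)) ^ 2 = (dR (-v) 0 x - hh v) ^ 2
  rw [dR_comm, hh_neg]

theorem memLp_dR2 (a b : V) : MemLp (dR a b) 2 PP := by
  have h : MemLp (dR 0 (b - a)) 2 (Measure.map (shE a) PP) := by rw [shE_map]; exact memLp_dR _
  have h2 := h.comp_of_map (shE_meas a).aemeasurable
  have e : dR a b = dR 0 (b - a) ∘ shE a := by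
    funext x; exact dR_shift a b x
  rw [e]
  exact h2

theorem Dd_memLp (v : V) : MemLp (Dd v) 2 PP :=
  ((memLp_dR v).add (memLp_dR (-v))).sub (memLp_dR2 (-v) v)

theorem Dd_int (v : V) : ∫ x, Dd v x ∂PP = 2 * hh v - hh (v + v) := by
  unfold Dd
  have i1 : Integrable (fun x => dR 0 v x + dR 0 (-v) x) PP := (dR_int 0 v).add (dR_int 0 (-v))
  rw [integral_sub i1 (dR_int (-v) v), integral_add (dR_int 0 v) (dR_int 0 (-v)), int_shift,
    int_shift, int_shift, sub_zero, sub_zero, sub_neg_eq_add, hh_neg]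
  ring

/-- the variance of the sum -/
theorem sum_var (v : V) : 2 * sqm v ≤ ∫ x, (dR 0 v x + dR 0 (-v) x - 2 * hh v) ^ 2 ∂PP := by
  have hc := dR_cor v (-v)
  rw [hh_neg] at hc
  have m1 := (memLp_dR v).sub (memLp_const (μ := PP) (p := 2) (hh v))
  have m2 := (memLp_dR (-v)).sub (memLp_const (μ := PP) (p := 2) (hh v))
  have i1 : Integrable (fun x => (dR 0 v x - hh v) ^ 2) PP := m1.integrable_sq
  have i2 : Integrable (fun x => (dR 0 (-v) x - hh v) ^ 2) PP := m2.integrable_sq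
  have i3 : Integrable (fun x => dR 0 v x * dR 0 (-v) x) PP :=
    (memLp_dR v).integrable_mul (memLp_dR (-v))
  have i4 : Integrable (fun x => hh v * dR 0 v x) PP := (dR_int 0 v).const_mul _
  have i5 : Integrable (fun x => hh v * dR 0 (-v) x) PP := (dR_int 0 (-v)).const_mul _
  have e : (fun x => (dR 0 v x + dR 0 (-v) x - 2 * hh v) ^ 2) = fun x =>
      ((dR 0 v x - hh v) ^ 2 + (dR 0 (-v) x - hh v) ^ 2) +
        2 * (((dR 0 v x * dR 0 (-v) x - hh v * dR 0 v x) - hh v * dR 0 (-v) x) + hh v ^ 2) := by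
    funext x; ring
  have i6 : Integrable (fun x => (dR 0 v x - hh v) ^ 2 + (dR 0 (-v) x - hh v) ^ 2) PP := i1.add i2
  have i7 : Integrable (fun x => dR 0 v x * dR 0 (-v) x - hh v * dR 0 v x) PP := i3.sub i4
  have i8 : Integrable (fun x => (dR 0 v x * dR 0 (-v) x - hh v * dR 0 v x) -
    hh v * dR 0 (-v) x) PP := i7.sub i5
  have i9 : Integrable (fun x => ((dR 0 v x * dR 0 (-v) x - hh v * dR 0 v x) -
    hh v * dR 0 (-v) x) + hh v ^ 2) PP := i8.add (integrable_const _)
  rw [e, integral_add i6 (i9.const_mul 2), integral_add i1 i2, integral_const_mul,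
    integral_add i8 (integrable_const _), integral_sub i7 i5, integral_sub i3 i4,
    integral_const_mul, integral_const_mul, integral_const, probReal_univ, one_smul]
  have e1 : ∫ x, (dR 0 v x - hh v) ^ 2 ∂PP = sqm v := rfl
  have e2 : ∫ x, (dR 0 (-v) x - hh v) ^ 2 ∂PP = sqm v := by
    rw [← sqm_neg v]
    unfold sqm
    rw [hh_neg]
  have e3 : ∫ x, dR 0 v x ∂PP = hh v := rfl
  have e4 : ∫ x, dR 0 (-v) x ∂PP = hh v := by
    rw [← hh_neg v]; rfl
  rw [e1, e2, e3, e4]
  nlinarith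

/-- the main inequality -/
theorem main_ineq (v : V) : Real.sqrt 2 * Real.sqrt (sqm v) ≤
    Real.sqrt (sqm (v + v)) + Real.sqrt (∫ x, Dd v x ^ 2 ∂PP) := by
  set c := 2 * hh v - hh (v + v) with hc
  have m1 : MemLp (fun x => dR (-v) v x - hh (v + v)) 2 PP :=
    (memLp_dR2 (-v) v).sub (memLp_const _)
  have m2 : MemLp (fun x => Dd v x - c) 2 PP := (Dd_memLp v).sub (memLp_const _)
  have h1 := mink m1 m2
  have e1 : (fun x => ((dR (-v) v x - hh (v + v)) + (Dd v x - c)) ^ 2) =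
      fun x => (dR 0 v x + dR 0 (-v) x - 2 * hh v) ^ 2 := by
    funext x
    unfold Dd
    rw [hc]; ring
  rw [e1] at h1
  have e2 : ∫ x, (dR (-v) v x - hh (v + v)) ^ 2 ∂PP = sqm (v + v) := by
    have := sqm_shift (-v) v
    rw [sub_neg_eq_add] at this
    exact this
  rw [e2] at h1
  have h2 : ∫ x, (Dd v x - c) ^ 2 ∂PP ≤ ∫ x, Dd v x ^ 2 ∂PP := by
    have i1 : Integrable (fun x => Dd v x ^ 2) PP := (Dd_memLp v).integrable_sq
    have i2 : Integrable (fun x => 2 * c * Dd v x) PP :=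
      ((Dd_memLp v).integrable (by norm_num)).const_mul _
    have i3 : Integrable (fun x => Dd v x ^ 2 - 2 * c * Dd v x) PP := i1.sub i2
    have e : (fun x => (Dd v x - c) ^ 2) = fun x => (Dd v x ^ 2 - 2 * c * Dd v x) + c ^ 2 := by
      funext x; ring
    rw [e, integral_add i3 (integrable_const _), integral_sub i1 i2, integral_const_mul,
      integral_const, probReal_univ, one_smul, Dd_int, ← hc]
    nlinarith [sq_nonneg c]
  rw [← Real.sqrt_mul zero_le_two]
  refine (Real.sqrt_le_sqrt (sum_var v)).trans (h1.trans ?_)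
  exact add_le_add le_rfl (Real.sqrt_le_sqrt h2)

end Pool.Agent.J4.H89.BK
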