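import Pool.Agent.J4.H89.BK.Fin

set_option autoImplicit false
open MeasureTheory ProbabilityTheory Filter Set
open scoped ENNReal Topology

/-!
# Mean passage times and convex hulls (helper89)
-/

namespace Pool.Agent.J4.H89.BK

open Function
open Pool.Agent.J4.H91.FPP
open Pool.Agent.N662.FP hiding em

/-- the embedding as a homomorphism -/
noncomputable def emH : V →+ ℝ × ℝ where
  toFun := em
  map_zero' := by rw [em_def]; simp
  map_add' := em_add

theorem hh_sum {ι : Type*} (s : Finset ι) (k : ι → ℕ) (q : ι → V) :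
    hh (∑ i ∈ s, (k i : ℤ) • q i) ≤ ∑ i ∈ s, (k i : ℝ) * hh (q i) := by
  classical
  induction s using Finset.induction_on with
  | empty => simp [hh_zero]
  | insert a s ha ih =>
    rw [Finset.sum_insert ha, Finset.sum_insert ha]
    refine (hh_sub _ _).trans (add_le_add (hh_nsmul _ _) ih)

section
variable {μ : Seminorm ℝ (ℝ × ℝ)} {c0 C0 κ κ1 A : ℝ}

theorem cara {Q : Set V} {r1 r2 : ℝ} (hge : ∀ v : V, μ (em v) ≤ hh v)
    (hQ : ∀ q ∈ Q, hh q ≤ r2) (hr1 : 0 < r1) {v : V} (hv : 0 < μ (em v))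
    (hx : (r1 / μ (em v)) • em v ∈ convexHull ℝ (em '' Q)) :
    ∃ z : V, μ (em z) ≤ 3 * r2 ∧
      hh v - μ (em v) ≤ μ (em v) * (r2 / r1 - 1) + (hh z - μ (em z)) := by
  classical
  obtain ⟨ι, hι, z, w, hz, haff, hw, hsum, hx⟩ := eq_pos_convex_span_of_mem_convexHull hx
  have hcard : (Fintype.card ι : ℝ) ≤ 3 := by
    have h1 := haff.card_le_finrank_succ
    have h2 : Module.finrank ℝ (vectorSpan ℝ (range z)) ≤ Module.finrank ℝ (ℝ × ℝ) :=
      Submodule.finrank_le _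
    have h3 : Module.finrank ℝ (ℝ × ℝ) = 2 := by
      rw [Module.finrank_prod, Module.finrank_self]
    have h4 : Fintype.card ι ≤ 3 := by omega
    exact_mod_cast h4
  have hq : ∀ i, ∃ q ∈ Q, em q = z i := fun i => by
    obtain ⟨q, h1, h2⟩ := hz ⟨i, rfl⟩
    exact ⟨q, h1, h2⟩
  choose q hqQ hqz using hq
  obtain ⟨n, hn⟩ : ∃ n : ℝ, n = μ (em v) := ⟨_, rfl⟩
  rw [← hn] at hv hx ⊢
  obtain ⟨c, hc⟩ : ∃ c : ℝ, c = n / r1 := ⟨_, rfl⟩
  have hc0 : 0 < c := by rw [hc]; positivity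
  have hci : ∀ i, 0 ≤ c * w i := fun i => by have := hw i; positivity
  have hr2 : 0 ≤ r2 := by
    have : Nonempty ι := by
      by_contra h
      rw [not_nonempty_iff] at h
      rw [Finset.univ_eq_empty, Finset.sum_empty] at hsum
      exact zero_ne_one hsum
    obtain ⟨i⟩ := this
    exact (hh_nonneg (q i)).trans (hQ _ (hqQ i))
  set k : ι → ℕ := fun i => ⌊c * w i⌋₊ with hk
  have hk1 : ∀ i, (k i : ℝ) ≤ c * w i := fun i => Nat.floor_le (hci i)
  have hk2 : ∀ i, c * w i - k i ≤ 1 := fun i => by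
    have := Nat.lt_floor_add_one (c * w i)
    linarith
  obtain ⟨y, hy⟩ : ∃ y : V, y = v - ∑ i, (k i : ℤ) • q i := ⟨_, rfl⟩
  have hvc : em v = ∑ i, (c * w i) • em (q i) := by
    have h1 : em v = c • ((r1 / n) • em v) := by
      rw [smul_smul, hc]
      have : n / r1 * (r1 / n) = 1 := by field_simp
      rw [this, one_smul]
    rw [h1, ← hx, Finset.smul_sum]
    refine Finset.sum_congr rfl fun i _ => ?_
    rw [smul_smul, hqz]
  have hsumk : em (∑ i, (k i : ℤ) • q i) = ∑ i, (k i : ℝ) • em (q i) := by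
    have h1 : em (∑ i, (k i : ℤ) • q i) = emH (∑ i, (k i : ℤ) • q i) := rfl
    rw [h1, map_sum]
    refine Finset.sum_congr rfl fun i _ => ?_
    rw [map_zsmul]
    show ((k i : ℕ) : ℤ) • em (q i) = _
    rw [natCast_zsmul, Nat.cast_smul_eq_nsmul]
  have hyy : em y = ∑ i, (c * w i - k i) • em (q i) := by
    have h1 : em y = em v - em (∑ i, (k i : ℤ) • q i) := by
      rw [hy, sub_eq_add_neg, em_add, em_neg, sub_eq_add_neg]
    rw [h1, hsumk, hvc, ← Finset.sum_sub_distrib]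
    refine Finset.sum_congr rfl fun i _ => ?_
    rw [sub_smul]
  have hmu : μ (em y) ≤ ∑ i, (c * w i - k i) * r2 := by
    rw [hyy]
    refine (Finset.le_sum_of_subadditive μ (map_zero μ).le (fun a b => map_add_le_add μ a b)
      _ _).trans (Finset.sum_le_sum fun i _ => ?_)
    rw [map_smul_eq_mul, Real.norm_of_nonneg (by linarith [hk1 i])]
    exact mul_le_mul_of_nonneg_left ((hge _).trans (hQ _ (hqQ i))) (by linarith [hk1 i])
  have hhv : hh v ≤ ∑ i, (k i : ℝ) * r2 + hh y := by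
    have e : v = (∑ i, (k i : ℤ) • q i) + y := by rw [hy]; abel
    have h1 : hh v ≤ hh (∑ i, (k i : ℤ) • q i) + hh y := by
      conv_lhs => rw [e]
      exact hh_sub _ _
    refine h1.trans (add_le_add ((hh_sum _ _ _).trans (Finset.sum_le_sum fun i _ => ?_)) le_rfl)
    exact mul_le_mul_of_nonneg_left (hQ _ (hqQ i)) (Nat.cast_nonneg _)
  refine ⟨y, ?_, ?_⟩
  · refine hmu.trans ?_
    rw [← Finset.sum_mul]
    refine mul_le_mul_of_nonneg_right ?_ hr2
    refine (Finset.sum_le_sum fun i _ => hk2 i).trans ?_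
    simpa using hcard
  · have h1 : ∑ i, (c * w i - k i) * r2 + ∑ i, (k i : ℝ) * r2 = c * r2 := by
      rw [← Finset.sum_add_distrib]
      have : ∀ i, (c * w i - k i) * r2 + (k i : ℝ) * r2 = c * r2 * w i := fun i => by ring
      simp_rw [this]
      rw [← Finset.mul_sum, hsum, mul_one]
    have h2 : n * (r2 / r1 - 1) = c * r2 - n := by rw [hc]; ring
    rw [h2]
    linarith

/-- the mean passage times from the hulls of their level sets -/
theorem GG_of_hull (hN : Nrm μ c0 C0) (hge : ∀ v : V, μ (em v) ≤ hh v) {δ : ℝ}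
    (hκ0 : 0 < κ) (hκ1 : κ < 1) (hA : 0 ≤ A) (k0 : 0 < κ1) (k1 : κ1 ≤ κ * (1 - δ)) (hδ : 0 ≤ δ)
    (h : ∀ᶠ s : ℝ in atTop, ∃ t : ℝ, s ^ (1 - δ) ≤ t ∧ t ≤ s ∧
      ∀ x : ℝ × ℝ, μ x ≤ t - A * t ^ (1 - κ) →
        x ∈ convexHull ℝ (em '' {v | hh v ≤ t + A * t ^ (1 - κ)})) : GG μ κ1 := by
  have hδ1 : 0 < 1 - δ := by
    by_contra hcon
    have : κ * (1 - δ) ≤ 0 := mul_nonpos_of_nonneg_of_nonpos hκ0.le (by linarith)
    linarith
  have k2 : κ1 < 1 := by
    have : κ * (1 - δ) ≤ κ := by nlinarith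
    linarith
  -- eventually `A t ^ (1 - κ) ≤ t / 2`
  have ht : ∀ᶠ t : ℝ in atTop, A * t ^ (-κ) ≤ 1 / 2 := by
    have h1 : Tendsto (fun t : ℝ => A * t ^ (-κ)) atTop (𝓝 (A * 0)) :=
      (tendsto_rpow_neg_atTop hκ0).const_mul A
    rw [mul_zero] at h1
    exact (h1.eventually (gt_mem_nhds (by norm_num : (0 : ℝ) < 1 / 2))).mono fun t ht => ht.le
  obtain ⟨t0, ht0⟩ := eventually_atTop.1 ht
  have hs := ((tendsto_rpow_atTop hδ1).eventually_ge_atTop (max t0 1)).and h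
  obtain ⟨s0, hs0⟩ := eventually_atTop.1 hs
  refine gg_of_rec hN k0 k2 (C2 := 1 + 36 * A) (M1 := max (9 * s0) 9) (by linarith)
    (le_trans (by norm_num) (le_max_right _ _)) fun v hv => ?_
  obtain ⟨n, hn⟩ : ∃ n : ℝ, n = μ (em v) := ⟨_, rfl⟩
  rw [← hn] at hv ⊢
  have hn9 : 9 ≤ n := (le_max_right _ _).trans hv
  have hn0 : 0 < n := by linarith
  have hns : s0 ≤ n / 9 := by
    have := (le_max_left (9 * s0) 9).trans hv
    linarith
  obtain ⟨g1, t, g2, g3, g4⟩ := hs0 (n / 9) hns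
  have htt0 : t0 ≤ t := (le_max_left _ _).trans (g1.trans g2)
  have ht1 : 1 ≤ t := (le_max_right _ _).trans (g1.trans g2)
  have htp : 0 < t := by linarith
  have e1 : t ^ (1 - κ) = t * t ^ (-κ) := by
    rw [sub_eq_add_neg, Real.rpow_add htp, Real.rpow_one]
  have g5 := ht0 t htt0
  obtain ⟨b, hb⟩ : ∃ b : ℝ, b = A * t ^ (-κ) := ⟨_, rfl⟩
  have hb0 : 0 ≤ b := by rw [hb]; positivity
  have e2 : A * t ^ (1 - κ) = t * b := by rw [e1, hb]; ring
  rw [e2] at g4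
  rw [← hb] at g5
  have hr1 : 0 < t - t * b := by nlinarith
  have hx : μ (((t - t * b) / μ (em v)) • em v) ≤ t - t * b := by
    rw [map_smul_eq_mul, ← hn, Real.norm_of_nonneg (by positivity)]
    exact le_of_eq (by field_simp)
  obtain ⟨z, z1, z2⟩ := cara hge (fun q hq => hq) hr1 (by rw [← hn]; exact hn0) (g4 _ hx)
  refine ⟨z, ?_, ?_⟩
  · refine z1.trans ?_
    nlinarith
  · rw [← hn] at z2
    refine z2.trans (add_le_add ?_ le_rfl)
    have h1 : (t + t * b) / (t - t * b) - 1 ≤ 4 * b := by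
      rw [div_sub_one hr1.ne', div_le_iff₀ hr1]
      have h6 : t * b * b ≤ t * b * (1 / 2) := mul_le_mul_of_nonneg_left g5 (by positivity)
      nlinarith
    have h2 : t ^ (-κ) ≤ 9 * n ^ (-κ1) := by
      have h3 : t ^ (-κ) ≤ ((n / 9) ^ (1 - δ)) ^ (-κ) :=
        Real.rpow_le_rpow_of_nonpos (by positivity) g2 (by linarith)
      rw [← Real.rpow_mul (by positivity)] at h3
      have h4 : (n / 9) ^ ((1 - δ) * -κ) ≤ (n / 9) ^ (-κ1) :=
        Real.rpow_le_rpow_of_exponent_le (by linarith) (by linarith)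
      have h5 : (n / 9) ^ (-κ1) = n ^ (-κ1) * 9 ^ κ1 := by
        rw [Real.div_rpow hn0.le (by norm_num), Real.rpow_neg (by norm_num : (0:ℝ) ≤ 9) κ1]
        field_simp
      have h6 : (9 : ℝ) ^ κ1 ≤ 9 ^ (1 : ℝ) :=
        Real.rpow_le_rpow_of_exponent_le (by norm_num) k2.le
      rw [Real.rpow_one] at h6
      have h7 : 0 < n ^ (-κ1) := by positivity
      nlinarith
    have e3 : n ^ (1 - κ1) = n * n ^ (-κ1) := by
      rw [sub_eq_add_neg, Real.rpow_add hn0, Real.rpow_one]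
    rw [e3]
    have h8 : b ≤ A * (9 * n ^ (-κ1)) := by
      rw [hb]; exact mul_le_mul_of_nonneg_left h2 hA
    have h9 : 0 < n ^ (-κ1) := by positivity
    calc n * ((t + t * b) / (t - t * b) - 1) ≤ n * (4 * b) :=
          mul_le_mul_of_nonneg_left h1 hn0.le
      _ ≤ n * (4 * (A * (9 * n ^ (-κ1)))) := by gcongr
      _ ≤ (1 + 36 * A) * (n * n ^ (-κ1)) := by nlinarith [mul_pos hn0 h9]

/-- Hahn-Banach: the hull of points near the points of a set whose closed hull is the ball -/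
theorem hull_of_dirs (hN : Nrm μ c0 C0) {E : Set (ℝ × ℝ)}
    (hE : {x | μ x ≤ 1} ⊆ closure (convexHull ℝ E)) {Q : Set V} (hQ : Q.Finite) {t a : ℝ}
    (ha : 0 ≤ a) (hdir : ∀ x ∈ E, ∃ v ∈ Q, ‖em v - t • x‖ ≤ a) {x : ℝ × ℝ}
    (hx : μ x ≤ t - 4 * C0 * a) (hr : 0 < t - 4 * C0 * a) : x ∈ convexHull ℝ (em '' Q) := by
  have hC0 := hN.Cge
  by_contra hcon
  obtain ⟨f, u, hf1, hf2⟩ := geometric_hahn_banach_closed_point (convex_convexHull ℝ (em '' Q))
    (Set.Finite.isClosed_convexHull ℝ (hQ.image em)) hcon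
  obtain ⟨r, hr'⟩ : ∃ r : ℝ, r = t - 4 * C0 * a := ⟨_, rfl⟩
  rw [← hr'] at hx hr
  have hsep : ∀ (c : ℝ) (y : ℝ × ℝ), μ y ≤ 1 → c < f y → ∃ e ∈ E, c < f e := by
    intro c y hy hc
    by_contra h1
    have h2 : E ⊆ {z | f z ≤ c} := fun e he => not_lt.1 fun h3 => h1 ⟨e, he, h3⟩
    have h3 : Convex ℝ {z | f z ≤ c} := convex_halfSpace_le f.toLinearMap.isLinear c
    have h4 : IsClosed {z | f z ≤ c} := isClosed_le f.continuous continuous_const
    have h5 := closure_minimal (convexHull_min h2 h3) h4 (hE hy)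
    exact absurd h5 (not_le.2 hc)
  -- a point of the ball where `f` is large
  have hf0 : 0 < ‖f‖ := by
    rw [norm_pos_iff]
    intro h0
    obtain ⟨e, he, -⟩ := hsep (-1) 0 (by rw [map_zero]; norm_num) (by simp)
    obtain ⟨v, hv, -⟩ := hdir e he
    have h1 := hf1 _ (subset_convexHull ℝ _ (mem_image_of_mem em hv))
    rw [h0] at h1 hf2
    simp at h1 hf2
    linarith
  obtain ⟨b, hb1, hb2⟩ : ∃ b : ℝ × ℝ, μ b ≤ 1 ∧ ‖f‖ / (2 * C0) ≤ f b := by
    obtain ⟨z, hz1, hz2⟩ := f.exists_lt_apply_of_lt_opNorm (r := ‖f‖ / 2) (by linarith)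
    have hCp : 0 < C0 := by linarith
    obtain ⟨z', h1, h2⟩ : ∃ z' : ℝ × ℝ, ‖z'‖ < 1 ∧ ‖f‖ / 2 < f z' := by
      rw [Real.norm_eq_abs] at hz2
      rcases le_total 0 (f z) with h | h
      · exact ⟨z, hz1, by rwa [abs_of_nonneg h] at hz2⟩
      · exact ⟨-z, by rwa [norm_neg], by rw [map_neg]; rwa [abs_of_nonpos h] at hz2⟩
    refine ⟨(1 / C0) • z', ?_, ?_⟩
    · rw [map_smul_eq_mul, Real.norm_of_nonneg (by positivity)]
      have h3 := hN.hi z'
      have h4 : μ z' ≤ C0 := by nlinarith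
      rw [one_div, inv_mul_le_iff₀ hCp, mul_one]
      exact h4
    · rw [map_smul, smul_eq_mul]
      have : ‖f‖ / (2 * C0) = 1 / C0 * (‖f‖ / 2) := by field_simp
      rw [this]
      exact mul_le_mul_of_nonneg_left h2.le (by positivity)
  have hxr : u / r < f ((1 / r) • x) := by
    rw [map_smul, smul_eq_mul, div_eq_mul_inv, mul_comm, one_div]
    exact mul_lt_mul_of_pos_left hf2 (by positivity)
  have hxr1 : μ ((1 / r) • x) ≤ 1 := by
    rw [map_smul_eq_mul, Real.norm_of_nonneg (by positivity), one_div, inv_mul_le_iff₀ hr, mul_one]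
    exact hx
  have hCp : 0 < C0 := by linarith
  have hb3 : ‖f‖ / (4 * C0) < f b := by
    refine lt_of_lt_of_le ?_ hb2
    exact div_lt_div_of_pos_left hf0 (by positivity) (by nlinarith)
  obtain ⟨e, he, he1, he2⟩ : ∃ e ∈ E, u / r < f e ∧ ‖f‖ / (4 * C0) < f e := by
    obtain ⟨y, hy1, hy2, hy3⟩ : ∃ y, μ y ≤ 1 ∧ u / r < f y ∧ ‖f‖ / (4 * C0) < f y := by
      rcases le_total (f b) (f ((1 / r) • x)) with h | h
      · exact ⟨_, hxr1, hxr, by linarith⟩
      · exact ⟨b, hb1, by linarith, hb3⟩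
    obtain ⟨e, he, h1⟩ := hsep (max (u / r) (‖f‖ / (4 * C0))) y hy1 (max_lt hy2 hy3)
    exact ⟨e, he, lt_of_le_of_lt (le_max_left _ _) h1, lt_of_le_of_lt (le_max_right _ _) h1⟩
  obtain ⟨v, hv, hv1⟩ := hdir e he
  have h1 := hf1 _ (subset_convexHull ℝ _ (mem_image_of_mem em hv))
  have h2 : f (t • e) - f (em v) ≤ ‖f‖ * a := by
    rw [← map_sub]
    rw [norm_sub_rev] at hv1
    exact (le_abs_self _).trans ((f.le_opNorm _).trans
      (mul_le_mul_of_nonneg_left hv1 (norm_nonneg _)))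
  rw [map_smul, smul_eq_mul] at h2
  have h3 : u < r * f e := by
    rw [div_lt_iff₀ hr] at he1
    linarith
  have h4 : 4 * C0 * a * (‖f‖ / (4 * C0)) ≤ 4 * C0 * a * f e :=
    mul_le_mul_of_nonneg_left he2.le (by positivity)
  have h5 : 4 * C0 * a * (‖f‖ / (4 * C0)) = ‖f‖ * a := by field_simp
  have h6 : t * f e = r * f e + 4 * C0 * a * f e := by rw [hr']; ring
  linarith

/-! ### directions of curvature -/

/-- the points of the boundary of the limit shape through which there is a circle enclosing the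
limit shape -/
def Curv (m : ℝ × ℝ → ℝ) : Set (ℝ × ℝ) :=
  {x | m x = 1 ∧ ∃ c : ℝ × ℝ, ∀ y : ℝ × ℝ, m y ≤ 1 →
    (y.1 - c.1) ^ 2 + (y.2 - c.2) ^ 2 ≤ (x.1 - c.1) ^ 2 + (x.2 - c.2) ^ 2}

theorem ball_compact (hN : Nrm μ c0 C0) (hc : Continuous fun x => μ x) :
    IsCompact {x : ℝ × ℝ | μ x ≤ 1} := by
  have hc0 := hN.cpos
  refine Metric.isCompact_of_isClosed_isBounded (isClosed_le hc continuous_const) ?_
  refine (Metric.isBounded_closedBall (x := (0 : ℝ × ℝ)) (r := 1 / c0)).subset fun x hx => ?_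
  rw [mem_closedBall_zero_iff, le_div_iff₀ hc0, mul_comm]
  exact (hN.lo x).trans hx

theorem curv_hull (hN : Nrm μ c0 C0) (hc : Continuous fun x => μ x) :
    {x | μ x ≤ 1} ⊆ closure (convexHull ℝ (Curv μ)) := by
  have hc0 := hN.cpos
  have hC0 := hN.Cge
  intro y hy
  by_contra hcon
  obtain ⟨f, u, hf1, hf2⟩ := geometric_hahn_banach_closed_point
    (convex_convexHull ℝ (Curv μ)).closure isClosed_closure hcon
  obtain ⟨a, ha⟩ : ∃ a : ℝ, a = f (1, 0) := ⟨_, rfl⟩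
  obtain ⟨b, hb⟩ : ∃ b : ℝ, b = f (0, 1) := ⟨_, rfl⟩
  have hf : ∀ x : ℝ × ℝ, f x = a * x.1 + b * x.2 := by
    intro x
    have e : x = x.1 • ((1 : ℝ), (0 : ℝ)) + x.2 • ((0 : ℝ), (1 : ℝ)) := by
      ext <;> simp
    conv_lhs => rw [e]
    rw [map_add, map_smul, map_smul, smul_eq_mul, smul_eq_mul, ha, hb]
    ring
  obtain ⟨M, hM⟩ : ∃ M : ℝ, M = 2 * (1 / c0) ^ 2 := ⟨_, rfl⟩
  have hM0 : 0 ≤ M := by rw [hM]; positivity
  have hsz : ∀ x : ℝ × ℝ, μ x ≤ 1 → x.1 ^ 2 + x.2 ^ 2 ≤ M := by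
    intro x hx
    have h1 : ‖x‖ ≤ 1 / c0 := by
      rw [le_div_iff₀ hc0, mul_comm]; exact (hN.lo x).trans hx
    rw [Prod.norm_def, Real.norm_eq_abs, Real.norm_eq_abs] at h1
    have h2 : |x.1| ≤ 1 / c0 := (le_max_left _ _).trans h1
    have h3 : |x.2| ≤ 1 / c0 := (le_max_right _ _).trans h1
    have h4 : x.1 ^ 2 ≤ (1 / c0) ^ 2 := by rw [← sq_abs]; exact pow_le_pow_left₀ (abs_nonneg _) h2 2
    have h5 : x.2 ^ 2 ≤ (1 / c0) ^ 2 := by rw [← sq_abs]; exact pow_le_pow_left₀ (abs_nonneg _) h3 2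
    rw [hM]; linarith
  -- a large radius
  obtain ⟨R, hR⟩ : ∃ R : ℝ, R = (M + 1) / (2 * (f y - u)) := ⟨_, rfl⟩
  have hfu : 0 < f y - u := by linarith
  have hR0 : 0 < R := by rw [hR]; positivity
  have hR1 : 2 * R * (f y - u) = M + 1 := by rw [hR]; field_simp
  -- the farthest point
  have hcont : ContinuousOn (fun x : ℝ × ℝ => (x.1 + R * a) ^ 2 + (x.2 + R * b) ^ 2)
      {x | μ x ≤ 1} := by fun_prop
  obtain ⟨z, hz, hmax⟩ := (ball_compact hN hc).exists_isMaxOn ⟨y, hy⟩ hcont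
  have hmax' : ∀ x : ℝ × ℝ, μ x ≤ 1 → (x.1 + R * a) ^ 2 + (x.2 + R * b) ^ 2 ≤
      (z.1 + R * a) ^ 2 + (z.2 + R * b) ^ 2 := fun x hx => hmax hx
  have hz' : μ z ≤ 1 := hz
  have hz1 : μ z = 1 := by
    refine le_antisymm hz' (not_lt.1 fun hlt => ?_)
    -- move away from the centre
    obtain ⟨w, hw⟩ : ∃ w : ℝ × ℝ, w = (z.1 + R * a, z.2 + R * b) := ⟨_, rfl⟩
    have hmw : 0 ≤ μ w := apply_nonneg μ _
    obtain ⟨ε, hε⟩ : ∃ ε : ℝ, ε = (1 - μ z) / (1 + μ w) := ⟨_, rfl⟩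
    have hε0 : 0 < ε := by
      rw [hε]; exact div_pos (by linarith) (by linarith)
    have hε1 : ε * μ w ≤ 1 - μ z := by
      rw [hε, div_mul_eq_mul_div, div_le_iff₀ (by linarith)]
      nlinarith
    have h1 : μ (z + ε • w) ≤ 1 := by
      refine (map_add_le_add μ _ _).trans ?_
      rw [map_smul_eq_mul, Real.norm_of_nonneg hε0.le]
      linarith
    have h2 := hmax' _ h1
    rw [hw] at h2
    simp only [Prod.fst_add, Prod.snd_add, Prod.smul_fst, Prod.smul_snd, smul_eq_mul] at h2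
    obtain ⟨p, hp⟩ : ∃ p : ℝ, p = z.1 + R * a := ⟨_, rfl⟩
    obtain ⟨q, hq⟩ : ∃ q : ℝ, q = z.2 + R * b := ⟨_, rfl⟩
    have e1 : z.1 + ε * (z.1 + R * a) + R * a = (1 + ε) * p := by rw [hp]; ring
    have e2 : z.2 + ε * (z.2 + R * b) + R * b = (1 + ε) * q := by rw [hq]; ring
    rw [e1, e2, ← hp, ← hq] at h2
    have h3 : p ^ 2 + q ^ 2 ≤ 0 := by
      by_contra hpq
      rw [not_le] at hpq
      nlinarith [mul_pos hε0 hpq, mul_pos (mul_pos hε0 hε0) hpq]
    have h4 : ∀ x : ℝ × ℝ, μ x ≤ 1 → x.1 + R * a = 0 := by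
      intro x hx
      have h5 := hmax' x hx
      rw [← hp, ← hq] at h5
      nlinarith [sq_nonneg (x.1 + R * a), sq_nonneg (x.2 + R * b)]
    have h5 := h4 0 (by rw [map_zero]; norm_num)
    have h6 := h4 ((1 / C0) • (1, 0)) (by
      rw [map_smul_eq_mul, Real.norm_of_nonneg (by positivity), one_div,
        inv_mul_le_iff₀ (by linarith), mul_one]
      have := hN.hi (1, 0)
      have e3 : ‖((1 : ℝ), (0 : ℝ))‖ = 1 := by simp [Prod.norm_def]
      rw [e3] at this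
      linarith)
    simp at h5 h6
    have h7 : 0 < C0⁻¹ := by positivity
    rcases h5 with h5 | h5 <;> simp [h5] at h6 <;> linarith
  have hzC : z ∈ Curv μ := by
    refine ⟨hz1, (-(R * a), -(R * b)), fun x hx => ?_⟩
    have := hmax' x hx
    simpa only [sub_neg_eq_add] using this
  have h1 := hf1 z (subset_closure (subset_convexHull ℝ _ hzC))
  have h2 := hmax' y hy
  have h3 := hsz z hz'
  rw [hf] at h1 hf2 hR1
  nlinarith [sq_nonneg y.1, sq_nonneg y.2]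

end

end Pool.Agent.J4.H89.BK
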