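import Pool.Agent.J4.H89.BK.Hull

set_option autoImplicit false
open MeasureTheory ProbabilityTheory Filter Set
open scoped ENNReal Topology Pointwise

/-!
# The convex hull criterion (helper89)
-/

namespace Pool.Agent.J4.H89.BK

open Function
open Pool.Agent.J4.H91.FPP
open Pool.Agent.N662.FP hiding em

/-- every interval `[s ^ (1 - δ), s]`, `s` large, meets `S` -/
def Dense (S : Set ℝ) : Prop :=
  ∀ δ : ℝ, 0 < δ → ∀ᶠ s : ℝ in atTop, ∃ t ∈ S, s ^ (1 - δ) ≤ t ∧ t ≤ s

theorem round_pt (x : ℝ × ℝ) : ∃ v : V, ‖em v - x‖ ≤ 1 / 2 := by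
  refine ⟨(round x.1, round x.2), ?_⟩
  rw [em_def, Prod.norm_def]
  simp only [Prod.fst_sub, Prod.snd_sub]
  refine max_le ?_ ?_
  · rw [Real.norm_eq_abs, abs_sub_comm]; exact abs_sub_round x.1
  · rw [Real.norm_eq_abs, abs_sub_comm]; exact abs_sub_round x.2

section
variable {Ω : Type} [MeasureSpace Ω] [IsProbabilityMeasure (volume : Measure Ω)]
  {X : Sym2 (ℤ × ℤ) → Ω → ℝ} {μ : Seminorm ℝ (ℝ × ℝ)} {c0 C0 κ κ1 A : ℝ}

/-- a random variable with log-concave tail is below its mean with probability at most `1 - 1/e` -/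
theorem mean_of_quant (hX : Iid X) (v : V) {t e : ℝ} (he : e < Real.exp (-1))
    (h : (volume : Measure Ω).real {ω | t < D (env X ω) 0 v} ≤ e) : hh v ≤ t := by
  by_contra hcon
  rw [not_le] at hcon
  obtain ⟨d, hd, hed⟩ := ex_d e he
  set T' : Ω → ℝ := fun ω => dR 0 v (env X ω) with hT'
  have hmeas : Measurable T' := (dR_meas 0 v).comp (env_meas hX)
  have hae : ∀ᵐ ω ∂(volume : Measure Ω), D (env X ω) 0 v = T' ω := by
    filter_upwards [cAE Ω X hX] with ω h
    exact (dR_eq h 0 v).symm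
  have hset : ∀ t : ℝ, (volume : Measure Ω).real {ω | t ≤ T' ω} =
      (volume : Measure Ω).real {ω | t ≤ D (env X ω) 0 v} := by
    intro t
    refine measureReal_congr ?_
    filter_upwards [hae] with ω h
    show (t ≤ T' ω) = (t ≤ D (env X ω) 0 v)
    rw [h]
  have hint : Integrable T' (volume : Measure Ω) := (cINT Ω X hX 0 v).congr hae
  have hm : ∫ ω, T' ω ∂(volume : Measure Ω) = hh v := by
    rw [← integral_congr_ae hae, hh_eq hX]
  have key : ∀ r : ℝ, 0 < r → hh v - t ≤ 2 * (1 + 1 / d) * r := by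
    intro r hr
    obtain ⟨-, h2⟩ := cCORE2 Ω T' hmeas hint t r d hr hd
      (by intro s t; rw [hset, hset, hset]; exact cLC Ω X hX 0 v s t) (by rw [hm]; exact hcon.le)
      (by
        rw [hset]
        refine le_trans ?_ (h.trans hed)
        refine measureReal_mono (fun ω hω => ?_) (measure_ne_top _ _)
        have h3 : t + r ≤ D (env X ω) 0 v := hω
        show t < D (env X ω) 0 v
        linarith)
    refine le_trans ?_ h2
    have h3 : hh v - t = ∫ ω, (T' ω - t) ∂(volume : Measure Ω) := by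
      rw [integral_sub hint (integrable_const _), hm, integral_const, probReal_univ, one_smul]
    rw [h3]
    exact integral_mono (hint.sub (integrable_const _)) (hint.sub (integrable_const _)).abs
      fun ω => le_abs_self _
  have hd1 : 0 < 2 * (1 + 1 / d) := by positivity
  have h1 := key ((hh v - t) / (2 * (2 * (1 + 1 / d)))) (by
    refine div_pos (by linarith) (by positivity))
  have h2 : 2 * (1 + 1 / d) * ((hh v - t) / (2 * (2 * (1 + 1 / d)))) = (hh v - t) / 2 := by
    field_simp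
  rw [h2] at h1
  linarith

/-- a lattice point deep in the limit shape is reached unless part of the shape is missed -/
theorem quant_of_missed {t e : ℝ} (ht : 0 < (1 - t ^ (-κ)) * t)
    (h : (volume : Measure Ω).real (Bad (fun ω v => D (env X ω) 0 v) μ κ t) ≤ e) {v : V}
    (hv : μ (em v) ≤ (1 - t ^ (-κ)) * t) :
    (volume : Measure Ω).real {ω | t < D (env X ω) 0 v} ≤ e := by
  refine le_trans (measureReal_mono (fun ω hω => ?_) (measure_ne_top _ _)) h
  have h1 : t < D (env X ω) 0 v := hω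
  intro hsub
  have h2 : em v ∈ ((1 - t ^ (-κ)) * t) • {x : ℝ × ℝ | μ x ≤ 1} := by
    rw [mem_smul_set]
    refine ⟨(1 / ((1 - t ^ (-κ)) * t)) • em v, ?_, ?_⟩
    · show μ ((1 / ((1 - t ^ (-κ)) * t)) • em v) ≤ 1
      rw [map_smul_eq_mul, Real.norm_of_nonneg (by positivity), one_div, inv_mul_le_iff₀ ht,
        mul_one]
      exact hv
    · rw [smul_smul, mul_one_div_cancel ht.ne', one_smul]
  obtain ⟨u, hu1, hu2, hu3⟩ := hsub h2
  rw [em_def] at hu2 hu3
  simp only at hu2 hu3
  have h3 : u = v := by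
    have k1 : |((v.1 - u.1 : ℤ) : ℝ)| ≤ 1 / 2 := by push_cast; exact hu2
    have k2 : |((v.2 - u.2 : ℤ) : ℝ)| ≤ 1 / 2 := by push_cast; exact hu3
    have k3 : |v.1 - u.1| < 1 := by
      have : |((v.1 - u.1 : ℤ) : ℝ)| < 1 := by linarith
      rw [← Int.cast_abs] at this
      exact_mod_cast this
    have k4 : |v.2 - u.2| < 1 := by
      have : |((v.2 - u.2 : ℤ) : ℝ)| < 1 := by linarith
      rw [← Int.cast_abs] at this
      exact_mod_cast this
    rw [Int.abs_lt_one_iff] at k3 k4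
    ext <;> omega
  rw [h3] at hu1
  exact absurd hu1 (not_le.2 h1)

/-- a lattice point near `t x`, deep in the limit shape -/
theorem near_pt (hN : Nrm μ c0 C0) {t b : ℝ} (hb : 0 ≤ b) (ht : C0 + b ≤ t) {x : ℝ × ℝ}
    (hx : μ x ≤ 1) : ∃ v : V, μ (em v) ≤ t - b ∧ ‖em v - t • x‖ ≤ 1 / 2 + (C0 + b) / c0 := by
  have hc0 := hN.cpos
  have hC0 := hN.Cge
  obtain ⟨v, hv⟩ := round_pt ((t - b - C0) • x)
  have hn : ‖x‖ ≤ 1 / c0 := by
    rw [le_div_iff₀ hc0, mul_comm]; exact (hN.lo x).trans hx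
  refine ⟨v, ?_, ?_⟩
  · have e : em v = (em v - (t - b - C0) • x) + (t - b - C0) • x := by abel
    have h1 : μ (em v) ≤ μ (em v - (t - b - C0) • x) + μ ((t - b - C0) • x) := by
      conv_lhs => rw [e]
      exact map_add_le_add μ _ _
    have h2 : μ (em v - (t - b - C0) • x) ≤ C0 * (1 / 2) :=
      (hN.hi _).trans (mul_le_mul_of_nonneg_left hv (by linarith))
    have h3 : μ ((t - b - C0) • x) ≤ t - b - C0 := by
      rw [map_smul_eq_mul, Real.norm_of_nonneg (by linarith)]
      have : (t - b - C0) * μ x ≤ (t - b - C0) * 1 :=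
        mul_le_mul_of_nonneg_left hx (by linarith)
      linarith
    linarith
  · have e : em v - t • x = (em v - (t - b - C0) • x) + (-(C0 + b)) • x := by
      have : t • x = (t - b - C0) • x + (C0 + b) • x := by rw [← add_smul]; congr 1; ring
      rw [this, neg_smul]; abel
    rw [e]
    refine (norm_add_le _ _).trans (add_le_add hv ?_)
    rw [norm_smul, Real.norm_eq_abs, abs_neg, abs_of_nonneg (by linarith)]
    have h4 : (C0 + b) * ‖x‖ ≤ (C0 + b) * (1 / c0) := mul_le_mul_of_nonneg_left hn (by linarith)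
    refine h4.trans (le_of_eq (by ring))

theorem fin_level (hN : Nrm μ c0 C0) (hge : ∀ v : V, μ (em v) ≤ hh v) (r : ℝ) :
    {v : V | hh v ≤ r}.Finite := by
  have hc0 := hN.cpos
  obtain ⟨N, hN1⟩ := exists_nat_ge (r / c0)
  refine (Finset.finite_toSet (boxF N)).subset fun v hv => ?_
  have h1 : hh v ≤ r := hv
  have h2 : ‖em v‖ ≤ N := by
    refine le_trans ?_ hN1
    rw [le_div_iff₀ hc0, mul_comm]
    exact (hN.lo _).trans ((hge v).trans h1)
  rw [em_def, Prod.norm_def, Real.norm_eq_abs, Real.norm_eq_abs] at h2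
  have h3 : |(v.1 : ℝ)| ≤ N := (le_max_left _ _).trans h2
  have h4 : |(v.2 : ℝ)| ≤ N := (le_max_right _ _).trans h2
  rw [Finset.mem_coe, mem_boxF]
  constructor
  · rw [← Int.cast_abs] at h3; exact_mod_cast h3
  · rw [← Int.cast_abs] at h4; exact_mod_cast h4

/-- the means are above the time constant -/
theorem hh_ge (hX : Iid X) (hN : Nrm μ c0 C0)
    (hlim : ∀ z : V, ∀ᵐ ω ∂(volume : Measure Ω),
      Tendsto (fun n : ℕ => D (env X ω) 0 ((n : ℤ) • z) / (n : ℝ)) atTop (𝓝 (μ (em z)))) (v : V) :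
    μ (em v) ≤ hh v := by
  obtain ⟨A, hA, hb⟩ := VB_half hN
  obtain ⟨A', hv⟩ := mk_HV hX hlim (by norm_num) (by norm_num) (mean_of_var hX hb)
  exact hv.ge v

/-- eventual comparison of powers -/
theorem pow_ev {a b : ℝ} (hab : a < b) (hb : 0 < b) (M L : ℝ) :
    ∀ᶠ t : ℝ in atTop, M * t ^ a + L ≤ t ^ b := by
  have h1 : Tendsto (fun t : ℝ => M * t ^ (-(b - a)) + L * t ^ (-b)) atTop (𝓝 (M * 0 + L * 0)) :=
    ((tendsto_rpow_neg_atTop (by linarith)).const_mul M).add
      ((tendsto_rpow_neg_atTop hb).const_mul L)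
  rw [mul_zero, mul_zero, add_zero] at h1
  filter_upwards [h1.eventually (gt_mem_nhds one_pos), eventually_gt_atTop 0] with t h2 h3
  have h4 : t ^ (-(b - a)) = t ^ a / t ^ b := by
    rw [neg_sub, Real.rpow_sub h3]
  have h5 : t ^ (-b) = 1 / t ^ b := by rw [Real.rpow_neg h3.le, one_div]
  rw [h4, h5] at h2
  have h6 : 0 < t ^ b := by positivity
  have h7 : M * (t ^ a / t ^ b) + L * (1 / t ^ b) = (M * t ^ a + L) / t ^ b := by ring
  rw [h7, div_lt_one h6] at h2
  exact h2.le

end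

end Pool.Agent.J4.H89.BK
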