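import Pool.Agent.J4.H89.BK.HullFin

set_option autoImplicit false
open MeasureTheory ProbabilityTheory Filter Set
open scoped ENNReal Topology Pointwise

/-!
# The equivalences for the convex hull criterion (helper89)
-/

namespace Pool.Agent.J4.H89.BK

open Function
open Pool.Agent.J4.H91.FPP
open Pool.Agent.N662.FP hiding em

section
variable {Ω : Type} [MeasureSpace Ω] [IsProbabilityMeasure (volume : Measure Ω)]
  {X : Sym2 (ℤ × ℤ) → Ω → ℝ} {μ : Seminorm ℝ (ℝ × ℝ)} {c0 C0 κ κ1 A : ℝ}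

theorem smul_sub {H : Set (ℝ × ℝ)} {r : ℝ} (hr : 0 < r) :
    r • {x : ℝ × ℝ | μ x ≤ 1} ⊆ H ↔ ∀ x, μ x ≤ r → x ∈ H := by
  constructor
  · intro h x hx
    refine h ?_
    rw [mem_smul_set]
    refine ⟨(1 / r) • x, ?_, ?_⟩
    · show μ ((1 / r) • x) ≤ 1
      rw [map_smul_eq_mul, Real.norm_of_nonneg (by positivity), one_div, inv_mul_le_iff₀ hr,
        mul_one]
      exact hx
    · rw [smul_smul, mul_one_div_cancel hr.ne', one_smul]
  · intro h x hx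
    obtain ⟨y, hy, rfl⟩ := mem_smul_set.1 hx
    refine h _ ?_
    rw [map_smul_eq_mul, Real.norm_of_nonneg hr.le]
    have hy' : μ y ≤ 1 := hy
    have := mul_le_mul_of_nonneg_left hy' hr.le
    linarith

theorem pw_eq {t : ℝ} (ht : 0 < t) (κ : ℝ) : (1 - t ^ (-κ)) * t = t - t ^ (1 - κ) := by
  rw [sub_mul, one_mul, sub_eq_add_neg 1 κ, Real.rpow_add ht, Real.rpow_one]
  ring

theorem pw_lt {t : ℝ} (ht : 1 < t) (h0 : 0 < κ) : 0 < t - t ^ (1 - κ) := by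
  have h1 : t ^ (1 - κ) < t ^ (1 : ℝ) := Real.rpow_lt_rpow_of_exponent_lt ht (by linarith)
  rw [Real.rpow_one] at h1
  linarith

/-- from the hull at one exponent -/
theorem GG_dense (hN : Nrm μ c0 C0) (hge : ∀ v : V, μ (em v) ≤ hh v) {S : Set ℝ} {δ : ℝ}
    (hS : ∀ᶠ s : ℝ in atTop, ∃ t ∈ S, s ^ (1 - δ) ≤ t ∧ t ≤ s)
    (hκ0 : 0 < κ) (hκ1 : κ < 1) (hA : 0 ≤ A) (k0 : 0 < κ1) (k1 : κ1 ≤ κ * (1 - δ)) (hδ : 0 ≤ δ)
    (h : ∀ᶠ t : ℝ in atTop, t ∈ S → ∀ x : ℝ × ℝ, μ x ≤ t - A * t ^ (1 - κ) →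
        x ∈ convexHull ℝ (em '' {v | hh v ≤ t + A * t ^ (1 - κ)})) : GG μ κ1 := by
  have hδ1 : 0 < 1 - δ := by
    by_contra hcon
    have : κ * (1 - δ) ≤ 0 := mul_nonpos_of_nonneg_of_nonpos hκ0.le (by linarith)
    linarith
  refine GG_of_hull hN hge hκ0 hκ1 hA k0 k1 hδ ?_
  obtain ⟨t0, ht0⟩ := eventually_atTop.1 h
  filter_upwards [hS, (tendsto_rpow_atTop hδ1).eventually_ge_atTop t0] with s hs h1
  obtain ⟨t, hts, h2, h3⟩ := hs
  exact ⟨t, h2, h3, ht0 t (h1.trans h2) hts⟩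

theorem mean_of_hull (hN : Nrm μ c0 C0) (hge : ∀ v : V, μ (em v) ≤ hh v) {S : Set ℝ}
    (hS : Dense S) {K : ℝ} (hK1 : K < 1) (hA : 0 ≤ A)
    (h : ∀ κ : ℝ, 0 < κ → κ < K → ∀ᶠ t : ℝ in atTop, t ∈ S → ∀ x : ℝ × ℝ,
      μ x ≤ t - A * t ^ (1 - κ) →
        x ∈ convexHull ℝ (em '' {v | hh v ≤ t + A * t ^ (1 - κ)})) :
    ∀ κ : ℝ, 0 < κ → κ < K → ∃ A : ℝ, ∀ v : V,
      hh v ≤ μ (em v) + A * (1 + μ (em v)) ^ (1 - κ) := by
  intro κ h0 h1
  obtain ⟨k, hk⟩ : ∃ k : ℝ, k = (κ + K) / 2 := ⟨_, rfl⟩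
  have hk0 : 0 < k := by linarith
  obtain ⟨δ, hδ⟩ : ∃ δ : ℝ, δ = (k - κ) / (2 * k) := ⟨_, rfl⟩
  have hδ0 : 0 < δ := by rw [hδ]; exact div_pos (by linarith) (by linarith)
  have e : k * (1 - δ) = (k + κ) / 2 := by rw [hδ]; field_simp; ring
  have hG := GG_dense hN hge (hS δ hδ0) hk0 (by linarith) hA (κ1 := (k + κ) / 2) (by linarith)
    (by rw [e]) hδ0.le (h k hk0 (by linarith))
  obtain ⟨B, hB, hb⟩ := GG_mono (κ2 := κ) (by linarith) hG
  exact ⟨B, fun v => by linarith [hb v]⟩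

/-- the equivalences -/
theorem conv_tfae (hX : Iid X) (hG : Good (fun ω v => D (env X ω) 0 v) μ)
    (hlim : ∀ z : V, ∀ᵐ ω ∂(volume : Measure Ω),
      Tendsto (fun n : ℕ => D (env X ω) 0 ((n : ℤ) • z) / (n : ℝ)) atTop (𝓝 (μ (em z))))
    (K : ℝ) (hK1 : K < 1) (S : Set ℝ) (hS : Dense S) (E : Set (ℝ × ℝ)) (hE1 : ∀ x ∈ E, μ x ≤ 1)
    (hE : {x | μ x ≤ 1} ⊆ closure (convexHull ℝ E)) :
    List.TFAE [
      ∀ κ : ℝ, 0 < κ → κ < K → ∀ q : ℝ, 0 < q →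
        Asymptotics.IsBigO atTop (fun t : ℝ => (volume : Measure Ω).real
          (Out (fun ω v => D (env X ω) 0 v) μ κ t)) (fun t : ℝ => t ^ (-q)) ∧
        Asymptotics.IsBigO atTop (fun t : ℝ => (volume : Measure Ω).real
          (Pool.Agent.N662.FP.Bad (fun ω v => D (env X ω) 0 v) μ κ t)) (fun t : ℝ => t ^ (-q)),
      ∀ κ : ℝ, 0 < κ → κ < K → ∃ c : ℝ, 0 < c ∧ ∀ᶠ t : ℝ in atTop,
        (volume : Measure Ω).real (Out (fun ω v => D (env X ω) 0 v) μ κ t) ≤ Real.exp (-(t ^ c)) ∧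
        (volume : Measure Ω).real
          (Pool.Agent.N662.FP.Bad (fun ω v => D (env X ω) 0 v) μ κ t) ≤ Real.exp (-(t ^ c)),
      ∀ κ : ℝ, 0 < κ → κ < K → ∃ e : ℝ, e < Real.exp (-1) ∧ ∀ᶠ t : ℝ in atTop, t ∈ S →
        (volume : Measure Ω).real
          (Pool.Agent.N662.FP.Bad (fun ω v => D (env X ω) 0 v) μ κ t) ≤ e,
      ∀ κ : ℝ, 0 < κ → κ < K → ∃ e : ℝ, e < Real.exp (-1) ∧ ∀ᶠ t : ℝ in atTop, t ∈ S →
        ((1 - t ^ (-κ)) * t) • {x : ℝ × ℝ | μ x ≤ 1} ⊆ convexHull ℝ (em '' {v |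
          (volume : Measure Ω).real {ω | t < D (env X ω) 0 v} ≤ e}),
      ∀ κ : ℝ, 0 < κ → κ < K → ∀ᶠ t : ℝ in atTop, t ∈ S →
        ((1 - t ^ (-κ)) * t) • {x : ℝ × ℝ | μ x ≤ 1} ⊆ convexHull ℝ (em '' {v |
          ∫ ω, D (env X ω) 0 v ∂(volume : Measure Ω) ≤ t}),
      ∀ κ : ℝ, 0 < κ → κ < K → ∀ᶠ t : ℝ in atTop, t ∈ S → ∀ x ∈ E, ∃ v : ℤ × ℤ,
        ‖em v - t • x‖ ≤ t ^ (1 - κ) ∧
          ∫ ω, D (env X ω) 0 v ∂(volume : Measure Ω) ≤ t + t ^ (1 - κ)] := by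
  obtain ⟨c0, C0, hN⟩ := nrm_of μ hG.norm
  have hc0 := hN.cpos
  have hC0 := hN.Cge
  have hge := hh_ge hX hN hlim
  have hold := tfae4 hX hG hlim K hK1
  have o12 := hold.out 0 1
  have o14 := hold.out 0 3
  simp_rw [hh_eq hX] at o14 ⊢
  tfae_have 1 ↔ 2 := o12
  tfae_have 2 → 3 := by
    intro h κ h0 h1
    obtain ⟨c, hc, h2⟩ := h κ h0 h1
    refine ⟨1 / 8, eighth, ?_⟩
    have h3 : ∀ᶠ t : ℝ in atTop, Real.exp (-(t ^ c)) ≤ 1 / 8 := by
      have h4 : Tendsto (fun t : ℝ => Real.exp (-(t ^ c))) atTop (𝓝 0) :=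
        Real.tendsto_exp_neg_atTop_nhds_zero.comp (tendsto_rpow_atTop hc)
      exact (h4.eventually (gt_mem_nhds (by norm_num : (0 : ℝ) < 1 / 8))).mono fun t ht => ht.le
    filter_upwards [h2, h3] with t h5 h6 _
    exact h5.2.trans h6
  -- points near `t x`
  have near : ∀ κ k : ℝ, 0 < k → κ < k → k < 1 → ∀ᶠ t : ℝ in atTop, 1 < t ∧
      4 * C0 * (1 / 2 + (C0 + t ^ (1 - k)) / c0) ≤ t ^ (1 - κ) ∧ C0 + t ^ (1 - k) ≤ t := by
    intro κ k hk0 hk1 hk2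
    have h1 := pow_ev (a := 1 - k) (b := 1 - κ) (by linarith) (by linarith) (4 * C0 / c0)
      (4 * C0 * (1 / 2 + C0 / c0))
    have h2 := pow_ev (a := 1 - k) (b := 1) (by linarith) one_pos 1 C0
    filter_upwards [h1, h2, eventually_gt_atTop 1] with t h3 h4 h5
    rw [Real.rpow_one] at h4
    refine ⟨h5, le_trans (le_of_eq ?_) h3, by linarith⟩
    field_simp
    ring
  tfae_have 3 → 4 := by
    intro h κ h0 h1
    obtain ⟨k, hk⟩ : ∃ k : ℝ, k = (κ + K) / 2 := ⟨_, rfl⟩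
    obtain ⟨e, he, h2⟩ := h k (by linarith) (by linarith)
    refine ⟨e, he, ?_⟩
    filter_upwards [h2, near κ k (by linarith) (by linarith) (by linarith)] with t h3 h4 hts
    obtain ⟨h5, h6, h7⟩ := h4
    have htp : 0 < t := by linarith
    have hr := pw_lt h5 h0
    have hr2 := pw_lt h5 (by linarith : 0 < k)
    rw [pw_eq htp, smul_sub hr]
    intro x hx
    have hb0 : (0 : ℝ) ≤ t ^ (1 - k) := by positivity
    refine hull_of_dirs hN (E := {x | μ x ≤ 1})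
      (fun y hy => subset_closure (subset_convexHull ℝ _ hy)) (Q := {v |
        (volume : Measure Ω).real {ω | t < D (env X ω) 0 v} ≤ e}) ?_ (t := t)
      (a := 1 / 2 + (C0 + t ^ (1 - k)) / c0) (by positivity) ?_ (by linarith) (by linarith)
    · exact (fin_level hN hge t).subset fun v hv => mean_of_quant hX v he hv
    · intro y hy
      obtain ⟨v, hv1, hv2⟩ := near_pt hN hb0 h7 hy
      refine ⟨v, ?_, hv2⟩
      exact quant_of_missed (κ := k) (by rw [pw_eq htp]; exact hr2) (h3 hts)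
        (by rw [pw_eq htp]; exact hv1)
  tfae_have 4 → 5 := by
    intro h κ h0 h1
    obtain ⟨e, he, h2⟩ := h κ h0 h1
    filter_upwards [h2] with t h3 hts
    exact (h3 hts).trans (convexHull_mono (image_mono fun v hv => mean_of_quant hX v he hv))
  tfae_have 5 → 1 := by
    intro h
    refine o14.2 (mean_of_hull hN hge hS hK1 zero_le_one fun κ h0 h1 => ?_)
    filter_upwards [h κ h0 h1, eventually_gt_atTop 1] with t h2 h3 hts x hx
    have htp : 0 < t := by linarith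
    have h4 := h2 hts
    rw [pw_eq htp, smul_sub (pw_lt h3 h0)] at h4
    rw [one_mul] at hx ⊢
    have hb0 : (0 : ℝ) ≤ t ^ (1 - κ) := by positivity
    refine convexHull_mono (image_mono fun v hv => ?_) (h4 x hx)
    have hv' : hh v ≤ t := hv
    show hh v ≤ t + t ^ (1 - κ)
    linarith
  tfae_have 3 → 6 := by
    intro h κ h0 h1
    obtain ⟨k, hk⟩ : ∃ k : ℝ, k = (κ + K) / 2 := ⟨_, rfl⟩
    obtain ⟨e, he, h2⟩ := h k (by linarith) (by linarith)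
    filter_upwards [h2, near κ k (by linarith) (by linarith) (by linarith)] with t h3 h4 hts x hx
    obtain ⟨h5, h6, h7⟩ := h4
    have htp : 0 < t := by linarith
    have hr2 := pw_lt h5 (by linarith : 0 < k)
    have hb0 : (0 : ℝ) ≤ t ^ (1 - k) := by positivity
    obtain ⟨v, hv1, hv2⟩ := near_pt hN hb0 h7 (hE1 x hx)
    have h8 := quant_of_missed (κ := k) (by rw [pw_eq htp]; exact hr2) (h3 hts)
      (by rw [pw_eq htp]; exact hv1)
    have h9 := mean_of_quant hX v he h8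
    have hb1 : (0 : ℝ) ≤ t ^ (1 - κ) := by positivity
    have h10 : 0 ≤ 1 / 2 + (C0 + t ^ (1 - k)) / c0 := by positivity
    refine ⟨v, hv2.trans ?_, by linarith⟩
    nlinarith
  tfae_have 6 → 1 := by
    intro h
    refine o14.2 (mean_of_hull hN hge hS hK1 (A := 4 * C0) (by linarith) fun κ h0 h1 => ?_)
    have h2 := pow_ev (a := 1 - κ) (b := 1) (by linarith) one_pos (4 * C0) 1
    filter_upwards [h κ h0 h1, eventually_gt_atTop 1, h2] with t h3 h4 h5 hts x hx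
    rw [Real.rpow_one] at h5
    have hb0 : (0 : ℝ) ≤ t ^ (1 - κ) := by positivity
    refine hull_of_dirs hN hE (Q := {v | hh v ≤ t + 4 * C0 * t ^ (1 - κ)}) (fin_level hN hge _)
      (t := t) (a := t ^ (1 - κ)) hb0 ?_ hx (by linarith)
    intro y hy
    obtain ⟨v, hv1, hv2⟩ := h3 hts y hy
    refine ⟨v, ?_, hv1⟩
    show hh v ≤ t + 4 * C0 * t ^ (1 - κ)
    nlinarith
  tfae_finish

end

end Pool.Agent.J4.H89.BK
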