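import Pool.Agent.J4.H89.BK.FS2

set_option autoImplicit false
open MeasureTheory ProbabilityTheory Filter Set
open scoped ENNReal Topology

/-!
# The binary digits of an exponential variable (helper89)
-/

namespace Pool.Agent.J4.H89.BK

theorem exp_prob : IsProbabilityMeasure (expMeasure 1) := isProbabilityMeasure_expMeasure one_pos

/-- the law of the integer part of `y / h` -/
theorem floor_law {s : ℝ} (hs : 0 < s) (i : ℕ) :
    (expMeasure 1) {y : ℝ | ⌊s * y⌋₊ = i} =
      ENNReal.ofReal ((1 - Real.exp (-(1 / s))) * Real.exp (-(1 / s)) ^ i) := by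
  have hprob := exp_prob
  set r := Real.exp (-(1 / s)) with hr
  have hpow : ∀ k : ℕ, r ^ k = Real.exp (-(k / s)) := by
    intro k
    rw [hr, ← Real.exp_nat_mul]
    congr 1; ring
  have hcdf : ∀ x : ℝ, 0 ≤ x → (expMeasure 1).real (Iic x) = 1 - Real.exp (-x) := by
    intro x hx
    have h := cdf_expMeasure_eq one_pos x
    rw [cdf_eq_real, if_pos hx, one_mul] at h
    exact h
  have hlt : ∀ x : ℝ, 0 ≤ x → (expMeasure 1) (Iio x) = ENNReal.ofReal (1 - Real.exp (-x)) := by
    intro x hx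
    have h1 : (expMeasure 1) (Iio x) = (expMeasure 1) (Iic x) := by
      have hna : NullSingletonClass (expMeasure 1) := by
        unfold expMeasure gammaMeasure
        exact ⟨fun y => withDensity_absolutelyContinuous _ _ (by simp)⟩
      exact measure_congr Iio_ae_eq_Iic
    rw [h1, ← hcdf x hx, ofReal_measureReal (measure_ne_top _ _)]
  have hneg : (expMeasure 1) (Iio 0) = 0 := by
    rw [hlt 0 le_rfl]; simp
  have hset : {y : ℝ | ⌊s * y⌋₊ = i} =ᵐ[expMeasure 1] Iio ((i + 1 : ℕ) / s) \ Iio ((i : ℝ) / s) := by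
    have h0 : ∀ᵐ y ∂(expMeasure 1), 0 ≤ y := by
      rw [ae_iff]
      have : {a : ℝ | ¬ 0 ≤ a} = Iio 0 := by ext; simp
      rw [this]; exact hneg
    filter_upwards [h0] with y hy
    have h1 : (⌊s * y⌋₊ = i) ↔ ((i : ℝ) ≤ s * y ∧ s * y < i + 1) :=
      Nat.floor_eq_iff (by positivity)
    apply propext
    show (⌊s * y⌋₊ = i) ↔ (y < (i + 1 : ℕ) / s ∧ ¬ y < (i : ℝ) / s)
    rw [h1, lt_div_iff₀ hs, not_lt, div_le_iff₀ hs]
    push_cast
    constructor
    · rintro ⟨h2, h3⟩; exact ⟨by linarith, by linarith⟩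
    · rintro ⟨h2, h3⟩; exact ⟨by linarith, by linarith⟩
  have hd : (expMeasure 1) (Iio ((i + 1 : ℕ) / s) \ Iio ((i : ℝ) / s)) =
      (expMeasure 1) (Iio ((i + 1 : ℕ) / s)) - (expMeasure 1) (Iio ((i : ℝ) / s)) :=
    measure_sdiff (Iio_subset_Iio (by
      rw [div_le_div_iff_of_pos_right hs]; push_cast; linarith)) measurableSet_Iio.nullMeasurableSet
      (measure_ne_top _ _)
  rw [(measure_congr hset).trans hd, hlt _ (by positivity), hlt _ (by positivity),
    ← ENNReal.ofReal_sub _ (by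
      have := Real.exp_le_one_iff.2 (by
        have : 0 ≤ (i : ℝ) / s := by positivity
        linarith : -((i : ℝ) / s) ≤ 0)
      linarith)]
  congr 1
  have e1 := hpow i
  have e2 := hpow (i + 1)
  rw [← e1, ← e2, pow_succ]
  ring

/-- the law of the last digits -/
theorem mod_law {s : ℝ} (hs : 0 < s) {m : ℕ} (hm : 0 < m) {j : ℕ} (hj : j < m) :
    (expMeasure 1).real {y : ℝ | ⌊s * y⌋₊ % m = j} =
      (1 - Real.exp (-(1 / s))) * Real.exp (-(1 / s)) ^ j / (1 - Real.exp (-(1 / s)) ^ m) := by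
  have hprob := exp_prob
  set r := Real.exp (-(1 / s)) with hr
  have hr0 : 0 < r := Real.exp_pos _
  have hr1 : r < 1 := by
    rw [hr, Real.exp_lt_one_iff]
    have : 0 < 1 / s := by positivity
    linarith
  have hset : {y : ℝ | ⌊s * y⌋₊ % m = j} = ⋃ l : ℕ, {y : ℝ | ⌊s * y⌋₊ = j + m * l} := by
    ext y
    simp only [mem_ofPred_eq, mem_iUnion]
    constructor
    · intro h
      exact ⟨⌊s * y⌋₊ / m, by rw [← h]; exact (Nat.mod_add_div _ _).symm⟩
    · rintro ⟨l, h⟩
      rw [h, Nat.add_mul_mod_self_left, Nat.mod_eq_of_lt hj]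
  have hmeas : ∀ l : ℕ, MeasurableSet {y : ℝ | ⌊s * y⌋₊ = j + m * l} := fun l =>
    measurableSet_eq_fun (Nat.measurable_floor.comp (measurable_const.mul measurable_id))
      measurable_const
  have hdis : Pairwise (Function.onFun Disjoint fun l : ℕ => {y : ℝ | ⌊s * y⌋₊ = j + m * l}) := by
    intro a b hab
    rw [Function.onFun, Set.disjoint_left]
    intro y h1 h2
    simp only [mem_ofPred_eq] at h1 h2
    rw [h1] at h2
    exact hab (Nat.eq_of_mul_eq_mul_left hm (by omega))
  have hrm : r ^ m < 1 := pow_lt_one₀ hr0.le hr1 hm.ne'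
  have h1 : HasSum (fun l : ℕ => (1 - r) * r ^ (j + m * l)) ((1 - r) * r ^ j / (1 - r ^ m)) := by
    have h2 := (hasSum_geometric_of_lt_one (pow_pos hr0 m).le hrm).mul_left ((1 - r) * r ^ j)
    rw [← div_eq_mul_inv] at h2
    refine h2.congr_fun ?_ |> fun h => h
    intro l
    rw [pow_add, pow_mul]; ring
  unfold Measure.real
  rw [hset, measure_iUnion hdis hmeas]
  simp_rw [floor_law hs]
  rw [← ENNReal.ofReal_tsum_of_nonneg (fun l => by
    have : 0 ≤ 1 - r := by linarith
    positivity) h1.summable, h1.tsum_eq, ENNReal.toReal_ofReal]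
  have : 0 ≤ 1 - r := by linarith
  have : 0 < 1 - r ^ m := by linarith
  positivity

end Pool.Agent.J4.H89.BK
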