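import Pool.Agent.J4.H89.BK.Geo
import Pool.Agent.J4.H89.BK.Bnd
import Pool.Agent.N896.FM.CNT

set_option autoImplicit false
open MeasureTheory ProbabilityTheory Filter Set
open scoped ENNReal Topology

/-!
# The number of edges of geodesics in rounded environments (helper89)
-/

namespace Pool.Agent.J4.H89.BK

open Function
open Pool.Agent.J4.H91.FPP
open Pool.Agent.N662.FP (Fast Iid)

/-- passage time of a path in a real environment -/
def tR (x : En) (n : ℕ) (p : ℕ → V) : ℝ := ∑ i ∈ Finset.range n, x s(p i, p (i + 1))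

theorem tm_tR {x : En} (hx : ∀ e, 0 ≤ x e) (n : ℕ) (p : ℕ → V) :
    tm x n p = ENNReal.ofReal (tR x n p) := by
  unfold tm tR
  rw [ENNReal.ofReal_sum_of_nonneg fun i _ => hx _]

theorem tR_mono {x : En} (hx : ∀ e, 0 ≤ x e) {m n : ℕ} (h : m ≤ n) (p : ℕ → V) :
    tR x m p ≤ tR x n p :=
  Finset.sum_le_sum_of_subset_of_nonneg (Finset.range_mono h) fun i _ _ => hx _

/-! ### boxes and monotone paths -/

/-- the box -/
def box (N : ℕ) (v : V) : Prop := |v.1| ≤ N ∧ |v.2| ≤ N

/-- the box as a finite set -/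
noncomputable def boxF (N : ℕ) : Finset V := Finset.Icc (-(N : ℤ)) N ×ˢ Finset.Icc (-(N : ℤ)) N

theorem mem_boxF {N : ℕ} {v : V} : v ∈ boxF N ↔ box N v := by
  unfold boxF box
  rw [Finset.mem_product, Finset.mem_Icc, Finset.mem_Icc, abs_le, abs_le]

theorem card_boxF (N : ℕ) : (boxF N).card = (2 * N + 1) ^ 2 := by
  unfold boxF
  rw [Finset.card_product, Int.card_Icc]
  have : ((N : ℤ) + 1 - -(N : ℤ)).toNat = 2 * N + 1 := by omega
  rw [this]; ring

open Classical in
/-- the edges of the box -/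
noncomputable def FN (N : ℕ) : Finset (Sym2 V) := (boxF N ×ˢ boxF N).image fun q => s(q.1, q.2)

theorem mem_FN {N : ℕ} {a b : V} (ha : box N a) (hb : box N b) : s(a, b) ∈ FN N := by
  classical
  unfold FN
  exact Finset.mem_image.2 ⟨(a, b), Finset.mem_product.2 ⟨mem_boxF.2 ha, mem_boxF.2 hb⟩, rfl⟩

/-- the length of a monotone path -/
def dst (a b : V) : ℕ := (b.1 - a.1).natAbs + (b.2 - a.2).natAbs

theorem lpath (n : ℕ) : ∀ a b : V, dst a b = n → ∃ p : ℕ → V, Fu a b n p ∧ ∀ i ≤ n,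
    min a.1 b.1 ≤ (p i).1 ∧ (p i).1 ≤ max a.1 b.1 ∧ min a.2 b.2 ≤ (p i).2 ∧
      (p i).2 ≤ max a.2 b.2 := by
  induction n with
  | zero =>
    intro a b h
    have hab : a = b := by
      unfold dst at h
      ext <;> omega
    subst hab
    refine ⟨fun _ => a, ⟨rfl, rfl, fun i hi => absurd hi (Nat.not_lt_zero i)⟩, fun i _ => ?_⟩
    simp
  | succ n ih =>
    intro a b h
    obtain ⟨c, hc, hst, h1, h2⟩ : ∃ c : V, dst c b = n ∧ |c.1 - a.1| + |c.2 - a.2| = 1 ∧
        (min a.1 b.1 ≤ c.1 ∧ c.1 ≤ max a.1 b.1) ∧ (min a.2 b.2 ≤ c.2 ∧ c.2 ≤ max a.2 b.2) := by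
      unfold dst at h ⊢
      rcases lt_trichotomy a.1 b.1 with h3 | h3 | h3
      · refine ⟨(a.1 + 1, a.2), ?_, ?_, ?_, ?_⟩ <;> simp only
        · omega
        · simp
        · omega
        · omega
      · rcases lt_trichotomy a.2 b.2 with h4 | h4 | h4
        · refine ⟨(a.1, a.2 + 1), ?_, ?_, ?_, ?_⟩ <;> simp only
          · omega
          · simp
          · omega
          · omega
        · omega
        · refine ⟨(a.1, a.2 - 1), ?_, ?_, ?_, ?_⟩ <;> simp only
          · omega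
          · simp
          · omega
          · omega
      · refine ⟨(a.1 - 1, a.2), ?_, ?_, ?_, ?_⟩ <;> simp only
        · omega
        · simp
        · omega
        · omega
    obtain ⟨p, ⟨p0, p1, p2⟩, p3⟩ := ih c b hc
    refine ⟨fun i => if i = 0 then a else p (i - 1), ⟨rfl, ?_, ?_⟩, ?_⟩
    · simp only [Nat.succ_ne_zero, if_false, Nat.add_sub_cancel]; exact p1
    · intro i hi
      rcases Nat.eq_zero_or_pos i with h3 | h3
      · subst h3
        simp only [if_true, Nat.zero_add, one_ne_zero, if_false, Nat.sub_self, p0]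
        exact hst
      · have h4 := p2 (i - 1) (by omega)
        have h5 : i - 1 + 1 = i := by omega
        rw [h5] at h4
        simp only [h3.ne', if_false, Nat.succ_ne_zero, Nat.add_sub_cancel]
        exact h4
    · intro i hi
      rcases Nat.eq_zero_or_pos i with h3 | h3
      · subst h3
        simp
      · have h4 := p3 (i - 1) (by omega)
        simp only [h3.ne', if_false]
        omega

/-- the chosen monotone path -/
noncomputable def LP (a b : V) : ℕ → V := (lpath (dst a b) a b rfl).choose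

theorem LP_fu (a b : V) : Fu a b (dst a b) (LP a b) := (lpath (dst a b) a b rfl).choose_spec.1

theorem LP_re {N : ℕ} {a b : V} (ha : box N a) (hb : box N b) :
    Re (box N) a b (dst a b) (LP a b) := by
  obtain ⟨h0, h1, h2⟩ := LP_fu a b
  refine ⟨h0, h1, h2, fun i hi => ?_⟩
  have h3 := (lpath (dst a b) a b rfl).choose_spec.2 i hi
  have h4 : LP a b = (lpath (dst a b) a b rfl).choose := rfl
  rw [← h4] at h3
  unfold box at ha hb ⊢
  rw [abs_le, abs_le] at ha hb ⊢
  omega

theorem box_ne {N : ℕ} {a b : V} (ha : box N a) (hb : box N b) :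
    ∃ n p, Re (box N) a b n p := ⟨_, _, LP_re ha hb⟩

/-- simple paths in the box are short -/
theorem sim_len {N : ℕ} {a b : V} {n : ℕ} {p : ℕ → V} (h : Re (box N) a b n p) (hs : Sim n p) :
    n < (2 * N + 1) ^ 2 := by
  have h1 : (Finset.range (n + 1)).card ≤ (boxF N).card := by
    refine Finset.card_le_card_of_injOn p (fun i hi => ?_) (fun i hi j hj hij => ?_)
    · have := Finset.mem_range.1 (Finset.mem_coe.1 hi)
      exact mem_boxF.2 (h.2.2.2 i (by omega))
    · have h3 := Finset.mem_range.1 (Finset.mem_coe.1 hi)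
      have h4 := Finset.mem_range.1 (Finset.mem_coe.1 hj)
      rcases lt_trichotomy i j with h5 | h5 | h5
      · exact absurd hij (hs i j h5 (by omega))
      · exact h5
      · exact absurd hij.symm (hs j i h5 (by omega))
  rw [Finset.card_range, card_boxF] at h1
  omega

/-! ### rounded environments -/

theorem bits_sum (n L : ℕ) :
    ∑ k ∈ Finset.range L, (if Nat.testBit n k then 2 ^ k else 0) = n % 2 ^ L := by
  induction L with
  | zero => simp [Nat.mod_one]
  | succ L ih =>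
    rw [Finset.sum_range_succ, ih, Nat.mod_pow_succ, Nat.testBit_eq_decide_div_mod_eq]
    congr 1
    rcases Nat.mod_two_eq_zero_or_one (n / 2 ^ L) with h | h
    · simp [h]
    · simp [h]

open Classical in
/-- the rounded environment -/
noncomputable def yq (s : ℝ) (F : Finset (Sym2 V)) (L : ℕ) (x : En) : Sym2 V → ℕ := fun e =>
  if e ∈ F then ⌊s * x e⌋₊ % 2 ^ L else 0

theorem yb_ov {s : ℝ} {F : Finset (Sym2 V)} {L : ℕ} {l : List (Sym2 V)} [DecidableEq (Sym2 V)]
    (hF : ∀ e ∈ F, e ∈ l) (x : En) (w : Sym2 V × ℕ → Bool) :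
    yb F L (ov s L l x w) = yq s F L x := by
  classical
  funext e
  unfold yb yq
  by_cases he : e ∈ F
  · rw [if_pos he, if_pos he, ← bits_sum]
    refine Finset.sum_congr rfl fun k hk => ?_
    have h1 : ov s L l x w (e, k) = Nat.testBit ⌊s * x e⌋₊ k := by
      unfold ov
      rw [if_pos ⟨hF e he, Finset.mem_range.1 hk⟩]
    rw [h1]
  · rw [if_neg he, if_neg he]

theorem yq_le {s : ℝ} (hs : 0 < s) (F : Finset (Sym2 V)) (L : ℕ) {x : En} (hx : ∀ e, 0 ≤ x e)
    (e : Sym2 V) : (yq s F L x e : ℝ) ≤ s * x e := by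
  classical
  have h0 : 0 ≤ s * x e := mul_nonneg hs.le (hx e)
  unfold yq
  split_ifs
  · refine le_trans ?_ (Nat.floor_le h0)
    exact_mod_cast Nat.mod_le _ _
  · simpa using h0

theorem le_yq {s : ℝ} (F : Finset (Sym2 V)) (L : ℕ) {x : En}
    {e : Sym2 V} (he : e ∈ F) (hL : s * x e < 2 ^ L) : s * x e ≤ yq s F L x e + 1 := by
  classical
  unfold yq
  rw [if_pos he]
  have h1 : ⌊s * x e⌋₊ < 2 ^ L := by
    rcases lt_or_ge (s * x e) 0 with h | h
    · rw [Nat.floor_of_nonpos h.le]; positivity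
    · exact (Nat.floor_lt h).2 (by exact_mod_cast hL)
  rw [Nat.mod_eq_of_lt h1]
  exact (Nat.lt_floor_add_one _).le

/-- all the weights in the box are small -/
def Sm (s : ℝ) (F : Finset (Sym2 V)) (L : ℕ) (x : En) : Prop := ∀ e ∈ F, s * x e < 2 ^ L

theorem tN_le {s : ℝ} (hs : 0 < s) (F : Finset (Sym2 V)) (L : ℕ) {x : En} (hx : ∀ e, 0 ≤ x e)
    (n : ℕ) (p : ℕ → V) : (tN (yq s F L x) n p : ℝ) ≤ s * tR x n p := by
  unfold tN tR
  push_cast
  rw [Finset.mul_sum]
  exact Finset.sum_le_sum fun i _ => yq_le hs F L hx _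

theorem le_tN {s : ℝ} {N L : ℕ} {x : En} (hsm : Sm s (FN N) L x) {n : ℕ} {p : ℕ → V}
    (hp : ∀ i ≤ n, box N (p i)) : s * tR x n p ≤ tN (yq s (FN N) L x) n p + n := by
  unfold tN tR
  push_cast
  rw [Finset.mul_sum]
  have h1 : ∀ i ∈ Finset.range n, s * x s(p i, p (i + 1)) ≤
      (yq s (FN N) L x s(p i, p (i + 1)) : ℝ) + 1 := by
    intro i hi
    have h2 := Finset.mem_range.1 hi
    have h3 : s(p i, p (i + 1)) ∈ FN N := mem_FN (hp i h2.le) (hp (i + 1) h2)
    exact le_yq _ _ h3 (hsm _ h3)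
  refine (Finset.sum_le_sum h1).trans (le_of_eq ?_)
  rw [Finset.sum_add_distrib]
  simp

/-- pieces of minimal paths are minimal -/
theorem geo_sub {S : V → Prop} {a b : V} {y : Sym2 V → ℕ} {n : ℕ} {p : ℕ → V}
    (hg : IsGeo S a b y n p) {i m k : ℕ} (him : i + m ≤ n) {q : ℕ → V}
    (hq : Re S (p i) (p (i + m)) k q) : tN y m (sh i p) ≤ tN y k q := by
  obtain ⟨hR, ht, -⟩ := hg
  have h1 := Re_pre hR (by omega : i ≤ n)
  have h2 : Re S (p (i + m)) (p ((i + m) + (n - (i + m)))) (n - (i + m)) (sh (i + m) p) :=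
    Re_sh hR (by omega)
  have e1 : (i + m) + (n - (i + m)) = n := by omega
  rw [e1, hR.2.1] at h2
  have h3 := Re_cat (Re_cat h1 hq) h2
  have h4 := TN_le y h3
  have e2 : p i = q 0 := hq.1.symm
  have e3 : cat i p q (i + k) = sh (i + m) p 0 := by
    rw [cat_add e2, hq.2.1]; rfl
  rw [tN_cat e3, tN_cat e2, ← ht] at h4
  have h5 : tN y n p = tN y (i + m) p + tN y (n - (i + m)) (sh (i + m) p) := by
    rw [← tN_split, e1]
  have h6 : tN y (i + m) p = tN y i p + tN y m (sh i p) := tN_split y i m p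
  omega

open Classical in
/-- the number of fast paths -/
noncomputable def ZZ (Q : Finset V) (m0 K : ℕ) (x : En) : ℝ :=
  ∑ m ∈ Finset.Ioc m0 K, ∑ u ∈ Q, (if Fast (shE u x) m then 1 else 0)

theorem ZZ_nonneg (Q : Finset V) (m0 K : ℕ) (x : En) : 0 ≤ ZZ Q m0 K x := by
  unfold ZZ
  refine Finset.sum_nonneg fun m _ => Finset.sum_nonneg fun u _ => ?_
  split_ifs <;> norm_num

/-- the length of a simple path -/
theorem len_le {Q : Finset V} {m0 K : ℕ} {x : En} (hx : ∀ e, 0 ≤ x e) {n : ℕ} {p : ℕ → V}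
    (hst : Stp n p) (hs : Sim n p) (h0 : p 0 ∈ Q) {w : ℝ} (hw : 0 ≤ w) (ht : tR x n p ≤ w)
    (hK : n ≤ K) : (n : ℝ) ≤ 25 * w + m0 + ZZ Q m0 K x := by
  classical
  have hZ := ZZ_nonneg Q m0 K x
  set a := ⌊25 * w⌋₊ with ha
  have ha1 : (a : ℝ) ≤ 25 * w := Nat.floor_le (by positivity)
  rcases le_or_gt n (a + m0) with h | h
  · have : (n : ℝ) ≤ a + m0 := by exact_mod_cast h
    linarith
  · have hfast : ∀ m ∈ Finset.Ioc (a + m0) n, Fast (shE (p 0) x) m := by
      intro m hm
      obtain ⟨h1, h2⟩ := Finset.mem_Ioc.1 hm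
      refine ⟨fun i => p i - p 0, ?_, ?_, ?_, ?_⟩
      · show p 0 - p 0 = 0
        exact sub_self _
      · have h3 : Stp m (fun i => p i - p 0) := (stp_sub (p 0)).2 (stp_mono hst h2)
        exact h3
      · intro i hi j hj hij
        have h3 : p i = p j := sub_left_injective hij
        rcases lt_trichotomy i j with h5 | h5 | h5
        · exact absurd h3 (hs i j h5 (by omega))
        · exact h5
        · exact absurd h3.symm (hs j i h5 (by omega))
      · have h3 : ∑ i ∈ Finset.range m, shE (p 0) x s(p i - p 0, p (i + 1) - p 0) = tR x m p := by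
          unfold tR
          refine Finset.sum_congr rfl fun i _ => ?_
          show x (Pool.Agent.N390.FL.TI.sg (p 0) s(p i - p 0, p (i + 1) - p 0)) = _
          have e : Pool.Agent.N390.FL.TI.sg (p 0) s(p i - p 0, p (i + 1) - p 0) =
              s(p 0 + (p i - p 0), p 0 + (p (i + 1) - p 0)) := rfl
          rw [e, add_sub_cancel, add_sub_cancel]
        rw [h3]
        have h4 : tR x m p ≤ w := (tR_mono hx h2 p).trans ht
        have h5 : 25 * w < m := (Nat.floor_lt (by positivity)).1 (by omega)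
        linarith
    have h1 : ((n - (a + m0) : ℕ) : ℝ) ≤ ZZ Q m0 K x := by
      have h2 : ((n - (a + m0) : ℕ) : ℝ) =
          ∑ m ∈ Finset.Ioc (a + m0) n, (if Fast (shE (p 0) x) m then (1 : ℝ) else 0) := by
        rw [Finset.sum_congr rfl fun m hm => if_pos (hfast m hm), Finset.sum_const,
          Nat.card_Ioc, nsmul_eq_mul, mul_one]
      rw [h2]
      unfold ZZ
      refine le_trans (Finset.sum_le_sum_of_subset_of_nonneg (t := Finset.Ioc m0 K) ?_ ?_) ?_
      · intro m hm
        rw [Finset.mem_Ioc] at hm ⊢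
        omega
      · intro m _ _
        split_ifs <;> norm_num
      · refine Finset.sum_le_sum fun m _ => ?_
        exact Finset.single_le_sum (f := fun u => if Fast (shE u x) m then (1 : ℝ) else 0)
          (fun u _ => by split_ifs <;> norm_num) h0
    have h2 : ((n - (a + m0) : ℕ) : ℝ) = n - (a + m0) := by
      rw [Nat.cast_sub h.le]; push_cast; ring
    rw [h2] at h1
    linarith

/-- the main estimate: pieces of the rounded geodesics between two points joined by a fast path -/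
theorem piece_le {N L : ℕ} {s : ℝ} {x : En} (hx : ∀ e, 0 ≤ x e) (hs : ((2 * N + 1) ^ 2 : ℝ) ≤ s)
    (hsm : Sm s (FN N) L x) {a b : V} {n : ℕ} {p : ℕ → V}
    (hg : IsGeo (box N) a b (yq s (FN N) L x) n p) {i m : ℕ} (him : i + m ≤ n) {Q : Finset V}
    (hQ : p i ∈ Q) {w : ℝ} (hw : 0 ≤ w) {k : ℕ} {q : ℕ → V}
    (hq : Re (box N) (p i) (p (i + m)) k q) (hqw : tR x k q ≤ w) (m0 : ℕ) :
    (m : ℝ) ≤ 25 * (w + 1) + m0 + ZZ Q m0 ((2 * N + 1) ^ 2) x := by
  have hs0 : 0 < s := lt_of_lt_of_le (by positivity) hs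
  have hR := Re_sh hg.1 him
  have hsim : Sim m (sh i p) := fun c d hcd hd => hg.2.2 (i + c) (i + d) (by omega) (by omega)
  have hm : m < (2 * N + 1) ^ 2 := sim_len hR hsim
  have h1 := geo_sub hg him hq
  have h2 : (tN (yq s (FN N) L x) k q : ℝ) ≤ s * w :=
    (tN_le hs0 _ _ hx k q).trans (mul_le_mul_of_nonneg_left hqw hs0.le)
  have h3 := le_tN hsm (n := m) (p := sh i p) hR.2.2.2
  have h4 : (tN (yq s (FN N) L x) m (sh i p) : ℝ) ≤ tN (yq s (FN N) L x) k q := by
    exact_mod_cast h1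
  have h5 : (m : ℝ) ≤ s := by
    refine le_trans ?_ hs
    exact_mod_cast hm.le
  have h6 : s * tR x m (sh i p) ≤ s * (w + 1) := by linarith
  have h7 : tR x m (sh i p) ≤ w + 1 := le_of_mul_le_mul_left h6 hs0
  exact len_le hx hR.2.2.1 hsim hQ (by linarith) h7 hm.le

end Pool.Agent.J4.H89.BK
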