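import Pool.Agent.J4.H89.BK.Avg

set_option autoImplicit false
open MeasureTheory ProbabilityTheory Filter Set
open scoped ENNReal Topology

/-!
# From rounded passage times in boxes to passage times (helper89)
-/

namespace Pool.Agent.J4.H89.BK

open Function
open Pool.Agent.J4.H91.FPP
open Pool.Agent.N390.FL.TI (sg sg_inj)

/-- variance of a function of the environment -/
noncomputable def Vr (f : En → ℝ) : ℝ := ∫ x, f x ^ 2 ∂PP - (∫ x, f x ∂PP) ^ 2

theorem var_lim {f : ℕ → En → ℝ} {g h : En → ℝ} (hf : ∀ n, Measurable (f n))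
    (hh : MemLp h 2 PP) (hb : ∀ᶠ n in atTop, ∀ᵐ x ∂PP, |f n x| ≤ h x)
    (hl : ∀ᵐ x ∂PP, Tendsto (fun n => f n x) atTop (𝓝 (g x))) :
    Tendsto (fun n => Vr (f n)) atTop (𝓝 (Vr g)) := by
  have h1 : Tendsto (fun n => ∫ x, f n x ∂PP) atTop (𝓝 (∫ x, g x ∂PP)) := by
    refine tendsto_integral_filter_of_dominated_convergence h
      (Eventually.of_forall fun n => (hf n).aestronglyMeasurable) ?_
      (hh.integrable (by norm_num)) hl
    filter_upwards [hb] with n hn
    filter_upwards [hn] with x hx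
    exact hx
  have h2 : Tendsto (fun n => ∫ x, f n x ^ 2 ∂PP) atTop (𝓝 (∫ x, g x ^ 2 ∂PP)) := by
    refine tendsto_integral_filter_of_dominated_convergence (fun x => h x ^ 2)
      (Eventually.of_forall fun n => ((hf n).pow_const 2).aestronglyMeasurable) ?_
      hh.integrable_sq ?_
    · filter_upwards [hb] with n hn
      filter_upwards [hn] with x hx
      rw [Real.norm_eq_abs, abs_pow]
      exact pow_le_pow_left₀ (abs_nonneg _) hx 2
    · filter_upwards [hl] with x hx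
      exact hx.pow 2
  exact h2.sub (h1.pow 2)

/-- passage time in the box -/
noncomputable def TR (N : ℕ) (v : V) (x : En) : ℝ := (LE (Re (box N) 0 v) x).toReal

theorem TR_meas (N : ℕ) (v : V) : Measurable (TR N v) := (LE_meas _).ennreal_toReal

theorem box_zero (N : ℕ) : box N 0 := by
  unfold box; simp

theorem box_mono {N N' : ℕ} (h : N ≤ N') {v : V} (hv : box N v) : box N' v := by
  unfold box at *
  omega

theorem box_ev (v : V) : ∀ᶠ N : ℕ in atTop, box N v := by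
  filter_upwards [eventually_ge_atTop (v.1.natAbs + v.2.natAbs)] with N hN
  unfold box
  rw [abs_le, abs_le]
  omega

theorem LE_box_lt {N : ℕ} {v : V} (hv : box N v) (x : En) : LE (Re (box N) 0 v) x < ⊤ :=
  (LE_le (C := Re (box N) 0 v) (LP_re (box_zero N) hv) x).trans_lt (tm_lt_top _ _ _)

theorem TR_le {N : ℕ} {v : V} {x : En} (hx : ∀ e, 0 ≤ x e) {n : ℕ} {p : ℕ → V}
    (hp : Re (box N) 0 v n p) : TR N v x ≤ tR x n p := by
  have h1 := LE_le (C := Re (box N) 0 v) hp x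
  rw [tm_tR hx] at h1
  unfold TR
  exact ENNReal.toReal_le_of_le_ofReal (tR_nonneg hx n p) h1

theorem TR_nonneg (N : ℕ) (v : V) (x : En) : 0 ≤ TR N v x := ENNReal.toReal_nonneg

theorem RR_nonneg (N M : ℕ) (v : V) (x : En) : 0 ≤ RR N M v x := by
  unfold RR; positivity

theorem RR_le_TR {N M : ℕ} {v : V} (hv : box N v) {x : En} (hx : ∀ e, 0 ≤ x e) :
    RR N M v x ≤ TR N v x := by
  have h1 : ENNReal.ofReal (RR N M v x) ≤ LE (Re (box N) 0 v) x := by
    refine le_LE fun n p hp => ?_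
    rw [tm_tR hx]
    refine ENNReal.ofReal_le_ofReal ?_
    unfold RR
    rw [div_le_iff₀ (by positivity)]
    refine le_trans ?_ ((tN_le (by positivity : (0 : ℝ) < 2 ^ M) (FN N) (2 * M) hx n p).trans
      (le_of_eq (mul_comm _ _)))
    exact_mod_cast TN_le _ hp
  unfold TR
  rw [← ENNReal.ofReal_le_ofReal_iff ENNReal.toReal_nonneg,
    ENNReal.ofReal_toReal (LE_box_lt hv x).ne]
  exact h1

theorem TR_le_RR {N M : ℕ} {v : V} (hv : box N v) {x : En} (hx : ∀ e, 0 ≤ x e)
    (hsm : Sm (2 ^ M) (FN N) (2 * M) x) : TR N v x ≤ RR N M v x + (2 * N + 1) ^ 2 / 2 ^ M := by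
  obtain ⟨n, p, hg, -, hn, -⟩ := GE_card (box_zero N) hv (yq (2 ^ M) (FN N) (2 * M) x)
  refine (TR_le hx hg.1).trans ?_
  have h1 := le_tN hsm hg.1.2.2.2
  rw [hg.2.1] at h1
  unfold RR
  rw [← add_div, le_div_iff₀ (by positivity), mul_comm]
  refine h1.trans ?_
  have : (n : ℝ) ≤ (2 * N + 1) ^ 2 := by exact_mod_cast hn.le
  linarith

theorem Sm_ev (N : ℕ) (x : En) : ∀ᶠ M : ℕ in atTop, Sm (2 ^ M) (FN N) (2 * M) x := by
  have h1 : ∀ e ∈ FN N, ∀ᶠ M : ℕ in atTop, (2 : ℝ) ^ M * x e < 2 ^ (2 * M) := by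
    intro e _
    filter_upwards [(tendsto_pow_atTop_atTop_of_one_lt (one_lt_two : (1 : ℝ) < 2)).eventually_gt_atTop
      (x e)] with M hM
    rw [two_mul, pow_add]
    exact mul_lt_mul_of_pos_left hM (by positivity)
  exact (Filter.eventually_all_finset (FN N)).2 h1

theorem RR_tendsto {N : ℕ} {v : V} (hv : box N v) {x : En} (hx : ∀ e, 0 ≤ x e) :
    Tendsto (fun M => RR N M v x) atTop (𝓝 (TR N v x)) := by
  have h1 : Tendsto (fun M : ℕ => ((2 * N + 1) ^ 2 : ℝ) / 2 ^ M) atTop (𝓝 0) :=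
    tendsto_const_nhds.div_atTop (tendsto_pow_atTop_atTop_of_one_lt one_lt_two)
  have h2 : Tendsto (fun M : ℕ => TR N v x - ((2 * N + 1) ^ 2 : ℝ) / 2 ^ M) atTop
      (𝓝 (TR N v x)) := by
    have := (tendsto_const_nhds (x := TR N v x)).sub h1
    rwa [sub_zero] at this
  refine tendsto_of_tendsto_of_tendsto_of_le_of_le' h2 tendsto_const_nhds ?_
    (Eventually.of_forall fun M => RR_le_TR hv hx)
  filter_upwards [Sm_ev N x] with M hM
  have := TR_le_RR hv hx hM
  linarith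

theorem dR_le_TR {N : ℕ} {v : V} (hv : box N v) (x : En) : dR 0 v x ≤ TR N v x := by
  unfold dR TR
  refine ENNReal.toReal_mono (LE_box_lt hv x).ne ?_
  refine le_LE fun n p hp => ?_
  exact LE_le (C := Fu 0 v) ⟨hp.1, hp.2.1, hp.2.2.1⟩ x

theorem stp_box {n : ℕ} {p : ℕ → V} (h0 : p 0 = 0) (hs : Stp n p) : ∀ i ≤ n, box n (p i) := by
  have h1 : ∀ i ≤ n, |(p i).1| ≤ i ∧ |(p i).2| ≤ i := by
    intro i
    induction i with
    | zero => intro _; rw [h0]; simp
    | succ i ih =>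
      intro hi
      have h2 := ih (by omega)
      have h3 := hs i (by omega)
      push_cast
      constructor
      · have := abs_sub_abs_le_abs_sub (p (i + 1)).1 (p i).1
        have := abs_nonneg ((p (i + 1)).2 - (p i).2)
        linarith [h2.1]
      · have := abs_sub_abs_le_abs_sub (p (i + 1)).2 (p i).2
        have := abs_nonneg ((p (i + 1)).1 - (p i).1)
        linarith [h2.2]
  intro i hi
  obtain ⟨h2, h3⟩ := h1 i hi
  have h4 : (i : ℤ) ≤ n := by exact_mod_cast hi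
  exact ⟨h2.trans h4, h3.trans h4⟩

theorem TR_tendsto (v : V) {x : En} (hx : ∀ e, 0 ≤ x e) :
    Tendsto (fun N => TR N v x) atTop (𝓝 (dR 0 v x)) := by
  rw [Metric.tendsto_atTop]
  intro ε hε
  obtain ⟨N0, hN0⟩ := eventually_atTop.1 (box_ev v)
  obtain ⟨n, p, hp, ht⟩ := dR_lt (show dR 0 v x < dR 0 v x + ε by linarith)
  refine ⟨max N0 n, fun N hN => ?_⟩
  have h1 := dR_le_TR (hN0 N (le_trans (le_max_left _ _) hN)) x
  have h2 : Re (box N) 0 v n p := ⟨hp.1, hp.2.1, hp.2.2, fun i hi =>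
    box_mono (le_trans (le_max_right _ _) hN) (stp_box hp.1 hp.2.2 i hi)⟩
  have h3 := TR_le hx h2
  rw [tm_tR hx, ENNReal.ofReal_lt_ofReal_iff (by linarith [dR_nonneg 0 v x])] at ht
  rw [Real.dist_eq, abs_of_nonneg (by linarith)]
  linarith

/-! ### the averages -/

/-- averages over shifts -/
noncomputable def Sh (B : Finset V) (f : En → ℝ) (x : En) : ℝ := (∑ z ∈ B, f (shE z x)) / B.card

theorem Sh_meas (B : Finset V) {f : En → ℝ} (hf : Measurable f) : Measurable (Sh B f) :=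
  (Finset.measurable_sum _ fun z _ => hf.comp (shE_meas z)).div_const _

theorem shE_nonneg {x : En} (hx : ∀ e, 0 ≤ x e) (z : V) (e : Sym2 V) : 0 ≤ shE z x e := hx _

theorem Sh_abs {B : Finset V} {f h : En → ℝ} {x : En} (hx : ∀ e, 0 ≤ x e)
    (hfh : ∀ y : En, (∀ e, 0 ≤ y e) → |f y| ≤ h y) : |Sh B f x| ≤ Sh B h x := by
  unfold Sh
  rw [abs_div, abs_of_nonneg (Nat.cast_nonneg (α := ℝ) B.card)]
  refine div_le_div_of_nonneg_right ?_ (Nat.cast_nonneg _)
  exact (Finset.abs_sum_le_sum_abs _ _).trans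
    (Finset.sum_le_sum fun z _ => hfh _ (shE_nonneg hx z))

theorem Sh_memLp (B : Finset V) {f : En → ℝ} (hf : MemLp f 2 PP) : MemLp (Sh B f) 2 PP := by
  have h1 : ∀ z ∈ B, MemLp (fun x => f (shE z x)) 2 PP := fun z _ => by
    have h : MemLp f 2 (Measure.map (shE z) PP) := by rw [shE_map]; exact hf
    exact h.comp_of_map (shE_meas z).aemeasurable
  have h2 : MemLp (fun x => ∑ z ∈ B, f (shE z x)) 2 PP := memLp_finsetSum B h1
  have h3 := h2.mul_const ((B.card : ℝ)⁻¹)
  have e : Sh B f = fun x => (∑ z ∈ B, f (shE z x)) * ((B.card : ℝ)⁻¹) := by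
    funext x
    unfold Sh
    rw [div_eq_mul_inv]
  rw [e]
  exact h3

theorem tR_memLp (n : ℕ) (p : ℕ → V) : MemLp (fun x : En => tR x n p) 2 PP := by
  rw [memLp_two_iff_integrable_sq (tR_meas n p).aestronglyMeasurable]
  exact (tR_mom n p 1).1

theorem var_TR {B : Finset V} {N : ℕ} {v : V} (hv : box N v) :
    Tendsto (fun M => Vr (AR B N M v)) atTop (𝓝 (Vr (Sh B (TR N v)))) := by
  refine var_lim (h := Sh B fun x => tR x (dst 0 v) (LP 0 v)) (fun M => ?_)
    (Sh_memLp B (tR_memLp _ _)) ?_ ?_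
  · exact Sh_meas B (RR_meas N M v)
  · refine Eventually.of_forall fun M => ?_
    filter_upwards [ae_nonneg] with x hx
    refine Sh_abs (f := RR N M v) hx fun y hy => ?_
    rw [abs_of_nonneg (RR_nonneg N M v y)]
    exact (RR_le_TR hv hy).trans (TR_le hy (LP_re (box_zero N) hv))
  · filter_upwards [ae_nonneg] with x hx
    unfold AR Sh
    refine Tendsto.div_const ?_ _
    exact tendsto_finsetSum _ fun z _ => RR_tendsto hv (shE_nonneg hx z)

theorem var_dR {B : Finset V} {v : V} :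
    Tendsto (fun N => Vr (Sh B (TR N v))) atTop (𝓝 (Vr (Sh B (dR 0 v)))) := by
  refine var_lim (h := Sh B fun x => tR x (dst 0 v) (LP 0 v)) (fun N => ?_)
    (Sh_memLp B (tR_memLp _ _)) ?_ ?_
  · exact Sh_meas B (TR_meas N v)
  · filter_upwards [box_ev v] with N hN
    filter_upwards [ae_nonneg] with x hx
    refine Sh_abs (f := TR N v) hx fun y hy => ?_
    rw [abs_of_nonneg (TR_nonneg N v y)]
    exact TR_le hy (LP_re (box_zero N) hN)
  · filter_upwards [ae_nonneg] with x hx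
    unfold Sh
    refine Tendsto.div_const ?_ _
    exact tendsto_finsetSum _ fun z _ => TR_tendsto v (shE_nonneg hx z)

/-! ### the probability of large weights -/

theorem Sm_prob (N M : ℕ) :
    PP.real {x | ¬ Sm (2 ^ M) (FN N) (2 * M) x} ≤ (FN N).card / 2 ^ M := by
  have h1 : {x : En | ¬ Sm (2 ^ M) (FN N) (2 * M) x} ⊆ ⋃ e ∈ FN N, {x : En | (2 : ℝ) ^ M ≤ x e} := by
    intro x hx
    simp only [Sm, mem_ofPred_eq, not_forall, not_lt, exists_prop] at hx
    obtain ⟨e, he, h⟩ := hx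
    refine mem_iUnion₂.2 ⟨e, he, ?_⟩
    rw [two_mul, pow_add] at h
    exact le_of_mul_le_mul_left h (by positivity)
  have h2 : ∀ e ∈ FN N, PP.real {x : En | (2 : ℝ) ^ M ≤ x e} ≤ 1 / 2 ^ M := by
    intro e _
    obtain ⟨hi, hm⟩ := edge_mom e 1
    simp only [pow_one, Nat.factorial_one, Nat.cast_one] at hi hm
    have h3 := mul_meas_ge_le_integral_of_nonneg (μ := PP) (f := fun x : En => x e)
      (by filter_upwards [ae_nonneg] with x hx; exact hx e) hi (2 ^ M)
    rw [hm] at h3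
    rw [le_div_iff₀ (by positivity), mul_comm]
    exact h3
  refine (measureReal_mono h1 (measure_ne_top _ _)).trans ?_
  refine (measureReal_biUnion_finset_le _ _).trans ?_
  refine (Finset.sum_le_sum h2).trans (le_of_eq ?_)
  rw [Finset.sum_const, nsmul_eq_mul, mul_one_div]

theorem Sm_prob_ev (N : ℕ) {ε : ℝ} (hε : 0 < ε) : ∀ᶠ M : ℕ in atTop,
    ((2 * N + 1) ^ 2 : ℝ) * PP.real {x | ¬ Sm (2 ^ M) (FN N) (2 * M) x} ≤ ε := by
  have h1 : Tendsto (fun M : ℕ => ((2 * N + 1) ^ 2 : ℝ) * (((FN N).card : ℝ) / 2 ^ M)) atTop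
      (𝓝 (((2 * N + 1) ^ 2 : ℝ) * 0)) :=
    (tendsto_const_nhds.div_atTop (tendsto_pow_atTop_atTop_of_one_lt one_lt_two)).const_mul _
  rw [mul_zero] at h1
  filter_upwards [h1.eventually (gt_mem_nhds hε)] with M hM
  refine le_trans ?_ hM.le
  exact mul_le_mul_of_nonneg_left (Sm_prob N M) (by positivity)

end Pool.Agent.J4.H89.BK
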