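import Pool.Agent.J4.H89.BK.Len
import Pool.Agent.J4.H91.FPP.Tail

set_option autoImplicit false
open MeasureTheory ProbabilityTheory Filter Set
open scoped ENNReal Topology

/-!
# Moments of passage times (helper89)
-/

namespace Pool.Agent.J4.H89.BK

open Function
open Pool.Agent.J4.H91.FPP

theorem exp_mom (k : ℕ) : Integrable (fun y : ℝ => y ^ k) (expMeasure 1) ∧
    ∫ y, y ^ k ∂(expMeasure 1) = k.factorial := by
  have h1 : expMeasure 1 = (volume : Measure ℝ).withDensity
    (fun x => ENNReal.ofReal (exponentialPDFReal 1 x)) := rfl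
  have hm : Measurable fun x => ENNReal.ofReal (exponentialPDFReal 1 x) :=
    (measurable_exponentialPDFReal 1).ennreal_ofReal
  have hlt : ∀ᵐ x ∂(volume : Measure ℝ), ENNReal.ofReal (exponentialPDFReal 1 x) < ⊤ :=
    Filter.Eventually.of_forall fun x => ENNReal.ofReal_lt_top
  have h2 : (fun x : ℝ => x ^ k * (ENNReal.ofReal (exponentialPDFReal 1 x)).toReal) =ᵐ[volume]
      (Ioi (0 : ℝ)).indicator fun x => Real.exp (-x) * x ^ (((k : ℝ) + 1) - 1) := by
    have h0 : ∀ᵐ x ∂(volume : Measure ℝ), x ≠ 0 := by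
      rw [ae_iff]; simp
    filter_upwards [h0] with x hx0
    rw [ENNReal.toReal_ofReal (exponentialPDFReal_nonneg one_pos x)]
    by_cases hx : 0 < x
    · rw [indicator_of_mem (show x ∈ Ioi (0 : ℝ) from hx)]
      have h3 : exponentialPDFReal 1 x = Real.exp (-x) := by
        unfold exponentialPDFReal gammaPDFReal
        rw [if_pos hx.le]
        simp
      rw [h3, add_sub_cancel_right, Real.rpow_natCast, mul_comm]
    · rw [indicator_of_notMem (show x ∉ Ioi (0 : ℝ) from hx)]
      have h3 : exponentialPDFReal 1 x = 0 := by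
        unfold exponentialPDFReal gammaPDFReal
        rw [if_neg]
        intro h4
        exact hx (lt_of_le_of_ne h4 hx0.symm)
      rw [h3, mul_zero]
  constructor
  · rw [h1, integrable_withDensity_iff hm hlt]
    rw [integrable_congr h2, integrable_indicator_iff measurableSet_Ioi]
    exact Real.GammaIntegral_convergent (by positivity)
  · rw [h1, integral_withDensity_eq_integral_toReal_smul hm hlt]
    have h4 : (fun x : ℝ => (ENNReal.ofReal (exponentialPDFReal 1 x)).toReal • x ^ k) =
        fun x : ℝ => x ^ k * (ENNReal.ofReal (exponentialPDFReal 1 x)).toReal := by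
      funext x; rw [smul_eq_mul, mul_comm]
    rw [h4, integral_congr_ae h2, integral_indicator measurableSet_Ioi,
      ← Real.Gamma_eq_integral (by positivity), Real.Gamma_nat_eq_factorial]

theorem edge_mom (e : Sym2 V) (k : ℕ) : Integrable (fun x : En => x e ^ k) PP ∧
    ∫ x, x e ^ k ∂PP = k.factorial := by
  have h1 : Measure.map (fun x : En => x e) PP = expMeasure 1 :=
    Measure.infinitePi_map_eval (fun _ : Sym2 V => expMeasure 1) e
  obtain ⟨h2, h3⟩ := exp_mom k
  rw [← h1] at h2 h3
  have hm : Measurable fun y : ℝ => y ^ k := by fun_prop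
  refine ⟨(integrable_map_measure hm.aestronglyMeasurable
    (measurable_pi_apply e).aemeasurable).1 h2, ?_⟩
  rw [integral_map (measurable_pi_apply e).aemeasurable hm.aestronglyMeasurable] at h3
  exact h3

theorem tR_meas (n : ℕ) (p : ℕ → V) : Measurable fun x : En => tR x n p :=
  Finset.measurable_sum _ fun i _ => measurable_pi_apply _

theorem tR_nonneg {x : En} (hx : ∀ e, 0 ≤ x e) (n : ℕ) (p : ℕ → V) : 0 ≤ tR x n p :=
  Finset.sum_nonneg fun i _ => hx _

theorem tR_mom (n : ℕ) (p : ℕ → V) (k : ℕ) : Integrable (fun x : En => tR x n p ^ (k + 1)) PP ∧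
    ∫ x, tR x n p ^ (k + 1) ∂PP ≤ (n : ℝ) ^ (k + 1) * (k + 1).factorial := by
  have hpt : ∀ᵐ x ∂PP, tR x n p ^ (k + 1) ≤
      (n : ℝ) ^ k * ∑ i ∈ Finset.range n, x s(p i, p (i + 1)) ^ (k + 1) := by
    filter_upwards [ae_nonneg] with x hx
    rcases Nat.eq_zero_or_pos n with h | h
    · subst h
      simp [tR]
    · have h1 := pow_sum_div_card_le_sum_pow (s := Finset.range n)
        (f := fun i => x s(p i, p (i + 1))) (n := k) (fun i _ => hx _)
      rw [Finset.card_range, div_le_iff₀ (by positivity)] at h1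
      unfold tR
      rw [mul_comm]
      exact h1
  have hint : Integrable (fun x : En => (n : ℝ) ^ k *
      ∑ i ∈ Finset.range n, x s(p i, p (i + 1)) ^ (k + 1)) PP :=
    (integrable_finsetSum _ fun i _ => (edge_mom _ (k + 1)).1).const_mul _
  have h1 : Integrable (fun x : En => tR x n p ^ (k + 1)) PP := by
    refine Integrable.mono' hint ((tR_meas n p).pow_const _).aestronglyMeasurable ?_
    filter_upwards [hpt, ae_nonneg] with x h2 hx
    rw [Real.norm_eq_abs, abs_of_nonneg (pow_nonneg (tR_nonneg hx n p) _)]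
    exact h2
  refine ⟨h1, (integral_mono_ae h1 hint hpt).trans (le_of_eq ?_)⟩
  rw [integral_const_mul, integral_finsetSum _ fun i _ => (edge_mom _ (k + 1)).1]
  simp_rw [(edge_mom _ (k + 1)).2]
  rw [Finset.sum_const, Finset.card_range, nsmul_eq_mul]
  ring

/-! ### fast paths -/

open Pool.Agent.N662.FP (Fast Iid)

/-- a measurable set containing the fast environments -/
def FB (m : ℕ) : Set En := toMeasurable PP {x | Fast x m}

theorem FB_meas (m : ℕ) : MeasurableSet (FB m) := measurableSet_toMeasurable _ _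

theorem FB_real (m : ℕ) : PP.real (FB m) ≤ (1 / 2) ^ m := by
  let _ : MeasureSpace En := ⟨PP⟩
  have hprob : IsProbabilityMeasure (volume : Measure En) :=
    inferInstanceAs (IsProbabilityMeasure PP)
  have h1 := Pool.Agent.N896.FM.t_CNT En (fun e x => x e) iid_can m
  have h2 : PP (FB m) ≤ (1 / 2 : ℝ≥0∞) ^ m := by
    unfold FB
    rw [measure_toMeasurable]
    exact h1
  unfold Measure.real
  refine ENNReal.toReal_le_of_le_ofReal (by positivity) (h2.trans (le_of_eq ?_))
  rw [ENNReal.ofReal_pow (by norm_num)]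
  congr 1
  rw [ENNReal.ofReal_div_of_pos two_pos]
  simp

/-- the measurable version of the number of fast paths -/
noncomputable def ZM (Q : Finset V) (m0 K : ℕ) (x : En) : ℝ :=
  ∑ m ∈ Finset.Ioc m0 K, ∑ u ∈ Q, (FB m).indicator (fun _ => (1 : ℝ)) (shE u x)

theorem ZZ_le (Q : Finset V) (m0 K : ℕ) (x : En) : ZZ Q m0 K x ≤ ZM Q m0 K x := by
  classical
  unfold ZZ ZM
  refine Finset.sum_le_sum fun m _ => Finset.sum_le_sum fun u _ => ?_
  by_cases h : Fast (shE u x) m
  · rw [if_pos h, indicator_of_mem]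
    exact subset_toMeasurable PP {x | Fast x m} h
  · rw [if_neg h]
    exact indicator_nonneg (fun _ _ => zero_le_one) _

theorem int_shE {f : En → ℝ} (hf : AEStronglyMeasurable f PP) (u : V) :
    ∫ x, f (shE u x) ∂PP = ∫ x, f x ∂PP := by
  have h := integral_map (μ := PP) (shE_meas u).aemeasurable (f := f) (by rw [shE_map]; exact hf)
  rw [shE_map] at h
  exact h.symm

theorem integrable_shE {f : En → ℝ} (hf : Integrable f PP) (u : V) :
    Integrable (fun x => f (shE u x)) PP := by
  have h : Integrable f (Measure.map (shE u) PP) := by rw [shE_map]; exact hf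
  exact h.comp_measurable (shE_meas u)

theorem ZM_int (Q : Finset V) (m0 K : ℕ) : Integrable (ZM Q m0 K) PP ∧
    ∫ x, ZM Q m0 K x ∂PP ≤ Q.card * (1 / 2) ^ m0 := by
  have h1 : ∀ m, Integrable (fun x : En => (FB m).indicator (fun _ => (1 : ℝ)) x) PP := fun m =>
    (integrable_const 1).indicator (FB_meas m)
  have h2 : ∀ m u, Integrable (fun x : En => (FB m).indicator (fun _ => (1 : ℝ)) (shE u x)) PP :=
    fun m u => integrable_shE (h1 m) u
  have h3 : ∀ m u, ∫ x, (FB m).indicator (fun _ => (1 : ℝ)) (shE u x) ∂PP ≤ (1 / 2) ^ m := by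
    intro m u
    rw [int_shE (f := fun x => (FB m).indicator (fun _ => (1 : ℝ)) x) (h1 m).aestronglyMeasurable u,
      integral_indicator_const _ (FB_meas m), smul_eq_mul, mul_one]
    exact FB_real m
  unfold ZM
  refine ⟨integrable_finsetSum _ fun m _ => integrable_finsetSum _ fun u _ => h2 m u, ?_⟩
  rw [integral_finsetSum _ fun m _ => integrable_finsetSum _ fun u _ => h2 m u]
  simp_rw [integral_finsetSum _ fun u _ => h2 _ u]
  have h4 : ∑ m ∈ Finset.Ioc m0 K, ∑ u ∈ Q, ∫ x, (FB m).indicator (fun _ => (1 : ℝ)) (shE u x) ∂PP ≤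
      ∑ m ∈ Finset.Ioc m0 K, (Q.card : ℝ) * (1 / 2) ^ m := by
    refine Finset.sum_le_sum fun m _ => ?_
    refine (Finset.sum_le_sum fun u _ => h3 m u).trans (le_of_eq ?_)
    rw [Finset.sum_const, nsmul_eq_mul]
  refine h4.trans ?_
  rw [← Finset.mul_sum]
  refine mul_le_mul_of_nonneg_left ?_ (Nat.cast_nonneg _)
  have h5 : ∀ K : ℕ, ∑ m ∈ Finset.Ioc m0 K, (1 / 2 : ℝ) ^ m ≤ (1 / 2) ^ m0 - (1 / 2) ^ (max m0 K) := by
    intro K
    induction K with
    | zero => simp
    | succ K ih =>
      rcases lt_or_ge K m0 with h | h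
      · rw [Finset.Ioc_eq_empty (by omega), Finset.sum_empty, max_eq_left (by omega), sub_self]
      · rw [Finset.sum_Ioc_succ_top h, max_eq_right (by omega)]
        rw [max_eq_right h] at ih
        have : (1 / 2 : ℝ) ^ (K + 1) = (1 / 2) ^ K / 2 := by rw [pow_succ]; ring
        linarith
  have h6 : (0 : ℝ) ≤ (1 / 2) ^ (max m0 K) := by positivity
  linarith [h5 K]

end Pool.Agent.J4.H89.BK
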