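import Pool.Agent.J4.H89.BK.Lim
import Pool.Agent.J4.H91.FPP.Sq

set_option autoImplicit false
open MeasureTheory ProbabilityTheory Filter Set
open scoped ENNReal Topology

/-!
# The variance of the passage time is sublinear (helper89)
-/

namespace Pool.Agent.J4.H89.BK

open Function
open Pool.Agent.J4.H91.FPP
open Pool.Agent.N390.FL.TI (sg sg_inj)

/-- the shifts -/
noncomputable def Bk (k : ℕ) : Finset V :=
  Finset.Ico (0 : ℤ) ((k ^ 2 : ℕ) : ℤ) ×ˢ Finset.Ico (0 : ℤ) ((k ^ 2 : ℕ) : ℤ)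

theorem Bk_card (k : ℕ) : (Bk k).card = k ^ 4 := by
  unfold Bk
  rw [Finset.card_product, Int.card_Ico]
  simp only [sub_zero, Int.toNat_natCast]
  ring

theorem Bk_ne {k : ℕ} (hk : 1 ≤ k) : (Bk k).Nonempty := by
  rw [← Finset.card_pos, Bk_card]
  positivity

theorem Bk_dst {k : ℕ} {a b : V} (hab : |b.1 - a.1| + |b.2 - a.2| = 1) :
    ∀ u ∈ QQ a b (Bk k), ∀ u' ∈ QQ a b (Bk k), dst u u' ≤ 2 * k ^ 2 := by
  classical
  have hab' : (b.1 - a.1).natAbs + (b.2 - a.2).natAbs = 1 := by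
    rw [Int.abs_eq_natAbs, Int.abs_eq_natAbs] at hab
    exact_mod_cast hab
  have key : ∀ u ∈ QQ a b (Bk k), ∃ z : V, 0 ≤ z.1 ∧ z.1 < ((k ^ 2 : ℕ) : ℤ) ∧ 0 ≤ z.2 ∧
      z.2 < ((k ^ 2 : ℕ) : ℤ) ∧ ((u.1 = -z.1 + a.1 ∧ u.2 = -z.2 + a.2) ∨
        (u.1 = -z.1 + b.1 ∧ u.2 = -z.2 + b.2)) := by
    intro u hu
    unfold QQ at hu
    rcases Finset.mem_union.1 hu with h | h
    · obtain ⟨z, hz, rfl⟩ := Finset.mem_image.1 h
      unfold Bk at hz
      rw [Finset.mem_product, Finset.mem_Ico, Finset.mem_Ico] at hz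
      exact ⟨z, hz.1.1, hz.1.2, hz.2.1, hz.2.2, Or.inl ⟨rfl, rfl⟩⟩
    · obtain ⟨z, hz, rfl⟩ := Finset.mem_image.1 h
      unfold Bk at hz
      rw [Finset.mem_product, Finset.mem_Ico, Finset.mem_Ico] at hz
      exact ⟨z, hz.1.1, hz.1.2, hz.2.1, hz.2.2, Or.inr ⟨rfl, rfl⟩⟩
  intro u hu u' hu'
  obtain ⟨z, z1, z2, z3, z4, z5⟩ := key u hu
  obtain ⟨y, y1, y2, y3, y4, y5⟩ := key u' hu'
  generalize k ^ 2 = K at *
  unfold dst
  rcases z5 with z5 | z5 <;> rcases y5 with y5 | y5 <;> omega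

theorem pow4_le (k : ℕ) : (2 * (k : ℝ) ^ 4) * (1 / 2) ^ (4 * k) ≤ 2 := by
  have h1 : (k : ℝ) ≤ 2 ^ k := by exact_mod_cast (Nat.lt_two_pow_self (n := k)).le
  have h2 : (k : ℝ) ^ 4 ≤ 2 ^ (4 * k) := by
    have := pow_le_pow_left₀ (Nat.cast_nonneg k) h1 4
    rwa [← pow_mul, mul_comm k 4] at this
  have h3 : (2 : ℝ) ^ (4 * k) * (1 / 2) ^ (4 * k) = 1 := by
    rw [← mul_pow]; norm_num
  calc (2 * (k : ℝ) ^ 4) * (1 / 2) ^ (4 * k) ≤ (2 * 2 ^ (4 * k)) * (1 / 2) ^ (4 * k) := by gcongr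
    _ = 2 * (2 ^ (4 * k) * (1 / 2) ^ (4 * k)) := by ring
    _ = 2 := by rw [h3]; norm_num

/-- the constant -/
noncomputable def C1 : ℝ := 1032192058

theorem avg_bound {k : ℕ} (hk : 1 ≤ k) (v : V) {τ : ℝ} :
    τ * Vr (Sh (Bk k) (dR 0 v)) ≤
      (504 * (Real.exp (τ - 1) * (C1 / k)) + 504) * (25 * (dst 0 v + 1) + 2) := by
  have hk1 : (1 : ℝ) ≤ k := by exact_mod_cast hk
  have hk0 : (0 : ℝ) < k := by linarith
  have hBc : ((Bk k).card : ℝ) = (k : ℝ) ^ 4 := by rw [Bk_card]; push_cast; rfl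
  refine le_of_tendsto (var_dR.const_mul τ) ?_
  filter_upwards [box_ev v] with N hN
  refine le_of_tendsto ((var_TR hN).const_mul τ) ?_
  have h2 := (tendsto_pow_atTop_atTop_of_one_lt (one_lt_two : (1 : ℝ) < 2)).eventually_ge_atTop
    ((2 * N + 1) ^ 2 : ℝ)
  filter_upwards [h2, Sm_prob_ev N one_pos] with M hM hP
  refine AR_var (Bk_ne hk) (box_zero N) hN τ (C1 / k) _ (fun e _ => ?_)
    (div_nonneg (by unfold C1; norm_num) hk0.le) ?_
  · induction e using Sym2.ind with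
    | _ a b =>
      have h3 := cnt_shift (L := 2 * M) hM (box_zero N) hN (Bk k) a b
        (t := (k : ℝ) ^ 3) (by positivity) (D := 2 * k ^ 2) (fun hab => Bk_dst hab) (4 * k)
      rw [hBc] at h3 ⊢
      rw [div_le_div_iff₀ (by positivity) hk0]
      have h4 : (2 * (k : ℝ) ^ 4) ^ 2 * (((2 * k ^ 2 : ℕ) : ℝ) ^ 8 * 40320 / ((k : ℝ) ^ 3) ^ 7) =
          41287680 * (k : ℝ) ^ 3 := by
        push_cast
        field_simp
        ring
      rw [h4] at h3
      have h5 := pow4_le k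
      have h6 : (k : ℝ) ≤ (k : ℝ) ^ 3 := by nlinarith [sq_nonneg ((k : ℝ) - 1)]
      have h7 : ∫ x, (CE N v (Bk k) s(a, b) (yq (2 ^ M) (FN N) (2 * M) x) : ℝ) ∂PP ≤
          C1 * (k : ℝ) ^ 3 := by
        unfold C1
        push_cast at h3
        linarith
      calc _ ≤ C1 * (k : ℝ) ^ 3 * k := mul_le_mul_of_nonneg_right h7 hk0.le
        _ = C1 * (k : ℝ) ^ 4 := by ring
  · have h3 := cnt_total (L := 2 * M) hM (box_zero N) hN
    linarith

/-! ### from the average to the passage time -/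

theorem memLp_dR (v : V) : MemLp (dR 0 v) 2 PP := by
  refine MemLp.of_le (tR_memLp (dst 0 v) (LP 0 v)) (dR_meas 0 v).aestronglyMeasurable ?_
  filter_upwards [ae_nonneg] with x hx
  rw [Real.norm_eq_abs, Real.norm_eq_abs, abs_of_nonneg (dR_nonneg 0 v x),
    abs_of_nonneg (tR_nonneg hx _ _)]
  obtain ⟨N, hN⟩ := (box_ev v).exists
  exact (dR_le_TR hN x).trans (TR_le hx (LP_re (box_zero N) hN))

theorem int_Sh (B : Finset V) (hB : B.Nonempty) {f : En → ℝ} (hf : Integrable f PP) :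
    ∫ x, Sh B f x ∂PP = ∫ x, f x ∂PP := by
  have hc0 : (0 : ℝ) < B.card := by exact_mod_cast Finset.card_pos.2 hB
  unfold Sh
  rw [integral_div, integral_finsetSum _ fun z _ => integrable_shE hf z]
  have h1 : ∀ z ∈ B, ∫ x, f (shE z x) ∂PP = ∫ x, f x ∂PP := fun z _ =>
    int_shE hf.aestronglyMeasurable z
  rw [Finset.sum_congr rfl h1, Finset.sum_const, nsmul_eq_mul]
  field_simp

theorem sqm_avg {B : Finset V} (hB : B.Nonempty) (v : V) :
    sqm v ≤ 2 * Vr (Sh B (dR 0 v)) + 8 * ((∑ z ∈ B, ∫ x, dR 0 z x ^ 2 ∂PP) / B.card) := by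
  have hc0 : (0 : ℝ) < B.card := by exact_mod_cast Finset.card_pos.2 hB
  set g : En → ℝ := Sh B (dR 0 v) with hg
  have hgm : MemLp g 2 PP := Sh_memLp B (memLp_dR v)
  have hgi : ∫ x, g x ∂PP = hh v := int_Sh B hB ((memLp_dR v).integrable (by norm_num))
  have h1 : Vr g = ∫ x, (g x - hh v) ^ 2 ∂PP := by
    have e : (fun x => (g x - hh v) ^ 2) = fun x => (g x ^ 2 - 2 * hh v * g x) + hh v ^ 2 := by
      funext x; ring
    have i1 : Integrable (fun x => g x ^ 2) PP := hgm.integrable_sq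
    have i2 : Integrable (fun x => 2 * hh v * g x) PP := (hgm.integrable (by norm_num)).const_mul _
    have i3 : Integrable (fun x => g x ^ 2 - 2 * hh v * g x) PP := i1.sub i2
    rw [e, integral_add i3 (integrable_const _), integral_sub i1 i2, integral_const_mul, hgi,
      integral_const, probReal_univ, one_smul]
    unfold Vr
    rw [hgi]; ring
  have hpt : ∀ x, (dR 0 v x - hh v) ^ 2 ≤ 2 * (g x - hh v) ^ 2 +
      2 * ((∑ z ∈ B, (2 * dR 0 z x ^ 2 + 2 * dR 0 z (shE v x) ^ 2)) / B.card) := by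
    intro x
    have h2 : (dR 0 v x - g x) ^ 2 ≤
        (∑ z ∈ B, (2 * dR 0 z x ^ 2 + 2 * dR 0 z (shE v x) ^ 2)) / B.card := by
      have h3 : dR 0 v x - g x = (∑ z ∈ B, (dR 0 v x - dR 0 v (shE z x))) / B.card := by
        rw [Finset.sum_sub_distrib, Finset.sum_const, nsmul_eq_mul, sub_div, hg]
        unfold Sh
        field_simp
      have h4 := sq_sum_le_card_mul_sum_sq (s := B) (f := fun z => dR 0 v x - dR 0 v (shE z x))
      rw [h3, div_pow, div_le_div_iff₀ (by positivity) hc0]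
      have h5 : ∀ z ∈ B, (dR 0 v x - dR 0 v (shE z x)) ^ 2 ≤
          2 * dR 0 z x ^ 2 + 2 * dR 0 z (shE v x) ^ 2 := by
        intro z _
        have e1 : dR 0 v (shE z x) = dR z (z + v) x := by
          rw [dR_shift z (z + v), add_sub_cancel_left]
        have e2 : dR 0 z (shE v x) = dR v (z + v) x := by
          rw [dR_shift v (z + v), add_sub_cancel_right]
        rw [e1, e2]
        have t1 := dR_tri 0 z v x
        have t2 := dR_tri z (z + v) v x
        have t3 := dR_tri z 0 (z + v) x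
        have t4 := dR_tri 0 v (z + v) x
        rw [dR_comm (z + v) v] at t2
        rw [dR_comm z 0] at t3
        have n1 := dR_nonneg 0 z x
        have n2 := dR_nonneg v (z + v) x
        have h6 : |dR 0 v x - dR z (z + v) x| ≤ dR 0 z x + dR v (z + v) x := by
          rw [abs_le]; constructor <;> linarith
        have h7 := pow_le_pow_left₀ (abs_nonneg _) h6 2
        rw [sq_abs] at h7
        nlinarith [sq_nonneg (dR 0 z x - dR v (z + v) x)]
      have h6 := Finset.sum_le_sum h5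
      nlinarith [mul_le_mul_of_nonneg_left h6 (by positivity : (0 : ℝ) ≤ B.card * B.card)]
    nlinarith [sq_nonneg ((dR 0 v x - g x) - (g x - hh v))]
  have hz : ∀ z, Integrable (fun x => dR 0 z x ^ 2) PP := fun z => (memLp_dR z).integrable_sq
  have hz' : ∀ z, Integrable (fun x => dR 0 z (shE v x) ^ 2) PP := fun z =>
    integrable_shE (f := fun x => dR 0 z x ^ 2) (hz z) v
  have hz2 : ∀ z ∈ B, Integrable (fun x => 2 * dR 0 z x ^ 2 + 2 * dR 0 z (shE v x) ^ 2) PP :=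
    fun z _ => ((hz z).const_mul 2).add ((hz' z).const_mul 2)
  have i1 : Integrable (fun x => (dR 0 v x - hh v) ^ 2) PP :=
    ((memLp_dR v).sub (memLp_const (hh v))).integrable_sq
  have i2 : Integrable (fun x => 2 * (g x - hh v) ^ 2) PP :=
    ((hgm.sub (memLp_const (hh v))).integrable_sq).const_mul 2
  have i3 : Integrable (fun x =>
      (2 : ℝ) * ((∑ z ∈ B, (2 * dR 0 z x ^ 2 + 2 * dR 0 z (shE v x) ^ 2)) / (B.card : ℝ))) PP :=
    ((integrable_finsetSum B hz2).div_const _).const_mul 2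
  unfold sqm
  have i4 : Integrable (fun x => 2 * (g x - hh v) ^ 2 +
      (2 : ℝ) * ((∑ z ∈ B, (2 * dR 0 z x ^ 2 + 2 * dR 0 z (shE v x) ^ 2)) / (B.card : ℝ))) PP :=
    i2.add i3
  refine (integral_mono i1 i4 hpt).trans ?_
  rw [integral_add i2 i3, integral_const_mul, integral_const_mul, integral_div,
    integral_finsetSum B hz2, ← h1]
  have h8 : ∀ z ∈ B, ∫ x, (2 * dR 0 z x ^ 2 + 2 * dR 0 z (shE v x) ^ 2) ∂PP =
      4 * ∫ x, dR 0 z x ^ 2 ∂PP := by
    intro z _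
    rw [integral_add ((hz z).const_mul 2) ((hz' z).const_mul 2), integral_const_mul,
      integral_const_mul, int_shE (f := fun x => dR 0 z x ^ 2) (hz z).aestronglyMeasurable v]
    ring
  rw [Finset.sum_congr rfl h8, ← Finset.mul_sum]
  refine le_of_eq ?_
  ring

/-- the variance is sublinear -/
theorem sublinear {ε : ℝ} (hε : 0 < ε) : ∃ C : ℝ, 0 ≤ C ∧ ∀ v : V, sqm v ≤ ε * dst 0 v + C := by
  obtain ⟨τ, hτ⟩ : ∃ τ : ℝ, τ = 50400 / ε := ⟨_, rfl⟩
  have hτ0 : 0 < τ := by rw [hτ]; positivity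
  obtain ⟨k, hk⟩ := exists_nat_ge (max 1 (Real.exp (τ - 1) * C1))
  have hk1 : (1 : ℝ) ≤ k := (le_max_left _ _).trans hk
  have hk1' : 1 ≤ k := by exact_mod_cast hk1
  have hk0 : (0 : ℝ) < k := by linarith
  have hk2 : Real.exp (τ - 1) * C1 ≤ k := (le_max_right _ _).trans hk
  set D : ℝ := (∑ z ∈ Bk k, ∫ x, dR 0 z x ^ 2 ∂PP) / (Bk k).card with hD
  have hD0 : 0 ≤ D := div_nonneg (Finset.sum_nonneg fun z _ => integral_nonneg fun x => sq_nonneg _)
    (Nat.cast_nonneg _)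
  refine ⟨54432 / τ + 8 * D, by positivity, fun v => ?_⟩
  have h1 := sqm_avg (Bk_ne hk1') v
  have h2 := avg_bound hk1' v (τ := τ)
  have h3 : Real.exp (τ - 1) * (C1 / k) ≤ 1 := by
    rw [mul_div_assoc', div_le_one hk0]
    exact hk2
  have h4 : (504 * (Real.exp (τ - 1) * (C1 / k)) + 504) * (25 * (dst 0 v + 1) + 2) ≤
      1008 * (25 * (dst 0 v + 1) + 2) := by
    have : (0 : ℝ) ≤ dst 0 v := Nat.cast_nonneg _
    have h5 : (0 : ℝ) ≤ 25 * (dst 0 v + 1) + 2 := by positivity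
    have h6 : 504 * (Real.exp (τ - 1) * (C1 / k)) + 504 ≤ 1008 := by linarith
    exact mul_le_mul_of_nonneg_right h6 h5
  have h5 : Vr (Sh (Bk k) (dR 0 v)) ≤ 1008 * (25 * (dst 0 v + 1) + 2) / τ := by
    rw [le_div_iff₀ hτ0, mul_comm]
    exact h2.trans h4
  have h6 : 2 * (1008 * (25 * (dst 0 v + 1) + 2) / τ) = ε * dst 0 v + 54432 / τ := by
    rw [hτ]
    field_simp
    ring
  linarith

end Pool.Agent.J4.H89.BK
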